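import Pool.Agent.Work.MP_eb5f03_ct.Defs

/-!
# Blocks

The block `X` is a file `Pool/Agent/Work/MP_eb5f03_ct/B_X.lean` which imports this file and contains, in
the namespace `Pool.CubicTate`, `theorem p_X (h1 : S_Y) (h2 : S_Z) … : S_X`, where `Y`, `Z`, … are the
blocks which the docstring of `X` uses, in the order in which they are listed (no hypothesis if it uses
none).  `IsFin p L` and `deg p L` unfold to `FiniteDimensional ℚ_[p] L` and `Module.finrank ℚ_[p] L`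
(`haveI : FiniteDimensional ℚ_[p] L := hL`).
-/

set_option autoImplicit false

namespace Pool.CubicTate

/-! ## Residue degrees through norms -/

/-- RDG (80 lines).  For `L` finite over `ℚ_p`: `resDeg L > 0`, it is the valuation of a norm, and
divides the valuations of all norms.
PROOF.  `G = {v_p(N x) : x ∈ L, x ≠ 0}` is a subgroup of `ℤ` (`Padic.valuation_mul`,
`Padic.valuation_inv`, `map_mul`, `Algebra.norm_ne_zero_iff`), it contains `v_p(N p) = [L : ℚ_p] > 0`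
(`Algebra.norm_algebraMap`, `Padic.valuation_p`), so the set of the definition is not empty and the
smallest element `d` is in it (`Nat.sInf_mem`).  For `g ∈ G` the remainder `g mod d ∈ G` is `0`,
otherwise it is a smaller positive element (`Nat.sInf_le`). -/
def S_RDG : Prop := ∀ (p : ℕ) [Fact p.Prime] (L : Fld p), IsFin p L →
  0 < resDeg p L ∧
  (∃ x : L, x ≠ 0 ∧ (Algebra.norm ℚ_[p] x).valuation = (resDeg p L : ℤ)) ∧
  ∀ y : L, y ≠ 0 → (resDeg p L : ℤ) ∣ (Algebra.norm ℚ_[p] y).valuation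

/-- TOW (60 lines; uses RDG).  `K ≤ L` finite over `ℚ_p`: `resDeg K` divides `resDeg L` and the degree
of `K` divides the degree of `L`.
PROOF.  Take `x ∈ L` with `v(N_{L/ℚ_p} x) = resDeg L`; `N_{L/ℚ_p} x = N_{K/ℚ_p}(N_{L/K} x)`
(`Algebra.norm_norm`, with `IntermediateField.inclusion` or `IntermediateField.extendScalars`), and
`resDeg K` divides the valuations of norms from `K` (RDG).  Degrees: `Module.finrank_mul_finrank`. -/
def S_TOW : Prop := ∀ (p : ℕ) [Fact p.Prime] (K L : Fld p), IsFin p K →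
  IsFin p L → K ≤ L →
  resDeg p K ∣ resDeg p L ∧ deg p K ∣ deg p L

/-- RAM (150 lines; uses RDG, TOW).  Adjoining a `d`-th root `y` of a uniformiser `x` (that is
`v(N_{L/ℚ_p} x) = resDeg L`) gives an extension of degree `d` with the same residue degree.
PROOF.  `L' = L ⊔ ℚ_p(y)` (or the restriction of scalars of `L(y)`), `e = [L' : L] ≤ d`
(`y` is a root of `X^d - x`), finite.  Let `z = N_{L'/L}(y)`.  Then `z^d = N_{L'/L}(x) = x^e`.  Apply
`v ∘ N_{L/ℚ_p}`: `d * v(N z) = e * resDeg L`, and `resDeg L ∣ v(N z)` (RDG), so `d ∣ e`, so `e = d`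
(`e > 0`).  Then `v(N_{L/ℚ_p} z) = resDeg L`, that is `v(N_{L'/ℚ_p} y) = resDeg L`, so
`resDeg L' ∣ resDeg L` (RDG for `L'`); and `resDeg L ∣ resDeg L'` (TOW). -/
def S_RAM : Prop := ∀ (p : ℕ) [Fact p.Prime] (L : Fld p), IsFin p L →
  ∀ (x : L), x ≠ 0 → (Algebra.norm ℚ_[p] x).valuation = (resDeg p L : ℤ) →
  ∀ (d : ℕ), 0 < d → ∀ y : Om p, y ^ d = (x : Om p) →
    ∃ L' : Fld p, IsFin p L' ∧ L ≤ L' ∧ y ∈ L' ∧
      deg p L' = d * deg p L ∧ resDeg p L' = resDeg p L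

/-- UNR (250 lines; uses RDG).  For `n > 0` there is an extension `L` of `ℚ_p` of degree `n` with
residue degree `n`.
PROOF.  There is a monic irreducible `g₀ ∈ F_p[X]` of degree `n` (minimal polynomial of a primitive
element of `GaloisField p n`; `Field.exists_primitive_element`, `GaloisField.finrank`).  Lift it to a
monic `g ∈ ℤ_p[X]` of degree `n` (`Polynomial.lifts`, `PadicInt.toZMod`).  `g` is irreducible over `ℤ_p`
(`Polynomial.Monic.irreducible_of_irreducible_map`) hence over `ℚ_p`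
(`Polynomial.Monic.irreducible_iff_irreducible_map_fraction_map`).  Let `θ` be a root in `Om p`,
`L = ℚ_p(θ)`, `[L : ℚ_p] = n`, every `x ∈ L` is `∑_{i < n} a_i θ^i` with `a_i ∈ ℚ_p`.  CLAIM: the norm
of `x ≠ 0` is a power `p^(-k)`, `k ∈ ℤ`.  Scale by a power of `p` so that `max |a_i| = 1`; then
`‖x‖ ≤ 1`.  If `‖x‖ < 1` let `P = ∑ a_i X^i ∈ ℤ_p[X]`, its reduction `P₀` is not `0` and has degree
`< n`, so it is coprime to `g₀`: `U P + V g = 1 + p W` in `ℤ_p[X]` (lift `U₀ P₀ + V₀ g₀ = 1`), evaluate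
at `θ` (`‖θ‖ ≤ 1` as `θ` is integral over `ℤ_p`): `U(θ) x = 1 + p W(θ)`, norm `< 1` on the left, `1` on
the right.  So `‖x‖ = 1`.  Finally `‖N_{L/ℚ_p}(x)‖ = ‖x‖^n` (`N x` is up to sign the `n/m`-th power of
the constant coefficient of the minimal polynomial, of degree `m`, and `‖x‖` is the spectral norm:
`spectralNorm_eq_norm_coeff_zero_rpow`, or: the conjugates of `x` have the same norm
(`spectralNorm_eq_of_equiv`, `Algebra.norm_eq_prod_embeddings`)).  So `v(N x) ∈ nℤ` for all `x ≠ 0`,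
and `v(N p) = n`: `resDeg L = n`. -/
def S_UNR : Prop := ∀ (p : ℕ) [Fact p.Prime] (n : ℕ), 0 < n → ∃ L : Fld p,
  IsFin p L ∧ deg p L = n ∧ resDeg p L = n

/-- WIT (130 lines; uses RDG).  If `g` divides the residue degrees of all finite extensions over which
`M` has a point, then it divides `p^k χ(M) resDeg K` for some `k`.
PROOF.  Take `x ∈ K^*` with `v(N_{K/ℚ_p} x) = resDeg K` (RDG) and `k` from `wittenberg`.  The set of the
`y ∈ K^*` with `g ∣ v(N_{K/ℚ_p} y)` is a subgroup (kernel of the homomorphism to `ℤ/g`, or directly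
`Subgroup.closure_induction`).  It contains the generators: for `y = N_{L/K} z` (`z ≠ 0` as `y ≠ 0`) we
have `N_{K/ℚ_p} y = N_{L/ℚ_p} z` (`Algebra.norm_norm`, `IntermediateField.extendScalars`, with
`IsScalarTower`), whose valuation is divisible by the residue degree of `L` (RDG).  So
`g ∣ v(N(x^(p^k χ))) = p^k χ resDeg K`. -/
def S_WIT : Prop := ∀ (p : ℕ) [Fact p.Prime] (S : ProperSchemes p) (K : Fld p),
  IsFin p K → ∀ (M : S.V K) (g : ℤ),
  (∀ L : Fld p, IsFin p L → K ≤ L → S.pt M L → g ∣ (resDeg p L : ℤ)) →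
  ∃ k : ℕ, g ∣ (p : ℤ) ^ k * S.chi M * (resDeg p K : ℤ)

/-! ## The lattice and the stability conditions -/

/-- TRI (80 lines).  The Galois group acts trivially on `N` if `psi` fixes `C`.
PROOF.  Let `x ∈ N`.  By `act_c` there is `j` with `Cong h (c (act g x)) (psi^[j] (c x))`, and
`psi^[j] (c x) = c x` (`c_mem`, `Function.iterate_fixed`).  From `c_add` for `y = act g x - x` and `x`:
`Cong h (c y) 0`, so `act g x = x + (m l1 + n l2)` (`c_ker`).  `B (act g x) l1 = B (act g x) (act g l1) =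
B x l1`, so `0 = B (m l1 + n l2) l1 = 2 m - n` (`B_add` makes `B · z` an additive map, so it commutes
with integer multiples: `AddMonoidHom.mk'`, `map_zsmul`); the same with `l2`: `0 = -m + 2 n`.  So
`m = n = 0`. -/
def S_TRI : Prop := ∀ (p : ℕ) [Fact p.Prime] (S : ProperSchemes p) (K : Fld p) (A : Type)
  [AddCommGroup A] (h : A) (psi : A → A) (C : AddSubgroup A) (J : Fld p → AddSubgroup A)
  (Q : Kuznetsov S K h psi C J), (∀ a ∈ C, psi a = a) → ∀ g x, Q.act g x = x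

/-- OPN (60 lines).  If the Galois group acts trivially on `N` it acts trivially on `St`.
PROOF.  `E = {s | gal g s = s}` is closed (`isClosed_eq`, `T2Space`).  It is open: for `s ∈ E` let `U` be a
neighbourhood of `s` on which `Z` is injective; `gal g` is continuous with `gal g s = s`, so for `s'` near
`s` both `s'` and `gal g s'` are in `U`, and `Z (gal g s') = Z s'` by `Z_gal` and `act g x = x`; so
`gal g s' = s'`.  `s0 ∈ E`, `St` is preconnected: `E = St` (`IsClopen.eq_univ`). -/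
def S_OPN : Prop := ∀ (p : ℕ) [Fact p.Prime] (S : ProperSchemes p) (K : Fld p) (A : Type)
  [AddCommGroup A] (h : A) (psi : A → A) (C : AddSubgroup A) (J : Fld p → AddSubgroup A)
  (Q : Kuznetsov S K h psi C J), (∀ g x, Q.act g x = x) → ∀ g s, Q.gal g s = s

/-- PAR (100 lines, integers only).  `A₂` is anisotropic modulo `2`.
PROOF.  Let `V(x,y) = c + b₁ x + b₂ y + x² - x y + y²`.  For `x = X` large, `y = 0` the values at
`X, X+1, X+2` are `≥ -1` and `V(X+2,0) - 2 V(X+1,0) + V(X,0) = 2`; so with `k` the maximum of the three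
exponents (multiply by powers of `p`) `g` divides `p^k m ((V+2)(X+2) - 2 (V+2)(X+1) + (V+2)(X)) = 2 p^k m`.
Next, some `V(x,y)` is odd with `V ≥ -1`: modulo `2`, if `c` is odd take `(x,y) = (0,0)`, else one of
`(1,0)`, `(0,1)`, `(1,1)` gives `b₁+1`, `b₂+1`, `b₁+b₂+1`, not all even; the parity of `V` depends only on
`(x,y)` modulo `2`, so add to `x` a large even number (`V` is a quadratic polynomial in `x` with leading
coefficient `1`).  So `g ∣ p^k m (2 w + 1)` for some integer `w`, and `g ∣ 2 p^k m`: `g ∣ p^k m`. -/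
def S_PAR : Prop := ∀ (p : ℕ) (c b₁ b₂ g m : ℤ),
  (∀ x y : ℤ, -1 ≤ c + b₁ * x + b₂ * y + x ^ 2 - x * y + y ^ 2 →
    ∃ k : ℕ, g ∣ (p : ℤ) ^ k * (c + b₁ * x + b₂ * y + x ^ 2 - x * y + y ^ 2 + 2) * m) →
  ∃ k : ℕ, g ∣ (p : ℤ) ^ k * m

/-- CYC (150 lines).  `C` is generated by one element modulo `h`.
PROOF.  `D = C/ℤh` is a finitely generated abelian group (a submodule of a quotient of the Noetherian
module `A`), torsion free by `h_prim`, so free (`Module.free_of_finite_type_torsion_free'`) of some rank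
`n`.  Any two elements of `D` are linearly dependent: for `b, b' ∈ C` with `n b = x a + y h`,
`n' b' = x' a + y' h` we get `x' n b - x n' b' ∈ ℤh`; if `x = x' = 0` then `n b ∈ ℤh`, `n ≠ 0`, so `b` is
`0` in `D`.  So the rank is at most `1`; it is not `0` as `a` is not in `ℤh`.  Lift a basis vector. -/
def S_CYC : Prop := ∀ (A : Type) [AddCommGroup A] (h : A), Module.Finite ℤ A →
  (∀ (n m : ℤ) (a : A), n ≠ 0 → n • a = m • h → ∃ k : ℤ, a = k • h) →
  ∀ (C : AddSubgroup A) (a : A), a ∈ C → h ∈ C → (∀ k : ℤ, a ≠ k • h) →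
  (∀ b ∈ C, ∃ n x y : ℤ, n ≠ 0 ∧ n • b = x • a + y • h) →
  ∃ e ∈ C, ∀ b ∈ C, ∃ i j : ℤ, b = i • e + j • h

/-- DIV (120 lines).  The division by `p` modulo `h` stops.
PROOF.  `A/ℤh` is a finitely generated torsion free (`h_prim`) abelian group, so free of finite rank; the
class of `a` is not `0`, so some coordinate is not `0` and the class is divisible by `p^k` only for
`k ≤ K₀`.  Take the largest `k` for which `a = p^k b + m h` for some `b, m` (`k = 0` is possible), and such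
`b, m`: if `b = p b' + m' h` then `a = p^(k+1) b' + (p^k m' + m) h`, contradiction.  If `b = j h` then
`a ∈ ℤh`, contradiction. -/
def S_DIV : Prop := ∀ (p : ℕ) (A : Type) [AddCommGroup A] (h : A), p.Prime → Module.Finite ℤ A →
  (∀ (n m : ℤ) (a : A), n ≠ 0 → n • a = m • h → ∃ k : ℤ, a = k • h) →
  ∀ a : A, (∀ k : ℤ, a ≠ k • h) →
  ∃ (k : ℕ) (b : A) (m : ℤ), a = ((p : ℤ) ^ k) • b + m • h ∧ (∀ j : ℤ, b ≠ j • h) ∧
    ∀ (b' : A) (m' : ℤ), b ≠ (p : ℤ) • b' + m' • h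

/-! ## Lifting -/

/-- RES (150 lines).  A quadratic form in twenty variables over a finite field whose symmetric matrix has
rank at least `19` takes every value at a vector which is not in the radical.
PROOF.  Write `q(s) = ∑_{i,j} s_i M_ij s_j`, `B(s,w) = ∑_{i,j} s_i M_ij w_j`.  Let the minor without row
`i` and column `j` be not `0`.  Chevalley-Warning for the polynomial `q` in the nineteen variables
`s_(j.succAbove l)` (with `s_j = 0`; or for the two polynomials `q`, `s_j` in twenty variables, of total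
degree `3 < 20`): the zero `0` is not the only one (`char_dvd_card_solutions…`), there is `s₀ ≠ 0` with
`q(s₀) = 0`, `(s₀)_j = 0`.  Then `M s₀ ≠ 0`: otherwise the submatrix kills the vector of the other
coordinates, which is not `0` (`Matrix.eq_zero_of_mulVec_eq_zero`, `Fin.sum_univ_succAbove`).  If `β = 0`
take `s₀`.  If `β ≠ 0` choose `w` with `B(s₀,w) ≠ 0` (a basis vector) and `s = w + λ s₀`,
`q(s) = q(w) + 2 λ B(s₀,w)` (`M` symmetric, `q(s₀) = 0`), choose `λ` with `q(s) = -β`; `M s ≠ 0` since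
`q(s) ≠ 0`. -/
def S_RES : Prop := ∀ (k : Type) [Field k] [Finite k], (2 : k) ≠ 0 →
  ∀ (M : Matrix (Fin 20) (Fin 20) k), M.IsSymm →
  (∃ i j : Fin 20, (M.submatrix i.succAbove j.succAbove).det ≠ 0) → ∀ β : k,
    ∃ s : Fin 20 → k, β + ∑ i, ∑ j, s i * M i j * s j = 0 ∧ ∃ i, ∑ j, M i j * s j ≠ 0

/-- NEW (120 lines).  Newton's method for polynomials over a field `K` between `ℚ_p` and `Om p`.
PROOF.  Let `δ = ‖q(0)‖ < 1`, `u = q'(0)`, `‖u‖ = 1`.  Put `x_0 = 0`, `x_(n+1) = x_n - q(x_n)/u`.  By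
induction `‖x_n‖ ≤ δ` and `‖q(x_n)‖ ≤ δ^(n+1)`: `q(x + y) = q(x) + q'(x) y + y² (…)`, with a factor `(…)`
of norm `≤ 1` for `‖x‖, ‖y‖ ≤ 1` (`Polynomial.binomExpansion`, the ring of elements of norm `≤ 1`);
`‖q'(x_n) - u‖ ≤ ‖x_n‖ ≤ δ`; with `y = -q(x_n)/u`: `q(x_(n+1)) = q(x_n) (1 - q'(x_n)/u) + y² (…)`, norm
`≤ ‖q(x_n)‖ δ`.  `δ^n → 0`. -/
def S_NEW : Prop := ∀ (p : ℕ) [Fact p.Prime] (K : Fld p) (q : Polynomial K),
  (∀ n, ‖((q.coeff n : K) : Om p)‖ ≤ 1) → ‖((q.coeff 0 : K) : Om p)‖ < 1 →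
  ‖((q.coeff 1 : K) : Om p)‖ = 1 → ∀ ε : ℝ, 0 < ε →
    ∃ x : K, ‖(x : Om p)‖ ≤ ‖((q.coeff 0 : K) : Om p)‖ ∧ ‖((q.eval x : K) : Om p)‖ ≤ ε

/-- LIN (150 lines; uses NEW).  First case: a linear coefficient is a unit.
PROOF.  Let `i` be the index with `‖f e_i‖ = 1`.  `x ↦ trunc f N (x e_i)` is the polynomial
`q = ∑_{n < N} f(n e_i) X^n ∈ K[X]` (all other terms have a factor `0`; for `N ≤ 1` take `t = 0`: the value
is `0` or `f 0`).  NEW with `ε = ρ^N` (if `ρ = 0` then `p = 0`, excluded by `ρ^2 = ‖p‖`):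
`‖x‖ ≤ ‖f 0‖ ≤ ρ`, `‖trunc f N (x e_i)‖ ≤ ρ^N`. -/
def S_LIN : Prop := ∀ (p : ℕ) [Fact p.Prime] (K : Fld p) (f : (Fin 20 → ℕ) → Om p) (ρ : ℝ),
  0 < ρ → ρ < 1 → (∀ α, f α ∈ K) → (∀ α, ‖f α‖ ≤ 1) → ‖f 0‖ ≤ ρ → (∃ i, ‖f (Pi.single i 1)‖ = 1) →
  ∀ N : ℕ, ∃ t : Fin 20 → Om p, (∀ i, t i ∈ K) ∧ ‖t‖ ≤ ρ ∧ ‖trunc p f N t‖ ≤ ρ ^ N

/-- QUA (350 lines; uses NEW, RES).  Second case: the linear coefficients are divisible by `p` and the
quadratic part has rank at least `19` modulo `p`; `v ∈ K`, `v² = p`.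
PROOF.  For `N ≤ 2` take `t = 0` (value `0` or `f 0`, `‖f 0‖ ≤ ‖p‖ = ρ²`; for `N = 1, 2` need
`≤ ρ, ρ²`).  Let `N ≥ 3`, `k` the residue field of `K`: `O = {x ∈ K : ‖x‖ ≤ 1}` modulo
`{‖x‖ < 1}`, a finite field of characteristic `p` (`K` is finite over `ℚ_p`, so it is a proper metric space:
`O` is compact and the cosets are open; or use `Valued.integer.finite_residueField…`; or: `O` is covered by
finitely many balls of radius `< 1`).  Put `β = f(0)/p`, `M = hess f / 2` (entries of norm `≤ 1`, as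
`2` is a unit, `p` odd), reduce modulo the maximal ideal, a `19 × 19` minor is a unit.  RES: `s ∈ O^20` with
`‖β + ∑ s_i M_ij s_j‖ < 1` and `i` with `‖∑_j M_ij s_j‖ = 1`.  Let
`g(w) = p^(-1) trunc f N (v w)` (`w ∈ Om^20`): the term of `α` is `f(α) v^|α| w^α / p`: for `|α| = 0`
it is `β`, for `|α| = 1` it is `f(e_j) v w_j / p` (norm `≤ ‖v‖`), for `|α| = 2` together
`∑ w_i M_ij w_j`, for `|α| ≥ 3` norm `≤ ‖v‖`.  The polynomial
`q(X) = g(s + X e_i) ∈ K[X]` (use `MvPolynomial` or `Polynomial` evaluation at `C s_j + X δ_ij`) has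
coefficients of norm `≤ 1`, `‖q(0)‖ < 1` and `q'(0) = 2 ∑_j M_ij s_j + (norm ≤ ‖v‖)`, norm `1`.  NEW
with `ε = ρ^N`: `x ∈ K`, `‖x‖ < 1`, `‖q(x)‖ ≤ ρ^N`; `t = v (s + x e_i)`: `‖t‖ ≤ ‖v‖ = ρ` and
`‖trunc f N t‖ = ‖p‖ ‖q(x)‖ ≤ ρ^N`. -/
def S_QUA : Prop := ∀ (p : ℕ) [Fact p.Prime], p ≠ 2 → ∀ (K : Fld p), IsFin p K →
  ∀ (v : Om p), v ∈ K → v ^ 2 = (p : Om p) → ∀ (f : (Fin 20 → ℕ) → Om p), (∀ α, f α ∈ K) →
  (∀ α, ‖f α‖ ≤ 1) → ‖f 0‖ ≤ ‖(p : Om p)‖ → (∀ i, ‖f (Pi.single i 1)‖ ≤ ‖(p : Om p)‖) →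
  (∃ i j, ‖minor p f i j‖ = 1) →
  ∀ N : ℕ, ∃ t : Fin 20 → Om p, (∀ i, t i ∈ K) ∧ ‖t‖ ≤ ‖v‖ ∧ ‖trunc p f N t‖ ≤ ‖v‖ ^ N

/-- EST (80 lines).  Differences of truncations.
PROOF.  For `N ≤ M` the difference `trunc f M t - trunc f N t` is the sum of the terms of degree in
`[N, M)` (re-index: the multi-indices of degree `< N` with entries `< M` are those with entries `< N`),
each of norm `≤ ‖t‖^|α| ≤ ‖t‖^N` (`norm_le_pi_norm`, `‖t‖ ≤ 1`); ultrametric inequality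
(`IsUltrametricDist.norm_sum_le_of_forall_le_of_nonneg`). -/
def S_EST : Prop := ∀ (p : ℕ) [Fact p.Prime] (f : (Fin 20 → ℕ) → Om p) (t : Fin 20 → Om p),
  (∀ α, ‖f α‖ ≤ 1) → ‖t‖ ≤ 1 → ∀ N M : ℕ, N ≤ M → ‖trunc p f M t - trunc p f N t‖ ≤ ‖t‖ ^ N

/-- CLO (40 lines).  The zero set is closed.
PROOF.  `t ↦ trunc f N t` is a finite sum of products of coordinates, continuous; so is
`t ↦ ‖t‖^N`; intersection over `N` (`isClosed_iInter`, `isClosed_le`). -/
def S_CLO : Prop := ∀ (p : ℕ) [Fact p.Prime] (f : (Fin 20 → ℕ) → Om p),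
  IsClosed {t : Fin 20 → Om p | Vanishes p f t}

/-- LIM (150 lines; uses EST).  Zeros from approximate zeros, by compactness.
PROOF.  `K` is finite over `ℚ_p`, so `{x ∈ K : ‖x‖ ≤ ρ}` is compact (`FiniteDimensional.proper`,
`isCompact_closedBall`, as a subset of `Om p`: the image under the continuous inclusion), so is its
twentieth power (`isCompact_univ_pi`).  Let `t_N` be the approximate zeros.  A subsequence converges to
`t`, `t_i ∈ K`, `‖t‖ ≤ ρ`.  For `N₀ ≤ N`: `‖trunc f N₀ t_N‖ ≤ max(‖trunc f N t_N‖, ρ^N₀) ≤ ρ^N₀` (EST,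
ultrametric), and in the limit `‖trunc f N₀ t‖ ≤ ρ^N₀` (continuity).  Finally for all `N₀ ≤ N`:
`‖trunc f N₀ t‖ ≤ max(‖trunc f N t‖, ‖t‖^N₀) ≤ max(ρ^N, ‖t‖^N₀)` by EST; `N → ∞`, `ρ^N → 0`:
`‖trunc f N₀ t‖ ≤ ‖t‖^N₀`. -/
def S_LIM : Prop := ∀ (p : ℕ) [Fact p.Prime] (K : Fld p), IsFin p K →
  ∀ (f : (Fin 20 → ℕ) → Om p) (ρ : ℝ), 0 < ρ → ρ < 1 → (∀ α, ‖f α‖ ≤ 1) →
  (∀ N : ℕ, ∃ t : Fin 20 → Om p, (∀ i, t i ∈ K) ∧ ‖t‖ ≤ ρ ∧ ‖trunc p f N t‖ ≤ ρ ^ N) →
  ∃ t : Fin 20 → Om p, (∀ i, t i ∈ K) ∧ ‖t‖ ≤ ρ ∧ Vanishes p f t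

/-- BAI (150 lines; uses CLO).  Baire's theorem on the zero set.
PROOF.  `X₀ = {t ∈ Om^20 : t_i ∈ K, ‖t‖ ≤ ρ, Vanishes f t}` is compact (closed in the compact set of
LIM; CLO), so the subtype is a compact Hausdorff space, a Baire space.  For each `n` the set
`{t ∈ X₀ : not Vanishes (g n) t}` is open (CLO) and dense (hypothesis).  The intersection is dense
(`dense_iInter_of_isOpen`), so not empty. -/
def S_BAI : Prop := ∀ (p : ℕ) [Fact p.Prime] (K : Fld p), IsFin p K →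
  ∀ (f : (Fin 20 → ℕ) → Om p) (ρ : ℝ) (I : Type) [Countable I] (g : I → (Fin 20 → ℕ) → Om p),
  (∃ t : Fin 20 → Om p, (∀ i, t i ∈ K) ∧ ‖t‖ ≤ ρ ∧ Vanishes p f t) →
  (∀ (n : I) (u : Fin 20 → Om p) (ε : ℝ), (∀ i, u i ∈ K) → ‖u‖ ≤ ρ → Vanishes p f u → 0 < ε →
    ∃ t : Fin 20 → Om p, (∀ i, t i ∈ K) ∧ ‖t‖ ≤ ρ ∧ Vanishes p f t ∧ ‖t - u‖ < ε ∧
      ¬ Vanishes p (g n) t) →
  ∃ t : Fin 20 → Om p, (∀ i, t i ∈ K) ∧ ‖t‖ ≤ ρ ∧ Vanishes p f t ∧ ∀ n, ¬ Vanishes p (g n) t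

/-! ## Assembly -/

/-- LFT (200 lines; uses RDG, RAM, UNR, LIN, QUA, LIM, BAI).  A class `a` which is invariant, not in
`ℤh` and not of the third kind lifts to a field with residue degree `r m`, and there nothing else than
the rational combinations of `a` and `h` lifts.
PROOF.  UNR with `n = r m`: `L` with `resDeg L = [L : ℚ_p] = r m`; `v(N p) = r m`
(`Algebra.norm_algebraMap`), so `p` is a uniformiser, RAM with `d = 2`, `y² = p`
(`IsAlgClosed.exists_pow_nat_eq`): `K` finite, `resDeg K = r m`, `y ∈ K`.  `ρ = ‖y‖`, `ρ² = ‖p‖ < 1`.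
By `f_mem` the coefficients of `f a` are in `K`; `‖f a 0‖ ≤ ‖p‖ ≤ ρ` (`f_zero`, `f_unram`).  By `cases`
(third case excluded) LIN or QUA (linear coefficients `≤ ‖p‖` by `f_unram`), then LIM: there is a zero.
Index set `I` = `{b : A // ∀ n x y, n ≠ 0 → n b ≠ x a + y h}`, countable (`A` is finitely generated:
`Module.Finite.finite…`, `Countable`), `g b = f b`.  Density: given `u` (a lift: `IsLift r K u m`, as
`‖u‖ ≤ ρ < 1`), `ε > 0`; if all zeros `t` of `f a` over `K` with `‖t_i - u_i‖ < min ε ρ`, `IsLift`, were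
zeros of `f b`, then `torelli` would give `n b = x a + y h`; so there is such a `t` with not
`Vanishes (f b) t`; `‖t‖ ≤ max(‖u‖, ‖t - u‖) ≤ ρ` (ultrametric), `‖t - u‖ < ε` (`pi_norm_lt_iff`).
BAI gives `t`; for `b ∈ C t` we have `Vanishes (f b) t` (`C_mem`), so `b` is not in `I`. -/
def S_LFT : Prop := ∀ (p : ℕ) [Fact p.Prime], p ≠ 2 → ∀ (S : ProperSchemes p) (r : ℕ), 0 < r →
  ∀ (A H3 H2 : Type) [AddCommGroup A] [AddCommGroup H3] [AddCommGroup H2]
  (X : CubicFourfold S r A H3 H2) (a : A), X.phi a = a →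
  (∀ (b : A) (m : ℤ), a ≠ (p : ℤ) • b + m • X.h) → ∀ m : ℕ, 0 < m →
  ∃ (K : Fld p) (t : Fin 20 → Om p), IsLift r K t m ∧ Vanishes p (X.f a) t ∧
    ∀ b ∈ X.C t, ∃ n x y : ℤ, n ≠ 0 ∧ n • b = x • a + y • X.h

/-- MOD (250 lines; uses RDG, TOW, RAM, WIT, TRI, OPN, PAR, CYC).  At such a lift, with `Line m`:
`p^k m a ∈ im 1` for some `k`, in the following form: every integer `g` which divides all integers `n`
with `n a ∈ im 1` divides `p^k m`.
PROOF.  `a ∈ C t` (`C_mem`).  CYC: `e ∈ C t`, every `b ∈ C t` is `i e + j h`; `a = i₀ e + j₀ h`.  All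
elements `b` of `C t` are fixed by `phi`: `n b = x a + y h` is, and `A` is torsion free (`tf`); so
`phi^[m]` fixes `C t`.  `Q` = the Kuznetsov data (`ku`).  TRI, OPN: `act` and `gal` are trivial.
`c_onto`: `u` with `Cong h e (c u)`.  For `x, y ∈ ℤ` let `v = u + (x l1 + y l2)`, `Cong h (c v) e` (`c_add`,
`c_ker`; `Cong h` is an equivalence relation compatible with sums and multiples).  `v` is primitive: if
`v = k w`, then `Cong h (c v) (k • c w)` (induction from `c_add`, or the additive map `N → A/ℤh`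
induced by `c`), `c w ∈ C t`, `c w = i e + j h`, so `e - k i e ∈ ℤh`; if `k i ≠ 1` then
`(1 - k i) e ∈ ℤh`, `e ∈ ℤh` (`h_prim`), `a ∈ ℤh`, contradiction.  So `k i = 1`, `k = ±1`.
`B v v = 2 V(x,y)` with `2 c = B u u` (`B_even`), `b₁ = B u l1`, `b₂ = B u l2`,
`V = c + b₁ x + b₂ y + x² - x y + y²`.  Let `V ≥ -1`.  `gen` (`v ≠ 0`, otherwise `Cong h (c 0) 0` by
`c_ker` and `e ∈ ℤh`): `s`; `moduli`: `M`, `chi M = V + 2`.  CLAIM: `r g ∣ resDeg K'` for each finite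
`K' ≥ K` with `pt M K'`: let `d` be the order, `x ∈ K'` a uniformiser (RDG), `y^d = x`
(`IsAlgClosed.exists_pow_nat_eq`), RAM: `L`, `deg L = d deg K'`, `resDeg L = resDeg K'`.  So there is
`b ∈ J t L` with `Cong h (c v) b`, so `e ∈ J t L` (`J_h`).  `resDeg K = r m ∣ resDeg L` (TOW, `K ≤ L`),
`resDeg L = r n`, `n > 0`; `J_spec`: `e ∈ im n`; `im_norm` with `phi e = e`: `n e ∈ im 1`;
`n a = i₀ n e + n j₀ h ∈ im 1`.  So `g ∣ n`, `r g ∣ r n = resDeg K'`.  WIT with `r g`: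
`r g ∣ p^k (V + 2) r m`, so `g ∣ p^k (V+2) m` (`r ≠ 0`).  PAR: `g ∣ p^k m`. -/
def S_MOD : Prop := ∀ (p : ℕ) [Fact p.Prime] (S : ProperSchemes p) (r : ℕ), 0 < r →
  ∀ (A H3 H2 : Type) [AddCommGroup A] [AddCommGroup H3] [AddCommGroup H2]
  (X : CubicFourfold S r A H3 H2) (a : A) (m : ℕ) (K : Fld p) (t : Fin 20 → Om p),
  X.phi a = a → (∀ k : ℤ, a ≠ k • X.h) → IsLift r K t m → X.Line m → Vanishes p (X.f a) t →
  (∀ b ∈ X.C t, ∃ n x y : ℤ, n ≠ 0 ∧ n • b = x • a + y • X.h) →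
  ∀ g : ℤ, (∀ n : ℤ, n • a ∈ X.im 1 → g ∣ n) → ∃ k : ℕ, g ∣ (p : ℤ) ^ k * (m : ℤ)

/-- FIN (120 lines; uses LFT, MOD, DIV).  The theorem.
PROOF.  Let `phi a = a`.  If `a ∈ ℤh` then `a ∈ im 1` (`h_im`).  Otherwise DIV: `a = p^k b + j h`, `b` not
in `ℤh` and not of the third kind; `phi b = b` (`phi_h`, torsion free).  The integers `n` with
`n b ∈ im 1` form a subgroup `g ℤ` of `ℤ` (`AddSubgroup` of `ℤ` is cyclic, `Int.subgroup_cyclic` or
`AddSubgroup.isAddCyclic…`).  For `m ≥ max m₀ 1` LFT and MOD: `g ∣ p^(k_m) m`.  Use `m` and `m + 1`: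
`g ∣ p^k` with `k = max`, so `p^k b ∈ im 1`, and `p^(k + k') a ∈ im 1`.  `x ∈ H3`: `ctk x = mk a` with
`phi a = a`, `p^k a ∈ im 1`, so `p^k x = 0` (`ctk_inj`), and `n x = 0` with `n` prime to `p`: `x = 0`.
`x ∈ H2`: `ms x = 0`, so `x = 0`. -/
def S_FIN : Prop := ∀ (p : ℕ) [Fact p.Prime], p ≠ 2 → ∀ (S : ProperSchemes p) (r : ℕ), 0 < r →
  ∀ (A H3 H2 : Type) [AddCommGroup A] [AddCommGroup H3] [AddCommGroup H2]
  (X : CubicFourfold S r A H3 H2),
  (∀ a, X.phi a = a → ∃ k : ℕ, (p ^ k) • a ∈ X.im 1) ∧ (∀ x : H3, x = 0) ∧ ∀ x : H2, x = 0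

end Pool.CubicTate
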