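import Pool.Agent.Work.MP_eb5f03_ct.Interface

set_option autoImplicit false

namespace Pool.CubicTate

/-- The assembly of the blocks. -/
theorem assembly (p_RDG : S_RDG) (p_TOW : S_RDG → S_TOW) (p_RAM : S_RDG → S_TOW → S_RAM)
    (p_UNR : S_RDG → S_UNR) (p_WIT : S_RDG → S_WIT) (p_TRI : S_TRI) (p_OPN : S_OPN)
    (p_PAR : S_PAR) (p_CYC : S_CYC) (p_DIV : S_DIV) (p_RES : S_RES) (p_NEW : S_NEW)
    (p_LIN : S_NEW → S_LIN) (p_QUA : S_NEW → S_RES → S_QUA) (p_EST : S_EST) (p_CLO : S_CLO)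
    (p_LIM : S_EST → S_LIM) (p_BAI : S_CLO → S_BAI)
    (p_LFT : S_RDG → S_RAM → S_UNR → S_LIN → S_QUA → S_LIM → S_BAI → S_LFT)
    (p_MOD : S_RDG → S_TOW → S_RAM → S_WIT → S_TRI → S_OPN → S_PAR → S_CYC → S_MOD)
    (p_FIN : S_LFT → S_MOD → S_DIV → S_FIN) : S_FIN :=
  p_FIN
    (p_LFT p_RDG (p_RAM p_RDG (p_TOW p_RDG)) (p_UNR p_RDG) (p_LIN p_NEW) (p_QUA p_NEW p_RES)
      (p_LIM p_EST) (p_BAI p_CLO))
    (p_MOD p_RDG (p_TOW p_RDG) (p_RAM p_RDG (p_TOW p_RDG)) (p_WIT p_RDG) p_TRI p_OPN p_PAR p_CYC)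
    p_DIV

end Pool.CubicTate
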