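import Pool.Agent.Work.MP_eb5f03_ct.Interface

set_option autoImplicit false

namespace Pool.CubicTate

/-- The elements of norm at most `ρ` of a finite extension `K` of `ℚ_p` form a compact set. -/
theorem bai_compact_ball (p : ℕ) [Fact p.Prime] (K : Fld p) (hK : IsFin p K) (ρ : ℝ) :
    IsCompact {x : Om p | x ∈ K ∧ ‖x‖ ≤ ρ} := by
  let V : Submodule ℚ_[p] (Om p) := Subalgebra.toSubmodule K.toSubalgebra
  haveI : FiniteDimensional ℚ_[p] V := hK
  haveI : ProperSpace V := FiniteDimensional.proper ℚ_[p] V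
  have hc : IsCompact (Metric.closedBall (0 : V) ρ) := isCompact_closedBall 0 ρ
  have him := hc.image (continuous_subtype_val : Continuous (fun x : V => (x : Om p)))
  convert him using 1
  ext x
  constructor
  · rintro ⟨hx, hn⟩
    refine ⟨⟨x, hx⟩, ?_, rfl⟩
    rw [mem_closedBall_zero_iff]
    exact hn
  · rintro ⟨y, hy, rfl⟩
    rw [mem_closedBall_zero_iff] at hy
    exact ⟨y.2, hy⟩

theorem p_BAI (h1 : S_CLO) : S_BAI := by
  intro p _ K hK f ρ I _ g hne hden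
  have hcpt := bai_compact_ball p K hK ρ
  let X₀ : Set (Fin 20 → Om p) := {t | (∀ i, t i ∈ K) ∧ ‖t‖ ≤ ρ ∧ Vanishes p f t}
  have hX : IsCompact X₀ := by
    have hpi : IsCompact (Set.pi (Set.univ : Set (Fin 20))
        (fun _ => {x : Om p | x ∈ K ∧ ‖x‖ ≤ ρ})) := isCompact_univ_pi fun _ => hcpt
    have h2 := hpi.inter_right (h1 p f)
    convert h2 using 1
    ext t
    constructor
    · rintro ⟨ha, hb, hc⟩
      exact ⟨fun i _ => ⟨ha i, (norm_le_pi_norm t i).trans hb⟩, hc⟩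
    · rintro ⟨ha, hc⟩
      exact ⟨fun i => (ha i (Set.mem_univ i)).1,
        (pi_norm_le_iff_of_nonempty t).2 fun i => (ha i (Set.mem_univ i)).2, hc⟩
  haveI : CompactSpace X₀ := isCompact_iff_compactSpace.1 hX
  haveI : Nonempty X₀ := by
    obtain ⟨t, ht⟩ := hne
    exact ⟨⟨t, ht⟩⟩
  have hopen : ∀ n : I, IsOpen {t : X₀ | ¬ Vanishes p (g n) t.1} := fun n =>
    (h1 p (g n)).isOpen_compl.preimage continuous_subtype_val
  have hdense : ∀ n : I, Dense {t : X₀ | ¬ Vanishes p (g n) t.1} := by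
    intro n
    rw [Metric.dense_iff]
    rintro ⟨u, hu1, hu2, hu3⟩ ε hε
    obtain ⟨t, ht1, ht2, ht3, ht4, ht5⟩ := hden n u ε hu1 hu2 hu3 hε
    refine ⟨⟨t, ht1, ht2, ht3⟩, ?_, ht5⟩
    rw [Metric.mem_ball, Subtype.dist_eq, dist_eq_norm]
    exact ht4
  have hd := dense_iInter_of_isOpen hopen hdense
  obtain ⟨⟨t, ht1, ht2, ht3⟩, ht⟩ := hd.nonempty
  exact ⟨t, ht1, ht2, ht3, fun n => Set.mem_iInter.1 ht n⟩

end Pool.CubicTate
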