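import Pool.Agent.Work.MP_eb5f03_ct.Interface

set_option autoImplicit false

namespace Pool.CubicTate

theorem p_CLO : S_CLO := by
  intro p _ f
  have h : {t : Fin 20 → Om p | Vanishes p f t} =
      ⋂ N : ℕ, {t : Fin 20 → Om p | ‖trunc p f N t‖ ≤ ‖t‖ ^ N} := by
    ext t
    simp only [Set.mem_ofPred_eq, Set.mem_iInter, Vanishes]
  rw [h]
  refine isClosed_iInter fun N => ?_
  refine isClosed_le ?_ ?_
  · have hc : Continuous (fun t : Fin 20 → Om p => trunc p f N t) := by
      unfold trunc
      refine continuous_finsetSum _ fun α _ => ?_
      refine continuous_const.mul ?_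
      refine continuous_finsetProd _ fun i _ => ?_
      exact (continuous_apply i).pow _
    exact hc.norm
  · exact (continuous_norm).pow N

end Pool.CubicTate
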