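import Pool.Agent.Work.MP_eb5f03_ct.Interface

/-! # MP_eb5f03_ag, block CYC -/

set_option autoImplicit false

namespace Pool.CubicTate

theorem p_CYC : S_CYC := by
  intro A _ h hfin htf C a haC hhC ha hdep
  set Z : Submodule ℤ A := Submodule.span ℤ {h} with hZ
  have memZ : ∀ x : A, x ∈ Z ↔ ∃ k : ℤ, x = k • h := by
    intro x
    rw [hZ, Submodule.mem_span_singleton]
    exact ⟨fun ⟨k, hk⟩ => ⟨k, hk.symm⟩, fun ⟨k, hk⟩ => ⟨k, hk.symm⟩⟩
  haveI : IsNoetherian ℤ A := isNoetherian_of_isNoetherianRing_of_finite ℤ A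
  haveI : IsNoetherian ℤ (A ⧸ Z) := inferInstance
  set CS : Submodule ℤ A := AddSubgroup.toIntSubmodule C with hCS
  set D : Submodule ℤ (A ⧸ Z) := CS.map Z.mkQ with hD
  haveI : Module.Finite ℤ D := Module.IsNoetherian.finite ℤ D
  have tf : ∀ (n : ℤ) (x : A ⧸ Z), n ≠ 0 → n • x = 0 → x = 0 := by
    intro n x hn hx
    obtain ⟨b, rfl⟩ := Submodule.Quotient.mk_surjective Z x
    rw [← Submodule.Quotient.mk_smul, Submodule.Quotient.mk_eq_zero, memZ] at hx
    obtain ⟨k, hk⟩ := hx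
    rw [Submodule.Quotient.mk_eq_zero, memZ]
    exact htf n k b hn hk
  haveI : Module.IsTorsionFree ℤ D := by
    refine ⟨?_⟩
    intro n hn x y hxy
    have hn0 : n ≠ 0 := by
      rintro rfl
      exact absurd (hn.left (show (0 : ℤ) * 1 = 0 * 0 by simp)) one_ne_zero
    have h1 : n • ((x : A ⧸ Z) - y) = 0 := by
      have : n • (x : A ⧸ Z) = n • (y : A ⧸ Z) := congrArg Subtype.val hxy
      rw [smul_sub, this, sub_self]
    have := tf n _ hn0 h1
    exact Subtype.ext (sub_eq_zero.mp this)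
  haveI : Module.Free ℤ D := Module.free_of_finite_type_torsion_free'
  let bs := Module.Free.chooseBasis ℤ D
  -- classes of elements of `C`
  have cl : ∀ b ∈ C, Z.mkQ b ∈ D := fun b hb => Submodule.mem_map_of_mem hb
  let aD : D := ⟨Z.mkQ a, cl a haC⟩
  have haD : aD ≠ 0 := by
    intro h0
    have h1 : Z.mkQ a = 0 := congrArg Subtype.val h0
    rw [Submodule.mkQ_apply, Submodule.Quotient.mk_eq_zero, memZ] at h1
    obtain ⟨k, hk⟩ := h1
    exact ha k hk
  have depD : ∀ x : D, ∃ n y : ℤ, n ≠ 0 ∧ n • x = y • aD := by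
    rintro ⟨x, hx⟩
    obtain ⟨b, hb, rfl⟩ := hx
    obtain ⟨n, y, z, hn, hb'⟩ := hdep b hb
    refine ⟨n, y, hn, Subtype.ext ?_⟩
    show n • Z.mkQ b = y • Z.mkQ a
    rw [← map_smul, hb', map_add, map_smul, map_smul]
    have : Z.mkQ h = 0 := by
      rw [Submodule.mkQ_apply, Submodule.Quotient.mk_eq_zero, memZ]
      exact ⟨1, by simp⟩
    rw [this, smul_zero, add_zero]
  -- at most one basis vector
  have sub : Subsingleton (Module.Free.ChooseBasisIndex ℤ D) := by
    refine ⟨fun i j => ?_⟩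
    by_contra hij
    obtain ⟨n, x, hn, hi⟩ := depD (bs i)
    obtain ⟨n', x', hn', hj⟩ := depD (bs j)
    have h1 : (x' * n) • bs i = (x * n') • bs j := by
      rw [mul_smul, hi, mul_smul, hj, smul_smul, smul_smul, mul_comm]
    have h2 := congrArg (fun v => bs.repr v i) h1
    simp [Finsupp.single_apply, Ne.symm hij, hij] at h2
    have hx' : x' = 0 := by
      rcases h2 with h2 | h2
      · exact h2
      · exact absurd h2 hn
    rw [hx', zero_smul] at hj
    have h3 := congrArg (fun v => bs.repr v j) hj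
    simp at h3
    exact hn' h3
  have ne : Nonempty (Module.Free.ChooseBasisIndex ℤ D) := by
    by_contra hne
    rw [not_nonempty_iff] at hne
    haveI := hne
    haveI : Subsingleton D := bs.repr.toEquiv.subsingleton
    exact haD (Subsingleton.elim _ _)
  obtain ⟨i₀⟩ := ne
  obtain ⟨e, he, heq⟩ := (bs i₀).2
  refine ⟨e, he, ?_⟩
  intro b hb
  haveI := sub
  have h1 : (⟨Z.mkQ b, cl b hb⟩ : D) = (bs.repr ⟨Z.mkQ b, cl b hb⟩ i₀) • bs i₀ := by
    conv_lhs => rw [← bs.sum_repr ⟨Z.mkQ b, cl b hb⟩]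
    rw [Fintype.sum_eq_single i₀ (fun j hj => absurd (Subsingleton.elim j i₀) hj)]
  set k : ℤ := bs.repr ⟨Z.mkQ b, cl b hb⟩ i₀ with hk
  have h2 : Z.mkQ b = k • Z.mkQ e := by
    have := congrArg Subtype.val h1
    rw [heq]
    exact this
  have h3 : b - k • e ∈ Z := by
    rw [← Submodule.Quotient.mk_eq_zero, ← Submodule.mkQ_apply, map_sub, map_smul, h2, sub_self]
  rw [memZ] at h3
  obtain ⟨j, hj⟩ := h3
  exact ⟨k, j, by rw [← hj]; abel⟩

end Pool.CubicTate
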