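import Pool.Agent.Work.MP_eb5f03_ct.Interface

/-! # Block DIV: the division by `p` modulo `h` stops -/

set_option autoImplicit false

namespace Pool.CubicTate

theorem p_DIV : S_DIV := by
  intro p A _ h hp hfin hprim a ha
  by_contra hno
  have hall : ∀ k : ℕ, ∃ (b : A) (m : ℤ), a = ((p : ℤ) ^ k) • b + m • h := by
    intro k
    induction k with
    | zero => exact ⟨a, 0, by simp⟩
    | succ k ih =>
      obtain ⟨b, m, hb⟩ := ih
      by_cases h1 : ∀ j : ℤ, b ≠ j • h
      · by_cases h2 : ∀ (b' : A) (m' : ℤ), b ≠ (p : ℤ) • b' + m' • h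
        · exact absurd ⟨k, b, m, hb, h1, h2⟩ hno
        · push Not at h2
          obtain ⟨b', m', hb'⟩ := h2
          refine ⟨b', (p : ℤ) ^ k * m' + m, ?_⟩
          rw [hb, hb', smul_add, smul_smul, smul_smul, ← pow_succ, add_smul, add_assoc]
      · push Not at h1
        obtain ⟨j, hj⟩ := h1
        refine absurd ?_ (ha ((p : ℤ) ^ k * j + m))
        rw [hb, hj, smul_smul, add_smul]
  -- the chain of cyclic subgroups modulo `h`
  choose b m hbm using hall
  have hstep : ∀ k : ℕ, ∃ j : ℤ, b k = (p : ℤ) • b (k + 1) + j • h := by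
    intro k
    have hpk : ((p : ℤ) ^ k) ≠ 0 := pow_ne_zero _ (by exact_mod_cast hp.ne_zero)
    have h1 : ((p : ℤ) ^ k) • (b k - (p : ℤ) • b (k + 1)) = (m (k + 1) - m k) • h := by
      have e1 := hbm k
      have e2 := hbm (k + 1)
      rw [smul_sub, smul_smul, ← pow_succ, sub_smul]
      have e3 : ((p : ℤ) ^ k) • b k = a - m k • h := by rw [eq_sub_iff_add_eq]; exact e1.symm
      have e4 : ((p : ℤ) ^ (k + 1)) • b (k + 1) = a - m (k + 1) • h := by
        rw [eq_sub_iff_add_eq]; exact e2.symm
      rw [e3, e4]; abel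
    obtain ⟨j, hj⟩ := hprim _ _ _ hpk h1
    exact ⟨j, by rw [← hj]; abel⟩
  have : IsNoetherian ℤ A := isNoetherian_of_isNoetherianRing_of_finite ℤ A
  let F : ℕ →o Submodule ℤ A :=
    { toFun := fun k => Submodule.span ℤ {b k, h}
      monotone' := by
        apply monotone_nat_of_le_succ
        intro k
        rw [Submodule.span_le]
        intro x hx
        rcases hx with hx | hx
        · obtain ⟨j, hj⟩ := hstep k
          rw [hx, hj]
          exact Submodule.add_mem _ (Submodule.smul_mem _ _ (Submodule.subset_span (by simp)))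
            (Submodule.smul_mem _ _ (Submodule.subset_span (by simp)))
        · rw [hx]
          exact Submodule.subset_span (by simp) }
  obtain ⟨n, hn⟩ := monotone_stabilizes_iff_noetherian.2 this F
  have hmem : b (n + 1) ∈ F n := by
    rw [hn (n + 1) (Nat.le_succ n)]
    exact Submodule.subset_span (by simp)
  obtain ⟨c, d, hcd⟩ := Submodule.mem_span_pair.1 hmem
  obtain ⟨j, hj⟩ := hstep n
  -- `(c p - 1) b (n+1)` lies in `ℤ h`
  have h2 : (1 - c * (p : ℤ)) • b (n + 1) = (c * j + d) • h := by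
    rw [sub_smul, one_smul, add_smul]
    have : b (n + 1) = (c * (p : ℤ)) • b (n + 1) + ((c * j) • h + d • h) := by
      conv_lhs => rw [← hcd, hj, smul_add, smul_smul, smul_smul]
      rw [add_assoc]
    rw [sub_eq_iff_eq_add]
    exact this.trans (add_comm _ _)
  have h3 : (1 - c * (p : ℤ)) ≠ 0 := by
    intro h0
    have h4 : (p : ℤ) ∣ 1 := ⟨c, by linarith⟩
    have h5 : (p : ℤ) = 1 := Int.eq_one_of_dvd_one (by positivity) h4
    exact hp.one_lt.ne' (by exact_mod_cast h5)
  obtain ⟨k, hk⟩ := hprim _ _ _ h3 h2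
  refine ha ((p : ℤ) ^ (n + 1) * k + m (n + 1)) ?_
  rw [hbm (n + 1)]
  rw [hk, smul_smul, add_smul]

end Pool.CubicTate
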