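import Pool.Agent.Work.MP_eb5f03_ct.Interface

/-!
# Block EST: differences of truncations
-/

set_option autoImplicit false

namespace Pool.CubicTate

/-- The truncation as a sum over multi-indices. -/
theorem EST_trunc (p : ℕ) [Fact p.Prime] (f : (Fin 20 → ℕ) → Om p) (t : Fin 20 → Om p)
    (N M : ℕ) (hNM : N ≤ M) :
    trunc p f N t = ∑ α ∈ (Fintype.piFinset fun _ : Fin 20 => Finset.range M).filter
      (fun α => ∑ i, α i < N), f α * ∏ i, t i ^ α i := by
  unfold trunc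
  refine Finset.sum_nbij (fun α i => (α i : ℕ)) ?_ ?_ ?_ ?_
  · intro α hα
    rw [Finset.mem_filter] at hα
    rw [Finset.mem_filter, Fintype.mem_piFinset]
    refine ⟨fun i => ?_, hα.2⟩
    exact Finset.mem_range.2 (lt_of_lt_of_le (α i).isLt hNM)
  · intro α _ β _ h
    funext i
    exact Fin.ext (congrFun h i)
  · intro β hβ
    rw [Finset.mem_coe, Finset.mem_filter] at hβ
    have h1 : ∀ i, β i < N := fun i =>
      lt_of_le_of_lt (Finset.single_le_sum (f := β) (fun _ _ => Nat.zero_le _)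
        (Finset.mem_univ i)) hβ.2
    refine ⟨fun i => ⟨β i, h1 i⟩, ?_, rfl⟩
    rw [Finset.mem_coe, Finset.mem_filter]
    exact ⟨Finset.mem_univ _, hβ.2⟩
  · intro α _
    rfl

/-- The norm of a monomial. -/
theorem EST_term (p : ℕ) [Fact p.Prime] (f : (Fin 20 → ℕ) → Om p) (t : Fin 20 → Om p)
    (hf : ∀ α, ‖f α‖ ≤ 1) (ht : ‖t‖ ≤ 1) (N : ℕ) (α : Fin 20 → ℕ) (hα : N ≤ ∑ i, α i) :
    ‖f α * ∏ i, t i ^ α i‖ ≤ ‖t‖ ^ N := by
  rw [norm_mul, norm_prod]
  have h1 : ∏ i, ‖t i ^ α i‖ ≤ ∏ i, ‖t‖ ^ α i := by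
    refine Finset.prod_le_prod (fun i _ => norm_nonneg _) fun i _ => ?_
    rw [norm_pow]
    exact pow_le_pow_left₀ (norm_nonneg _) (norm_le_pi_norm t i) _
  rw [Finset.prod_pow_eq_pow_sum] at h1
  have h2 : ‖t‖ ^ (∑ i, α i) ≤ ‖t‖ ^ N := pow_le_pow_of_le_one (norm_nonneg _) ht hα
  calc ‖f α‖ * ∏ i, ‖t i ^ α i‖ ≤ 1 * ‖t‖ ^ N :=
        mul_le_mul (hf α) (h1.trans h2) (Finset.prod_nonneg fun i _ => norm_nonneg _) zero_le_one
    _ = ‖t‖ ^ N := one_mul _

/-- **EST.** Differences of truncations. -/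
theorem p_EST : S_EST := by
  classical
  intro p _ f t hf ht N M hNM
  rw [EST_trunc p f t M M le_rfl, EST_trunc p f t N M hNM, ← Finset.sum_sdiff_eq_sub]
  · refine IsUltrametricDist.norm_sum_le_of_forall_le_of_nonneg (by positivity) fun α hα => ?_
    rw [Finset.mem_sdiff, Finset.mem_filter, Finset.mem_filter, not_and] at hα
    exact EST_term p f t hf ht N α (not_lt.1 (hα.2 hα.1.1))
  · intro α hα
    rw [Finset.mem_filter] at hα ⊢
    exact ⟨hα.1, lt_of_lt_of_le hα.2 hNM⟩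

end Pool.CubicTate
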