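import Pool.Agent.Work.MP_eb5f03_ct.Interface

set_option autoImplicit false

namespace Pool.CubicTate

theorem FIN_class (h1 : S_LFT) (h2 : S_MOD) (h3 : S_DIV) (p : ℕ) [Fact p.Prime] (hp5 : p ≠ 2)
    (S : ProperSchemes p) (r : ℕ) (hr : 0 < r) (A H3 H2 : Type) [AddCommGroup A]
    [AddCommGroup H3] [AddCommGroup H2] (X : CubicFourfold S r A H3 H2) (a : A)
    (ha : X.phi a = a) : ∃ k : ℕ, (p ^ k) • a ∈ X.im 1 := by
  classical
  have hp : p.Prime := Fact.out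
  have hp0 : (p : ℤ) ≠ 0 := by exact_mod_cast hp.ne_zero
  by_cases hah : ∃ k : ℤ, a = k • X.h
  · obtain ⟨k, rfl⟩ := hah
    refine ⟨0, ?_⟩
    rw [pow_zero, one_smul]
    exact AddSubgroup.zsmul_mem _ X.h_im k
  · have hah' : ∀ k : ℤ, a ≠ k • X.h := fun k hk => hah ⟨k, hk⟩
    obtain ⟨k, b, j, hab, hbh, hb3⟩ := h3 p A X.h hp X.fg X.h_prim a hah'
    have hb : X.phi b = b := by
      have e1 : X.phi a = ((p : ℤ) ^ k) • X.phi b + j • X.h := by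
        rw [hab, map_add, map_zsmul, map_zsmul, X.phi_h]
      rw [ha] at e1
      have e2 : ((p : ℤ) ^ k) • (X.phi b - b) = 0 := by
        rw [smul_sub, sub_eq_zero]
        have e3 : ((p : ℤ) ^ k) • X.phi b + j • X.h = ((p : ℤ) ^ k) • b + j • X.h := by
          rw [← e1, ← hab]
        exact add_right_cancel e3
      exact sub_eq_zero.1 (X.tf _ _ (pow_ne_zero _ hp0) e2)
    obtain ⟨m₀, hm₀⟩ := X.lang_weil
    obtain ⟨g, hg⟩ := Int.subgroup_cyclic ((X.im 1).comap ((zmultiplesHom A) b))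
    have hmem : ∀ n : ℤ, n • b ∈ X.im 1 ↔ ∃ c : ℤ, c • g = n := by
      intro n
      rw [← AddSubgroup.mem_closure_singleton, ← hg, AddSubgroup.mem_comap]
      rfl
    have hgd : ∀ n : ℤ, n • b ∈ X.im 1 → g ∣ n := by
      intro n hn
      obtain ⟨c, hc⟩ := (hmem n).1 hn
      exact ⟨c, by rw [← hc, smul_eq_mul, mul_comm]⟩
    have hmm : ∀ m : ℕ, m₀ ≤ m → 0 < m → ∃ l : ℕ, g ∣ (p : ℤ) ^ l * (m : ℤ) := by
      intro m hm hm0
      obtain ⟨K, t, hl, hv, hC⟩ := h1 p hp5 S r hr A H3 H2 X b hb hb3 m hm0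
      exact h2 p S r hr A H3 H2 X b m K t hb hbh hl (hm₀ m hm) hv hC g hgd
    obtain ⟨l₁, hl₁⟩ := hmm (m₀ + 1) (by omega) (by omega)
    obtain ⟨l₂, hl₂⟩ := hmm (m₀ + 2) (by omega) (by omega)
    have hd : g ∣ (p : ℤ) ^ (l₁ + l₂) := by
      have d1 : g ∣ (p : ℤ) ^ (l₁ + l₂) * ((m₀ + 1 : ℕ) : ℤ) := by
        have : (p : ℤ) ^ (l₁ + l₂) * ((m₀ + 1 : ℕ) : ℤ)
            = (p : ℤ) ^ l₂ * ((p : ℤ) ^ l₁ * ((m₀ + 1 : ℕ) : ℤ)) := by
          rw [pow_add]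
          ring
        rw [this]
        exact Dvd.dvd.mul_left hl₁ _
      have d2 : g ∣ (p : ℤ) ^ (l₁ + l₂) * ((m₀ + 2 : ℕ) : ℤ) := by
        have : (p : ℤ) ^ (l₁ + l₂) * ((m₀ + 2 : ℕ) : ℤ)
            = (p : ℤ) ^ l₁ * ((p : ℤ) ^ l₂ * ((m₀ + 2 : ℕ) : ℤ)) := by
          rw [pow_add]
          ring
        rw [this]
        exact Dvd.dvd.mul_left hl₂ _
      have d3 := dvd_sub d2 d1
      have : (p : ℤ) ^ (l₁ + l₂) * ((m₀ + 2 : ℕ) : ℤ) - (p : ℤ) ^ (l₁ + l₂) * ((m₀ + 1 : ℕ) : ℤ)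
          = (p : ℤ) ^ (l₁ + l₂) := by
        push_cast
        ring
      rwa [this] at d3
    have hpb : ((p : ℤ) ^ (l₁ + l₂)) • b ∈ X.im 1 := by
      obtain ⟨c, hc⟩ := hd
      exact (hmem _).2 ⟨c, by rw [hc, smul_eq_mul, mul_comm]⟩
    refine ⟨l₁ + l₂, ?_⟩
    have e : (p ^ (l₁ + l₂)) • a = ((p : ℤ) ^ k) • (((p : ℤ) ^ (l₁ + l₂)) • b)
        + ((p : ℤ) ^ (l₁ + l₂) * j) • X.h := by
      rw [← natCast_zsmul, Nat.cast_pow]
      conv_lhs => rw [hab]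
      rw [smul_add, smul_smul, smul_smul, smul_smul]
      congr 2
      ring
    rw [e]
    exact AddSubgroup.add_mem _ (AddSubgroup.zsmul_mem _ hpb _)
      (AddSubgroup.zsmul_mem _ X.h_im _)

theorem p_FIN (h1 : S_LFT) (h2 : S_MOD) (h3 : S_DIV) : S_FIN := by
  classical
  intro p _ hp5 S r hr A H3 H2 _ _ _ X
  have hp : p.Prime := Fact.out
  have hA := FIN_class h1 h2 h3 p hp5 S r hr A H3 H2 X
  have hH3 : ∀ x : H3, x = 0 := by
    intro x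
    obtain ⟨a, ha, hx⟩ := X.ctk_fixed x
    obtain ⟨k, hk⟩ := hA a ha
    have e1 : (p ^ k) • x = 0 := by
      apply X.ctk_inj
      rw [map_zero, map_nsmul, hx, ← QuotientAddGroup.mk_nsmul]
      exact (QuotientAddGroup.eq_zero_iff _).2 hk
    obtain ⟨n, hn, hnx⟩ := X.H3_tors x
    have d1 := addOrderOf_dvd_of_nsmul_eq_zero e1
    have d2 := addOrderOf_dvd_of_nsmul_eq_zero hnx
    have hcop : Nat.Coprime (p ^ k) n := Nat.Coprime.pow_left k ((Nat.Prime.coprime_iff_not_dvd hp).2 hn)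
    have d3 : addOrderOf x ∣ 1 := by
      have := Nat.dvd_gcd d1 d2
      rwa [Nat.Coprime.gcd_eq_one hcop] at this
    exact AddMonoid.addOrderOf_eq_one_iff.1 (Nat.dvd_one.1 d3)
  refine ⟨hA, hH3, ?_⟩
  intro x
  apply X.ms_inj
  rw [map_zero]
  exact hH3 _

end Pool.CubicTate
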