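import Pool.Agent.Work.MP_eb5f03_ct.Interface

set_option autoImplicit false

namespace Pool.CubicTate

theorem LIM_sub (p : ℕ) [Fact p.Prime] (a b : Om p) : ‖a - b‖ ≤ max ‖a‖ ‖b‖ := by
  have h := IsUltrametricDist.norm_add_le_max a (-b)
  rwa [norm_neg, ← sub_eq_add_neg] at h

theorem LIM_cont (p : ℕ) [Fact p.Prime] (f : (Fin 20 → ℕ) → Om p) (N : ℕ) :
    Continuous fun t : Fin 20 → Om p => trunc p f N t := by
  unfold trunc
  refine continuous_finsetSum _ fun α _ => continuous_const.mul ?_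
  exact continuous_finsetProd _ fun i _ => (continuous_apply i).pow _

/-- the closed balls of a finite extension of `ℚ_p` are compact in the algebraic closure -/
theorem LIM_ball (p : ℕ) [Fact p.Prime] (K : Fld p) (hK : IsFin p K) (ρ : ℝ) :
    IsCompact {x : Om p | x ∈ K ∧ ‖x‖ ≤ ρ} := by
  let W : Submodule ℚ_[p] (Om p) := K.toSubalgebra.toSubmodule
  have _ : FiniteDimensional ℚ_[p] W := hK
  have _ : ProperSpace W := FiniteDimensional.proper ℚ_[p] W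
  have h1 : IsCompact (Metric.closedBall (0 : W) ρ) := isCompact_closedBall _ _
  have h2 := h1.image (continuous_subtype_val : Continuous (fun y : W => (y : Om p)))
  have h3 : {x : Om p | x ∈ K ∧ ‖x‖ ≤ ρ} = (fun y : W => (y : Om p)) '' (Metric.closedBall (0 : W) ρ) := by
    ext x
    constructor
    · rintro ⟨hx, hn⟩
      refine ⟨⟨x, hx⟩, ?_, rfl⟩
      rw [mem_closedBall_zero_iff]
      exact hn
    · rintro ⟨y, hy, rfl⟩
      rw [mem_closedBall_zero_iff] at hy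
      exact ⟨y.2, hy⟩
  rw [h3]
  exact h2

theorem LIM_cube (p : ℕ) [Fact p.Prime] (K : Fld p) (hK : IsFin p K) (ρ : ℝ) (hρ : 0 ≤ ρ) :
    IsCompact {t : Fin 20 → Om p | (∀ i, t i ∈ K) ∧ ‖t‖ ≤ ρ} := by
  have h := isCompact_univ_pi (ι := Fin 20) fun _ => LIM_ball p K hK ρ
  have h3 : {t : Fin 20 → Om p | (∀ i, t i ∈ K) ∧ ‖t‖ ≤ ρ} =
      Set.pi Set.univ fun _ : Fin 20 => {x : Om p | x ∈ K ∧ ‖x‖ ≤ ρ} := by
    ext t
    constructor
    · rintro ⟨h1, h2⟩ i _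
      exact ⟨h1 i, (norm_le_pi_norm t i).trans h2⟩
    · intro ht
      refine ⟨fun i => (ht i trivial).1, ?_⟩
      rw [pi_norm_le_iff_of_nonneg hρ]
      exact fun i => (ht i trivial).2
  rw [h3]
  exact h

theorem p_LIM (hEST : S_EST) : S_LIM := by
  intro p _ K hK f ρ hρ hρ1 hf happ
  choose t ht using happ
  have hcomp := LIM_cube p K hK ρ hρ.le
  obtain ⟨u, hu, φ, hφ, hlim⟩ := hcomp.tendsto_subseq (x := t) fun N => ⟨(ht N).1, (ht N).2.1⟩
  refine ⟨u, hu.1, hu.2, ?_⟩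
  -- the truncations of the limit
  have key : ∀ N : ℕ, ‖trunc p f N u‖ ≤ ρ ^ N := by
    intro N₀
    have hc : Filter.Tendsto (fun n => ‖trunc p f N₀ (t (φ n))‖) Filter.atTop
        (nhds ‖trunc p f N₀ u‖) :=
      ((LIM_cont p f N₀).norm.tendsto u).comp hlim
    refine le_of_tendsto hc ?_
    filter_upwards [Filter.eventually_ge_atTop N₀] with n hn
    have hN : N₀ ≤ φ n := hn.trans (hφ.id_le n)
    have ht1 : ‖t (φ n)‖ ≤ 1 := (ht (φ n)).2.1.trans hρ1.le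
    have h1 := hEST p f (t (φ n)) hf ht1 N₀ (φ n) hN
    have h2 : ‖t (φ n)‖ ^ N₀ ≤ ρ ^ N₀ := pow_le_pow_left₀ (norm_nonneg _) (ht (φ n)).2.1 _
    have h3 : ‖trunc p f (φ n) (t (φ n))‖ ≤ ρ ^ N₀ :=
      (ht (φ n)).2.2.trans (pow_le_pow_of_le_one hρ.le hρ1.le hN)
    have h4 : trunc p f N₀ (t (φ n)) = trunc p f (φ n) (t (φ n)) -
        (trunc p f (φ n) (t (φ n)) - trunc p f N₀ (t (φ n))) := by ring
    rw [h4]
    refine (LIM_sub p _ _).trans ?_
    exact max_le h3 (h1.trans h2)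
  intro N₀
  have hu1 : ‖u‖ ≤ 1 := hu.2.trans hρ1.le
  have hb : ∀ N : ℕ, N₀ ≤ N → ‖trunc p f N₀ u‖ ≤ max (ρ ^ N) (‖u‖ ^ N₀) := by
    intro N hN
    have h1 := hEST p f u hf hu1 N₀ N hN
    have h4 : trunc p f N₀ u = trunc p f N u - (trunc p f N u - trunc p f N₀ u) := by ring
    calc ‖trunc p f N₀ u‖ = ‖trunc p f N u - (trunc p f N u - trunc p f N₀ u)‖ := by rw [← h4]
      _ ≤ max ‖trunc p f N u‖ ‖trunc p f N u - trunc p f N₀ u‖ :=
        LIM_sub p _ _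
      _ ≤ max (ρ ^ N) (‖u‖ ^ N₀) := max_le_max (key N) h1
  have hlim2 : Filter.Tendsto (fun N : ℕ => max (ρ ^ N) (‖u‖ ^ N₀)) Filter.atTop
      (nhds (max 0 (‖u‖ ^ N₀))) :=
    (tendsto_pow_atTop_nhds_zero_of_lt_one hρ.le hρ1).max tendsto_const_nhds
  have h5 : ‖trunc p f N₀ u‖ ≤ max 0 (‖u‖ ^ N₀) :=
    ge_of_tendsto hlim2 (by
      filter_upwards [Filter.eventually_ge_atTop N₀] with N hN
      exact hb N hN)
  rwa [max_eq_right (pow_nonneg (norm_nonneg _) _)] at h5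

end Pool.CubicTate
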