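import Pool.Agent.Work.MP_eb5f03_ct.Interface

/-!
# Block LIN: a linear coefficient is a unit
-/

set_option autoImplicit false

namespace Pool.CubicTate

open Polynomial in
theorem p_LIN (hNEW : S_NEW) : S_LIN := by
  classical
  intro p _ K f ρ hρ hρ1 hfK hf1 hf0 ⟨i, hi⟩ N
  obtain rfl | rfl | ⟨M, rfl⟩ : N = 0 ∨ N = 1 ∨ ∃ M, N = M + 2 := by
    rcases N with _ | _ | M
    · exact Or.inl rfl
    · exact Or.inr (Or.inl rfl)
    · exact Or.inr (Or.inr ⟨M, rfl⟩)
  · refine ⟨0, fun _ => zero_mem _, by rw [norm_zero]; exact hρ.le, ?_⟩
    have e : trunc p f 0 0 = 0 := by
      unfold trunc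
      apply Finset.sum_eq_zero
      intro α hα
      exact (α 0).elim0
    rw [e, norm_zero]
    positivity
  · refine ⟨0, fun _ => zero_mem _, by rw [norm_zero]; exact hρ.le, ?_⟩
    have e : trunc p f 1 0 = f 0 := by
      unfold trunc
      have e1 : (Finset.univ : Finset (Fin 20 → Fin 1)).filter (fun α => ∑ i, (α i : ℕ) < 1) =
          {0} := by
        ext α
        rw [Finset.mem_filter, Finset.mem_singleton]
        constructor
        · intro _
          exact Subsingleton.elim _ _
        · rintro rfl
          exact ⟨Finset.mem_univ _, by simp⟩
      rw [e1, Finset.sum_singleton]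
      have e2 : (fun j : Fin 20 => (((0 : Fin 20 → Fin 1) j : Fin 1) : ℕ)) = 0 := by
        funext j
        simp
      rw [e2]
      simp
    rw [e, pow_one]
    exact hf0
  · set N : ℕ := M + 2 with hN
    set q : Polynomial K := ∑ n ∈ Finset.range N,
      monomial n (⟨f (Pi.single i n), hfK _⟩ : K) with hq
    have hcoeff : ∀ m, q.coeff m = if m < N then (⟨f (Pi.single i m), hfK _⟩ : K) else 0 := by
      intro m
      rw [hq, finset_sum_coeff]
      simp only [coeff_monomial]
      by_cases hm : m < N
      · rw [if_pos hm, Finset.sum_eq_single m]
        · rw [if_pos rfl]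
        · intro b _ hb
          rw [if_neg hb]
        · intro h
          exact absurd (Finset.mem_range.mpr hm) h
      · rw [if_neg hm]
        apply Finset.sum_eq_zero
        intro b hb
        rw [Finset.mem_range] at hb
        rw [if_neg]
        omega
    have h0 : ((q.coeff 0 : K) : Om p) = f 0 := by
      rw [hcoeff 0, if_pos (by omega)]
      change f (Pi.single i 0) = f 0
      rw [Pi.single_zero]
    have h1 : ((q.coeff 1 : K) : Om p) = f (Pi.single i 1) := by
      rw [hcoeff 1, if_pos (by omega)]
    obtain ⟨x, hx1, hx2⟩ := hNEW p K q (by
        intro n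
        rw [hcoeff n]
        by_cases hn : n < N
        · rw [if_pos hn]
          exact hf1 _
        · rw [if_neg hn]
          change ‖((0 : K) : Om p)‖ ≤ 1
          rw [ZeroMemClass.coe_zero, norm_zero]
          exact zero_le_one) (by rw [h0]; exact hf0.trans_lt hρ1) (by rw [h1]; exact hi)
      (ρ ^ N) (by positivity)
    rw [h0] at hx1
    refine ⟨Pi.single i (x : Om p), ?_, ?_, ?_⟩
    · intro j
      by_cases hj : j = i
      · subst hj
        rw [Pi.single_eq_same]
        exact x.2
      · rw [Pi.single_eq_of_ne hj]
        exact zero_mem _
    · rw [pi_norm_le_iff_of_nonneg hρ.le]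
      intro j
      by_cases hj : j = i
      · subst hj
        rw [Pi.single_eq_same]
        exact hx1.trans hf0
      · rw [Pi.single_eq_of_ne hj, norm_zero]
        exact hρ.le
    · have hev : trunc p f N (Pi.single i (x : Om p)) = ((q.eval x : K) : Om p) := by
        have e1 : ((q.eval x : K) : Om p) = ∑ n : Fin N, f (Pi.single i (n : ℕ)) *
            (x : Om p) ^ (n : ℕ) := by
          rw [hq, eval_finset_sum]
          simp only [eval_monomial]
          rw [← Fin.sum_univ_eq_sum_range (fun n => (⟨f (Pi.single i n), hfK _⟩ : K) * x ^ n) N]
          push_cast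
          rfl
        rw [e1]
        unfold trunc
        symm
        apply Finset.sum_of_injOn (fun n : Fin N => (Pi.single i n : Fin 20 → Fin N))
        · intro a _ b _ hab
          exact Pi.single_injective i hab
        · intro a _
          simp only [Finset.coe_filter, Finset.mem_univ, true_and, Set.mem_setOf_eq]
          rw [Finset.sum_eq_single i]
          · rw [Pi.single_eq_same]
            exact a.2
          · intro j _ hj
            rw [Pi.single_eq_of_ne hj]
            rfl
          · intro h
            exact absurd (Finset.mem_univ i) h
        · intro α _ hα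
          obtain ⟨j, hji, hj⟩ : ∃ j, j ≠ i ∧ α j ≠ 0 := by
            by_contra hcon
            push Not at hcon
            apply hα
            refine ⟨α i, Finset.mem_coe.mpr (Finset.mem_univ _), ?_⟩
            funext j
            by_cases hj : j = i
            · subst hj
              simp
            · simp only [Pi.single_eq_of_ne hj]
              exact (hcon j hj).symm
          have e2 : ∏ l, (Pi.single i (x : Om p) : Fin 20 → Om p) l ^ (α l : ℕ) = 0 := by
            apply Finset.prod_eq_zero (Finset.mem_univ j)
            rw [Pi.single_eq_of_ne hji, zero_pow]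
            intro h
            apply hj
            exact Fin.ext (by simpa using h)
          rw [e2, mul_zero]
        · intro n _
          have e3 : (fun j : Fin 20 => (((Pi.single i n : Fin 20 → Fin N) j : Fin N) : ℕ)) =
              Pi.single i (n : ℕ) := by
            funext j
            by_cases hj : j = i
            · subst hj
              simp
            · rw [Pi.single_eq_of_ne hj, Pi.single_eq_of_ne hj]
              rfl
          rw [e3]
          congr 1
          rw [Finset.prod_eq_single i]
          · rw [Pi.single_eq_same, Pi.single_eq_same]
          · intro j _ hj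
            have : ((Pi.single i n : Fin 20 → Fin N) j) = 0 := Pi.single_eq_of_ne hj _
            rw [this]
            simp
          · intro h
            exact absurd (Finset.mem_univ i) h
      rw [hev]
      exact hx2

end Pool.CubicTate
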