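import Pool.Agent.Work.MP_eb5f03_ct.Interface

set_option autoImplicit false

namespace Pool.CubicTate

/-- The ring of the elements of norm at most one. -/
def NEW_O (p : ℕ) [Fact p.Prime] (K : Fld p) : Subring K where
  carrier := {x | ‖(x : Om p)‖ ≤ 1}
  mul_mem' := by
    intro a b ha hb
    simp only [Set.mem_ofPred_eq] at *
    rw [IntermediateField.coe_mul, norm_mul]
    exact mul_le_one₀ ha (norm_nonneg _) hb
  one_mem' := by
    simp only [Set.mem_ofPred_eq]
    rw [IntermediateField.coe_one, norm_one]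
  add_mem' := by
    intro a b ha hb
    simp only [Set.mem_ofPred_eq] at *
    rw [IntermediateField.coe_add]
    exact (PadicAlgCl.isNonarchimedean p _ _).trans (max_le ha hb)
  zero_mem' := by
    simp only [Set.mem_ofPred_eq]
    rw [IntermediateField.coe_zero, norm_zero]
    exact zero_le_one
  neg_mem' := by
    intro a ha
    simp only [Set.mem_ofPred_eq] at *
    rw [IntermediateField.coe_neg, norm_neg]
    exact ha

theorem NEW_step (p : ℕ) [Fact p.Prime] (K : Fld p) (q : Polynomial K)
    (hq : ∀ n, ‖((q.coeff n : K) : Om p)‖ ≤ 1) (x y : K) (hx : ‖(x : Om p)‖ ≤ 1)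
    (hy : ‖(y : Om p)‖ ≤ 1) :
    ∃ k l : K, ‖(k : Om p)‖ ≤ 1 ∧ ‖(l : Om p)‖ ≤ 1 ∧
      q.eval (x + y) = q.eval x + q.derivative.eval x * y + k * y ^ 2 ∧
      q.derivative.eval x - q.coeff 1 = l * x := by
  classical
  have hT : (↑q.coeffs : Set K) ⊆ NEW_O p K := by
    intro a ha
    have ha' : a ∈ q.coeffs := ha
    rw [Polynomial.mem_coeffs_iff] at ha'
    obtain ⟨n, -, rfl⟩ := ha'
    exact hq n
  set Q : Polynomial (NEW_O p K) := q.toSubring (NEW_O p K) hT with hQ
  have hmap : Q.map (NEW_O p K).subtype = q := Polynomial.map_toSubring q (NEW_O p K) hT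
  have hev : ∀ a : NEW_O p K, q.eval (a : K) = ((Q.eval a : NEW_O p K) : K) := by
    intro a
    rw [← hmap, Polynomial.eval_map]
    exact Polynomial.eval₂_at_apply (NEW_O p K).subtype a
  have hder : ∀ a : NEW_O p K,
      q.derivative.eval (a : K) = ((Q.derivative.eval a : NEW_O p K) : K) := by
    intro a
    rw [← hmap, Polynomial.derivative_map, Polynomial.eval_map]
    exact Polynomial.eval₂_at_apply (NEW_O p K).subtype a
  let a : NEW_O p K := ⟨x, hx⟩
  let b : NEW_O p K := ⟨y, hy⟩
  obtain ⟨k, hk⟩ := Polynomial.binomExpansion Q a b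
  obtain ⟨l, hl⟩ := Polynomial.evalSubFactor Q.derivative a 0
  refine ⟨(k : K), (l : K), k.2, l.2, ?_, ?_⟩
  · have h1 := congrArg (fun z : NEW_O p K => (z : K)) hk
    simp only [Subring.coe_add, Subring.coe_mul, Subring.coe_pow] at h1
    rw [← hev a, ← hder a, ← hev (a + b)] at h1
    exact h1
  · have h1 := congrArg (fun z : NEW_O p K => (z : K)) hl
    simp only [AddSubgroupClass.coe_sub, Subring.coe_mul, sub_zero] at h1
    rw [← hder a, ← hder 0] at h1
    have h0 : Polynomial.eval ((0 : NEW_O p K) : K) (Polynomial.derivative q) = q.coeff 1 := by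
      rw [Subring.coe_zero, ← Polynomial.coeff_zero_eq_eval_zero, Polynomial.coeff_derivative]
      simp
    rw [h0] at h1
    exact h1

theorem p_NEW : S_NEW := by
  intro p _ K q hq h0 h1 ε hε
  set δ : ℝ := ‖((q.coeff 0 : K) : Om p)‖ with hδ
  have hδ0 : 0 ≤ δ := norm_nonneg _
  have hδ1 : δ ≤ 1 := h0.le
  have hu0 : (q.coeff 1 : K) ≠ 0 := by
    intro h
    rw [h, IntermediateField.coe_zero, norm_zero] at h1
    exact zero_ne_one h1
  have key : ∀ n : ℕ, ∃ x : K, ‖(x : Om p)‖ ≤ δ ∧ ‖((q.eval x : K) : Om p)‖ ≤ δ ^ (n + 1) := by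
    intro n
    induction n with
    | zero =>
      refine ⟨0, ?_, ?_⟩
      · rw [IntermediateField.coe_zero, norm_zero]
        exact hδ0
      · rw [← Polynomial.coeff_zero_eq_eval_zero, zero_add, pow_one]
    | succ n ih =>
      obtain ⟨x, hx, hqx⟩ := ih
      have hpow : δ ^ (n + 1) ≤ δ := by
        have := pow_le_pow_of_le_one hδ0 hδ1 (Nat.succ_le_succ (Nat.zero_le n))
        simpa using this
      let y : K := -(q.eval x) / q.coeff 1
      have hyn : ‖(y : Om p)‖ ≤ δ ^ (n + 1) := by
        have : ‖(y : Om p)‖ = ‖((q.eval x : K) : Om p)‖ := by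
          change ‖((-(q.eval x) / q.coeff 1 : K) : Om p)‖ = _
          rw [IntermediateField.coe_div, norm_div, IntermediateField.coe_neg, norm_neg, h1, div_one]
        rw [this]
        exact hqx
      have hyδ : ‖(y : Om p)‖ ≤ δ := hyn.trans hpow
      obtain ⟨k, l, hk, hl, e1, e2⟩ := NEW_step p K q hq x y (hx.trans hδ1) (hyδ.trans hδ1)
      refine ⟨x + y, ?_, ?_⟩
      · rw [IntermediateField.coe_add]
        exact (PadicAlgCl.isNonarchimedean p _ _).trans (max_le hx hyδ)
      · have hy : q.coeff 1 * y = -(q.eval x) := by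
          change q.coeff 1 * (-(q.eval x) / q.coeff 1) = _
          field_simp
        have e3 : q.eval (x + y) = l * x * y + k * y ^ 2 := by
          have e4 : q.derivative.eval x = q.coeff 1 + l * x := by
            rw [← e2]
            ring
          rw [e1, e4]
          linear_combination hy
        rw [e3, IntermediateField.coe_add]
        refine (PadicAlgCl.isNonarchimedean p _ _).trans (max_le ?_ ?_)
        · rw [IntermediateField.coe_mul, IntermediateField.coe_mul, norm_mul, norm_mul]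
          calc ‖(l : Om p)‖ * ‖(x : Om p)‖ * ‖(y : Om p)‖ ≤ 1 * δ * δ ^ (n + 1) := by
                gcongr
            _ = δ ^ (n + 1 + 1) := by ring
        · rw [IntermediateField.coe_mul, IntermediateField.coe_pow, norm_mul, norm_pow]
          calc ‖(k : Om p)‖ * ‖(y : Om p)‖ ^ 2 ≤ 1 * (δ ^ (n + 1)) ^ 2 := by
                gcongr
            _ = δ ^ (n + 1) * δ ^ (n + 1) := by ring
            _ ≤ δ ^ (n + 1) * δ := by
                gcongr
            _ = δ ^ (n + 1 + 1) := by ring
  obtain ⟨n, hn⟩ := exists_pow_lt_of_lt_one hε h0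
  obtain ⟨x, hx, hqx⟩ := key n
  refine ⟨x, hx, hqx.trans (le_trans ?_ hn.le)⟩
  exact pow_le_pow_of_le_one hδ0 hδ1 (Nat.le_succ n)

end Pool.CubicTate
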