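import Pool.Agent.Work.MP_eb5f03_ct.Interface

set_option autoImplicit false

namespace Pool.CubicTate

theorem p_OPN : S_OPN := by
  intro p _ S K A _ h psi C J Q hact g s
  classical
  have hcl : IsClosed {s : Q.St | Q.gal g s = s} :=
    isClosed_eq (Q.gal_cont g) continuous_id
  have hop : IsOpen {s : Q.St | Q.gal g s = s} := by
    rw [isOpen_iff_mem_nhds]
    intro s hs
    have hs' : Q.gal g s = s := hs
    obtain ⟨U, hU, hinj⟩ := Q.Z_local s
    have hU' : Q.gal g ⁻¹' U ∈ nhds s := by
      apply (Q.gal_cont g).continuousAt.preimage_mem_nhds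
      rw [hs']
      exact hU
    filter_upwards [hU, hU'] with s' h1 h2
    refine hinj h2 h1 ?_
    funext x
    have := Q.Z_gal g s' x
    rw [hact] at this
    exact this
  have huniv : {s : Q.St | Q.gal g s = s} = Set.univ :=
    IsClopen.eq_univ ⟨hcl, hop⟩ ⟨Q.s0, Q.s0_gal g⟩
  have : s ∈ {s : Q.St | Q.gal g s = s} := by
    rw [huniv]; trivial
  exact this

end Pool.CubicTate
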