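import Pool.Agent.Work.MP_eb5f03_ct.Interface

/-!
# Block PAR: the form `x² - x y + y²` is anisotropic modulo `2`
-/

set_option autoImplicit false

namespace Pool.CubicTate

/-- raising the exponent -/
theorem PAR_mono (p : ℕ) (g a : ℤ) {k K : ℕ} (h : k ≤ K) (hg : g ∣ (p : ℤ) ^ k * a) :
    g ∣ (p : ℤ) ^ K * a := by
  obtain ⟨j, rfl⟩ := Nat.exists_eq_add_of_le h
  rw [pow_add, mul_assoc, mul_comm ((p : ℤ) ^ j), ← mul_assoc]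
  exact Dvd.dvd.mul_right hg _

/-- the values are large for large `x` -/
theorem PAR_large (c b₁ b₂ x y : ℤ) (hx : |b₁| + |b₂| + |c| + 3 ≤ x) (hy : y = 0 ∨ y = 1) :
    -1 ≤ c + b₁ * x + b₂ * y + x ^ 2 - x * y + y ^ 2 := by
  have h1 := neg_abs_le b₁
  have h2 := neg_abs_le b₂
  have h3 := neg_abs_le c
  have h4 := abs_nonneg b₁
  have h5 := abs_nonneg b₂
  have h6 := abs_nonneg c
  rcases hy with rfl | rfl
  · nlinarith [mul_nonneg (show (0 : ℤ) ≤ x by linarith) (show (0 : ℤ) ≤ x + b₁ - 1 by linarith)]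
  · nlinarith [mul_nonneg (show (0 : ℤ) ≤ x by linarith) (show (0 : ℤ) ≤ x + b₁ - 2 by linarith)]

/-- some large value is odd -/
theorem PAR_odd (c b₁ b₂ N : ℤ) (hN : 0 ≤ N) :
    ∃ x y w : ℤ, N ≤ x ∧ (y = 0 ∨ y = 1) ∧
      c + b₁ * x + b₂ * y + x ^ 2 - x * y + y ^ 2 + 2 = 2 * w + 1 := by
  rcases Int.even_or_odd' c with ⟨c', rfl | rfl⟩
  · rcases Int.even_or_odd' b₁ with ⟨u, rfl | rfl⟩
    · exact ⟨2 * N + 1, 0, c' + u * (2 * N + 1) + 2 * N ^ 2 + 2 * N + 1, by linarith, Or.inl rfl,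
        by ring⟩
    · rcases Int.even_or_odd' b₂ with ⟨v, rfl | rfl⟩
      · exact ⟨2 * N, 1, c' + (2 * u + 1) * N + v + 2 * N ^ 2 - N + 1, by linarith, Or.inr rfl,
          by ring⟩
      · exact ⟨2 * N + 1, 1, c' + u * (2 * N + 1) + N + v + 2 * N ^ 2 + N + 2, by linarith,
          Or.inr rfl, by ring⟩
  · exact ⟨2 * N, 0, c' + b₁ * N + 2 * N ^ 2 + 1, by linarith, Or.inl rfl, by ring⟩

theorem p_PAR : S_PAR := by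
  intro p c b₁ b₂ g m h
  have hN : 0 ≤ |b₁| + |b₂| + |c| + 3 := by positivity
  obtain ⟨N, hNd⟩ : ∃ N : ℤ, N = |b₁| + |b₂| + |c| + 3 := ⟨_, rfl⟩
  rw [← hNd] at hN
  have key : ∀ x y : ℤ, N ≤ x → (y = 0 ∨ y = 1) →
      ∃ k : ℕ, g ∣ (p : ℤ) ^ k * ((c + b₁ * x + b₂ * y + x ^ 2 - x * y + y ^ 2 + 2) * m) := by
    intro x y hx hy
    obtain ⟨k, hk⟩ := h x y (PAR_large c b₁ b₂ x y (by rw [← hNd]; exact hx) hy)
    exact ⟨k, by rw [← mul_assoc]; exact hk⟩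
  obtain ⟨x, y, w, hx, hy, hw⟩ := PAR_odd c b₁ b₂ N hN
  obtain ⟨k₁, h₁⟩ := key N 0 le_rfl (Or.inl rfl)
  obtain ⟨k₂, h₂⟩ := key (N + 1) 0 (by linarith) (Or.inl rfl)
  obtain ⟨k₃, h₃⟩ := key (N + 2) 0 (by linarith) (Or.inl rfl)
  obtain ⟨k₄, h₄⟩ := key x y hx hy
  have h₁' := PAR_mono p g _ (show k₁ ≤ k₁ + k₂ + k₃ + k₄ by omega) h₁
  have h₂' := PAR_mono p g _ (show k₂ ≤ k₁ + k₂ + k₃ + k₄ by omega) h₂
  have h₃' := PAR_mono p g _ (show k₃ ≤ k₁ + k₂ + k₃ + k₄ by omega) h₃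
  have h₄' := PAR_mono p g _ (show k₄ ≤ k₁ + k₂ + k₃ + k₄ by omega) h₄
  rw [hw] at h₄'
  refine ⟨k₁ + k₂ + k₃ + k₄, ?_⟩
  generalize (p : ℤ) ^ (k₁ + k₂ + k₃ + k₄) = P at h₁' h₂' h₃' h₄' ⊢
  have h2 : g ∣ 2 * (P * m) := by
    have h6 := dvd_add (dvd_sub h₁' (Dvd.dvd.mul_left h₂' 2)) h₃'
    have e : 2 * (P * m) = P * ((c + b₁ * N + b₂ * 0 + N ^ 2 - N * 0 + 0 ^ 2 + 2) * m) -
        2 * (P * ((c + b₁ * (N + 1) + b₂ * 0 + (N + 1) ^ 2 - (N + 1) * 0 + 0 ^ 2 + 2) * m)) +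
        P * ((c + b₁ * (N + 2) + b₂ * 0 + (N + 2) ^ 2 - (N + 2) * 0 + 0 ^ 2 + 2) * m) := by ring
    rw [e]
    exact h6
  have h5 := dvd_sub h₄' (Dvd.dvd.mul_left h2 w)
  have e : P * m = P * ((2 * w + 1) * m) - w * (2 * (P * m)) := by ring
  rw [e]
  exact h5

end Pool.CubicTate
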