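import Pool.Agent.Work.MP_eb5f03_ct.Interface

/-!
# Block QUA: the quadratic part is nondegenerate modulo `p`
-/

set_option autoImplicit false

namespace Pool.CubicTate

open Polynomial

/-! ### Multi-indices -/

theorem QUA_split (n : ℕ) (β : Fin 20 → ℕ) (h : ∑ i, β i = n + 1) :
    ∃ (a : Fin 20) (γ : Fin 20 → ℕ), β = Pi.single a 1 + γ ∧ ∑ i, γ i = n := by
  obtain ⟨a, ha⟩ : ∃ a, β a ≠ 0 := by
    by_contra hcon
    push Not at hcon
    rw [Finset.sum_eq_zero fun i _ => hcon i] at h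
    omega
  have he : β = Pi.single a 1 + (β - Pi.single a 1) := by
    funext i
    simp only [Pi.add_apply, Pi.sub_apply]
    by_cases hi : i = a
    · subst hi
      simp only [Pi.single_eq_same]
      omega
    · rw [Pi.single_eq_of_ne hi]
      omega
  obtain ⟨γ, hγ⟩ : ∃ γ : Fin 20 → ℕ, γ = β - Pi.single a 1 := ⟨_, rfl⟩
  rw [← hγ] at he
  refine ⟨a, γ, he, ?_⟩
  have h1 : ∑ i, β i = ∑ i, (Pi.single a 1 : Fin 20 → ℕ) i + ∑ i, γ i := by
    rw [← Finset.sum_add_distrib]
    exact Finset.sum_congr rfl fun i _ => congrFun he i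
  rw [Finset.sum_pi_single'] at h1
  simp only [Finset.mem_univ, if_true] at h1
  omega

theorem QUA_zero (β : Fin 20 → ℕ) (h : ∑ i, β i = 0) : β = 0 := by
  funext i
  have := (Finset.sum_eq_zero_iff (s := Finset.univ) (f := β)).1 h i (Finset.mem_univ i)
  exact this

theorem QUA_one (β : Fin 20 → ℕ) (h : ∑ i, β i = 1) : ∃ a, β = Pi.single a 1 := by
  obtain ⟨a, γ, h1, h2⟩ := QUA_split 0 β h
  refine ⟨a, ?_⟩
  rw [h1, QUA_zero γ h2, add_zero]

/-- the index `e_a + e_b` -/
def QUA_e (x : Fin 20 × Fin 20) : Fin 20 → ℕ := Pi.single x.1 1 + Pi.single x.2 1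

theorem QUA_two (β : Fin 20 → ℕ) (h : ∑ i, β i = 2) : ∃ a b, β = QUA_e (a, b) := by
  obtain ⟨a, γ, h1, h2⟩ := QUA_split 1 β h
  obtain ⟨b, h3⟩ := QUA_one γ h2
  exact ⟨a, b, by rw [h1, h3]; rfl⟩

theorem QUA_e_eq (a b c d : Fin 20) :
    QUA_e (a, b) = QUA_e (c, d) ↔ (a = c ∧ b = d) ∨ (a = d ∧ b = c) := by
  constructor
  · intro h
    have h' : ∀ i, (Pi.single a 1 : Fin 20 → ℕ) i + (Pi.single b 1 : Fin 20 → ℕ) i =
        (Pi.single c 1 : Fin 20 → ℕ) i + (Pi.single d 1 : Fin 20 → ℕ) i := fun i => congrFun h i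
    simp only [Pi.single_apply] at h'
    by_cases hac : a = c
    · left
      refine ⟨hac, ?_⟩
      subst hac
      have h1 := h' b
      by_contra hbd
      rw [if_pos rfl, if_neg hbd] at h1
      omega
    · right
      have h1 := h' a
      have had : a = d := by
        by_contra had
        rw [if_pos rfl, if_neg hac, if_neg had] at h1
        omega
      refine ⟨had, ?_⟩
      subst had
      have h2 := h' b
      by_contra hbc
      rw [if_pos rfl, if_neg hbc] at h2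
      omega
  · rintro (⟨rfl, rfl⟩ | ⟨rfl, rfl⟩)
    · rfl
    · exact add_comm _ _

theorem QUA_e_sum (x : Fin 20 × Fin 20) : ∑ i, QUA_e x i = 2 := by
  unfold QUA_e
  simp only [Pi.add_apply, Finset.sum_add_distrib, Finset.sum_pi_single', Finset.mem_univ, if_true]

theorem QUA_e_prod {R : Type} [CommRing R] (y : Fin 20 → R) (x : Fin 20 × Fin 20) :
    ∏ i, y i ^ QUA_e x i = y x.1 * y x.2 := by
  have h : ∀ a : Fin 20, ∏ i, y i ^ (Pi.single a 1 : Fin 20 → ℕ) i = y a := by
    intro a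
    rw [Finset.prod_eq_single a]
    · rw [Pi.single_eq_same, pow_one]
    · intro b _ hb
      rw [Pi.single_eq_of_ne hb, pow_zero]
    · intro hh
      exact absurd (Finset.mem_univ a) hh
  unfold QUA_e
  simp only [Pi.add_apply, pow_add, Finset.prod_mul_distrib, h]

theorem QUA_card (β : Fin 20 → ℕ) (hβ : β ∈ Finset.piAntidiag (Finset.univ : Finset (Fin 20)) 2) :
    ((Finset.univ : Finset (Fin 20 × Fin 20)).filter (fun x => QUA_e x = β)).card +
      ((Finset.univ : Finset (Fin 20)).filter (fun j => QUA_e (j, j) = β)).card = 2 := by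
  rw [Finset.mem_piAntidiag] at hβ
  obtain ⟨a, b, rfl⟩ := QUA_two β hβ.1
  by_cases hab : a = b
  · subst hab
    have h1 : (Finset.univ : Finset (Fin 20 × Fin 20)).filter (fun x => QUA_e x = QUA_e (a, a)) =
        {(a, a)} := by
      ext ⟨c, d⟩
      rw [Finset.mem_filter, Finset.mem_singleton, QUA_e_eq, Prod.mk.injEq]
      simp
    have h2 : (Finset.univ : Finset (Fin 20)).filter (fun j => QUA_e (j, j) = QUA_e (a, a)) =
        {a} := by
      ext c
      rw [Finset.mem_filter, Finset.mem_singleton, QUA_e_eq]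
      simp
    rw [h1, h2, Finset.card_singleton, Finset.card_singleton]
  · have h1 : (Finset.univ : Finset (Fin 20 × Fin 20)).filter (fun x => QUA_e x = QUA_e (a, b)) =
        {(a, b), (b, a)} := by
      ext ⟨c, d⟩
      rw [Finset.mem_filter, Finset.mem_insert, Finset.mem_singleton, QUA_e_eq, Prod.mk.injEq,
        Prod.mk.injEq]
      simp
    have h2 : (Finset.univ : Finset (Fin 20)).filter (fun j => QUA_e (j, j) = QUA_e (a, b)) =
        ∅ := by
      rw [Finset.filter_eq_empty_iff]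
      intro c _ h
      rw [QUA_e_eq] at h
      rcases h with ⟨h3, h4⟩ | ⟨h3, h4⟩
      · exact hab (h3.symm.trans h4)
      · exact hab (h4.symm.trans h3)
    rw [h1, h2, Finset.card_empty, Finset.card_pair]
    intro h
    exact hab (Prod.mk.inj h).1

theorem QUA_quad {R : Type} [CommRing R] (P : (Fin 20 → ℕ) → R) (y : Fin 20 → R) :
    2 * ∑ β ∈ Finset.piAntidiag (Finset.univ : Finset (Fin 20)) 2, P β * ∏ i, y i ^ β i =
      ∑ j, ∑ l, y j * (if j = l then 2 * P (Pi.single j 2) else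
        P (Pi.single j 1 + Pi.single l 1)) * y l := by
  have hG : ∀ x : Fin 20 × Fin 20, P (QUA_e x) * ∏ i, y i ^ QUA_e x i =
      y x.1 * P (QUA_e x) * y x.2 := by
    intro x
    rw [QUA_e_prod]
    ring
  have hmem : ∀ x : Fin 20 × Fin 20,
      QUA_e x ∈ Finset.piAntidiag (Finset.univ : Finset (Fin 20)) 2 := by
    intro x
    rw [Finset.mem_piAntidiag]
    exact ⟨QUA_e_sum x, fun i _ => Finset.mem_univ i⟩
  have hd : ∀ j : Fin 20, QUA_e (j, j) = Pi.single j 2 := by
    intro j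
    unfold QUA_e
    rw [← Pi.single_add]
  have h1 : ∑ x : Fin 20 × Fin 20, y x.1 * P (QUA_e x) * y x.2 =
      ∑ β ∈ Finset.piAntidiag (Finset.univ : Finset (Fin 20)) 2,
        (((Finset.univ : Finset (Fin 20 × Fin 20)).filter (fun x => QUA_e x = β)).card : R) *
          (P β * ∏ i, y i ^ β i) := by
    rw [← Finset.sum_fiberwise_of_maps_to (g := QUA_e) (fun x _ => hmem x)]
    refine Finset.sum_congr rfl fun β _ => ?_
    rw [← nsmul_eq_mul, ← Finset.sum_const]
    refine Finset.sum_congr rfl fun x hx => ?_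
    rw [← (Finset.mem_filter.1 hx).2, hG]
  have h2 : ∑ j : Fin 20, y j * P (QUA_e (j, j)) * y j =
      ∑ β ∈ Finset.piAntidiag (Finset.univ : Finset (Fin 20)) 2,
        (((Finset.univ : Finset (Fin 20)).filter (fun j => QUA_e (j, j) = β)).card : R) *
          (P β * ∏ i, y i ^ β i) := by
    rw [← Finset.sum_fiberwise_of_maps_to (g := fun j => QUA_e (j, j)) (fun x _ => hmem (x, x))]
    refine Finset.sum_congr rfl fun β _ => ?_
    rw [← nsmul_eq_mul, ← Finset.sum_const]
    refine Finset.sum_congr rfl fun x hx => ?_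
    rw [← (Finset.mem_filter.1 hx).2, hG]
  have h3 : ∑ j, ∑ l, y j * (if j = l then 2 * P (Pi.single j 2) else
        P (Pi.single j 1 + Pi.single l 1)) * y l =
      ∑ x : Fin 20 × Fin 20, y x.1 * P (QUA_e x) * y x.2 +
        ∑ j : Fin 20, y j * P (QUA_e (j, j)) * y j := by
    rw [Fintype.sum_prod_type, ← Finset.sum_add_distrib]
    refine Finset.sum_congr rfl fun j _ => ?_
    have h4 : ∑ l, y j * (if j = l then 2 * P (Pi.single j 2) else
        P (Pi.single j 1 + Pi.single l 1)) * y l =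
        ∑ l, (y j * P (QUA_e (j, l)) * y l + if j = l then y j * P (QUA_e (j, j)) * y j else 0) := by
      refine Finset.sum_congr rfl fun l _ => ?_
      by_cases hjl : j = l
      · subst hjl
        rw [if_pos rfl, if_pos rfl, hd]
        ring
      · rw [if_neg hjl, if_neg hjl, add_zero]
        rfl
    rw [h4, Finset.sum_add_distrib, Finset.sum_ite_eq Finset.univ j]
    simp only [Finset.mem_univ, if_true]
  rw [h3, h1, h2, ← Finset.sum_add_distrib, Finset.mul_sum]
  refine Finset.sum_congr rfl fun β hβ => ?_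
  rw [← add_mul, ← Nat.cast_add, QUA_card β hβ]
  push_cast
  ring

theorem QUA_index {R : Type} [AddCommMonoid R] (N : ℕ) (F : (Fin 20 → ℕ) → R) :
    ∑ α ∈ (Finset.univ : Finset (Fin 20 → Fin N)).filter (fun α => ∑ i, (α i : ℕ) < N),
      F (fun i => (α i : ℕ)) =
    ∑ n ∈ Finset.range N, ∑ β ∈ Finset.piAntidiag (Finset.univ : Finset (Fin 20)) n, F β := by
  rw [← Finset.sum_fiberwise_of_maps_to (g := fun α : Fin 20 → Fin N => ∑ i, (α i : ℕ))
    (t := Finset.range N) (fun α hα => Finset.mem_range.2 (Finset.mem_filter.1 hα).2)]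
  refine Finset.sum_congr rfl fun n hn => ?_
  rw [Finset.mem_range] at hn
  refine Finset.sum_bij (fun α _ => fun i => (α i : ℕ)) ?_ ?_ ?_ ?_
  · intro α hα
    rw [Finset.mem_filter] at hα
    rw [Finset.mem_piAntidiag]
    exact ⟨hα.2, fun i _ => Finset.mem_univ i⟩
  · intro α _ α' _ h
    funext i
    exact Fin.ext (congrFun h i)
  · intro β hβ
    rw [Finset.mem_piAntidiag] at hβ
    have hlt : ∀ i, β i < N := by
      intro i
      have h1 : β i ≤ ∑ j, β j :=
        Finset.single_le_sum (f := β) (fun j _ => Nat.zero_le _) (Finset.mem_univ i)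
      have h2 : ∑ j, β j = n := hβ.1
      omega
    refine ⟨fun i => ⟨β i, hlt i⟩, ?_, rfl⟩
    rw [Finset.mem_filter, Finset.mem_filter]
    refine ⟨⟨Finset.mem_univ _, ?_⟩, ?_⟩
    · show ∑ i, β i < N
      rw [hβ.1]
      exact hn
    · exact hβ.1
  · intro α _
    rfl

/-! ### The ring of integers of `K` and its residue field -/

section Ring

variable (p : ℕ) [Fact p.Prime] (K : Fld p)

/-- the ring of integers -/
def QUA_O : Subring K where
  carrier := {x : K | ‖(x : Om p)‖ ≤ 1}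
  mul_mem' := by
    intro a b ha hb
    rw [Set.mem_ofPred_eq] at ha hb ⊢
    push_cast
    rw [norm_mul]
    exact mul_le_one₀ ha (norm_nonneg _) hb
  one_mem' := by
    rw [Set.mem_ofPred_eq]
    push_cast
    rw [norm_one]
  add_mem' := by
    intro a b ha hb
    rw [Set.mem_ofPred_eq] at ha hb ⊢
    push_cast
    exact (IsUltrametricDist.norm_add_le_max _ _).trans (max_le ha hb)
  zero_mem' := by
    rw [Set.mem_ofPred_eq]
    push_cast
    rw [norm_zero]
    exact zero_le_one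
  neg_mem' := by
    intro a ha
    rw [Set.mem_ofPred_eq] at ha ⊢
    push_cast
    rw [norm_neg]
    exact ha

variable {p K}

theorem QUA_norm_le (x : QUA_O p K) : ‖((x : K) : Om p)‖ ≤ 1 := x.2

variable (p K)

/-- the maximal ideal -/
def QUA_m : Ideal (QUA_O p K) where
  carrier := {x | ‖((x : K) : Om p)‖ < 1}
  add_mem' := by
    intro a b ha hb
    rw [Set.mem_ofPred_eq] at ha hb ⊢
    push_cast
    exact (IsUltrametricDist.norm_add_le_max _ _).trans_lt (max_lt ha hb)
  zero_mem' := by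
    rw [Set.mem_ofPred_eq]
    push_cast
    rw [norm_zero]
    exact zero_lt_one
  smul_mem' := by
    intro c a ha
    rw [Set.mem_ofPred_eq] at ha ⊢
    rw [smul_eq_mul]
    push_cast
    rw [norm_mul]
    exact mul_lt_one_of_nonneg_of_lt_one_right (QUA_norm_le c) (norm_nonneg _) ha

theorem QUA_mem_m (x : QUA_O p K) : x ∈ QUA_m p K ↔ ‖((x : K) : Om p)‖ < 1 := Iff.rfl

theorem QUA_max : (QUA_m p K).IsMaximal := by
  rw [Ideal.isMaximal_iff]
  constructor
  · rw [QUA_mem_m]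
    push_cast
    rw [norm_one]
    exact lt_irrefl 1
  · intro J x _ hx hxJ
    rw [QUA_mem_m, not_lt] at hx
    have hn : ‖((x : K) : Om p)‖ = 1 := le_antisymm (QUA_norm_le x) hx
    have hx0 : (x : K) ≠ 0 := by
      intro h
      rw [h] at hn
      push_cast at hn
      rw [norm_zero] at hn
      exact zero_ne_one hn
    have hinv : ‖(((x : K)⁻¹ : K) : Om p)‖ ≤ 1 := by
      push_cast
      rw [norm_inv, hn, inv_one]
    have h1 : (⟨(x : K)⁻¹, hinv⟩ : QUA_O p K) * x = 1 := by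
      apply Subtype.ext
      push_cast
      exact inv_mul_cancel₀ hx0
    rw [← h1]
    exact J.mul_mem_left _ hxJ

theorem QUA_fin (hK : IsFin p K) : Finite (QUA_O p K ⧸ QUA_m p K) := by
  let E : Submodule ℚ_[p] (Om p) := Subalgebra.toSubmodule K.toSubalgebra
  have : FiniteDimensional ℚ_[p] E := hK
  have : ProperSpace E := FiniteDimensional.proper ℚ_[p] E
  obtain ⟨t, ht, htf, hcov⟩ := (isCompact_closedBall (0 : E) 1).finite_cover_balls
    (zero_lt_one (α := ℝ))
  have := htf.to_subtype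
  have hmem : ∀ x : t, ‖((⟨(x.1 : Om p), x.1.2⟩ : K) : Om p)‖ ≤ 1 := by
    intro x
    have h := ht x.2
    rw [mem_closedBall_zero_iff] at h
    exact h
  refine Finite.of_surjective (fun x : t => Ideal.Quotient.mk (QUA_m p K)
    (⟨⟨(x.1 : Om p), x.1.2⟩, hmem x⟩ : QUA_O p K)) fun y => ?_
  obtain ⟨z, rfl⟩ := Ideal.Quotient.mk_surjective y
  have hz : (⟨((z : K) : Om p), (z : K).2⟩ : E) ∈ Metric.closedBall (0 : E) 1 := by
    rw [mem_closedBall_zero_iff]
    exact QUA_norm_le z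
  have hz' := hcov hz
  rw [Set.mem_iUnion₂] at hz'
  obtain ⟨x, hx, hxz⟩ := hz'
  refine ⟨⟨x, hx⟩, ?_⟩
  rw [Ideal.Quotient.eq, QUA_mem_m]
  rw [Metric.mem_ball, dist_eq_norm, norm_sub_rev] at hxz
  exact hxz

end Ring

/-! ### The polynomial in one variable -/

/-- the restriction to a line -/
noncomputable def QUA_Q {O : Type} [CommRing O] (N : ℕ) (c : (Fin 20 → ℕ) → O) (s : Fin 20 → O)
    (i : Fin 20) : O[X] :=
  ∑ n ∈ Finset.range N, ∑ β ∈ Finset.piAntidiag (Finset.univ : Finset (Fin 20)) n,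
    C (c β) * ∏ j, (C (s j) + C (if j = i then 1 else 0) * X) ^ β j

theorem QUA_map {O k : Type} [CommRing O] [CommRing k] (π : O →+* k) (N : ℕ)
    (c : (Fin 20 → ℕ) → O) (s : Fin 20 → O) (i : Fin 20) :
    (QUA_Q N c s i).map π = QUA_Q N (fun β => π (c β)) (fun j => π (s j)) i := by
  unfold QUA_Q
  rw [Polynomial.map_sum]
  refine Finset.sum_congr rfl fun n _ => ?_
  rw [Polynomial.map_sum]
  refine Finset.sum_congr rfl fun β _ => ?_
  rw [Polynomial.map_mul, Polynomial.map_C, Polynomial.map_prod]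
  refine congrArg (fun z => C (π (c β)) * z) (Finset.prod_congr rfl fun j _ => ?_)
  rw [Polynomial.map_pow, Polynomial.map_add, Polynomial.map_mul, Polynomial.map_C,
    Polynomial.map_C, Polynomial.map_X]
  split_ifs
  · rw [map_one]
  · rw [map_zero]

theorem QUA_eval {O : Type} [CommRing O] (N : ℕ) (c : (Fin 20 → ℕ) → O) (s : Fin 20 → O)
    (i : Fin 20) (x : O) : (QUA_Q N c s i).eval x =
      ∑ n ∈ Finset.range N, ∑ β ∈ Finset.piAntidiag (Finset.univ : Finset (Fin 20)) n,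
        c β * ∏ j, (s j + (if j = i then 1 else 0) * x) ^ β j := by
  unfold QUA_Q
  rw [Polynomial.eval_finsetSum]
  refine Finset.sum_congr rfl fun n _ => ?_
  rw [Polynomial.eval_finsetSum]
  refine Finset.sum_congr rfl fun β _ => ?_
  rw [Polynomial.eval_mul, Polynomial.eval_C, Polynomial.eval_prod]
  refine congrArg (fun z => c β * z) (Finset.prod_congr rfl fun j _ => ?_)
  rw [Polynomial.eval_pow, Polynomial.eval_add, Polynomial.eval_mul, Polynomial.eval_C,
    Polynomial.eval_C, Polynomial.eval_X]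

theorem QUA_prodcoeff {k : Type} [CommRing k] (a b d e h : k) :
    (C a + C d * X) * C h * (C b + C e * X) =
      C (a * h * b) + C (h * (a * e + d * b)) * X + C (h * d * e) * X ^ 2 := by
  simp only [C_mul, C_add]
  ring

theorem QUA_c0 {k : Type} [CommRing k] (a b d : k) :
    (C a + C b * X + C d * X ^ 2 : k[X]).coeff 0 = a := by
  simp

theorem QUA_c1 {k : Type} [CommRing k] (a b d : k) :
    (C a + C b * X + C d * X ^ 2 : k[X]).coeff 1 = b := by
  rw [coeff_add, coeff_add, coeff_C_mul, coeff_C_mul, coeff_C_of_ne_zero one_ne_zero, coeff_X_one,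
    coeff_X_pow, if_neg (by norm_num)]
  ring

theorem QUA_sum0 {k : Type} [CommRing k] (e : k) (A B D : Fin 20 → Fin 20 → k) :
    (C e + ∑ j, ∑ l, (C (A j l) + C (B j l) * X + C (D j l) * X ^ 2) : k[X]).coeff 0 =
      e + ∑ j, ∑ l, A j l := by
  rw [coeff_add, coeff_C_zero, finsetSum_coeff]
  refine congrArg (fun z => e + z) (Finset.sum_congr rfl fun j _ => ?_)
  rw [finsetSum_coeff]
  exact Finset.sum_congr rfl fun l _ => QUA_c0 _ _ _

theorem QUA_sum1 {k : Type} [CommRing k] (e : k) (A B D : Fin 20 → Fin 20 → k) :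
    (C e + ∑ j, ∑ l, (C (A j l) + C (B j l) * X + C (D j l) * X ^ 2) : k[X]).coeff 1 =
      ∑ j, ∑ l, B j l := by
  rw [coeff_add, coeff_C_of_ne_zero one_ne_zero, zero_add, finsetSum_coeff]
  refine Finset.sum_congr rfl fun j _ => ?_
  rw [finsetSum_coeff]
  exact Finset.sum_congr rfl fun l _ => QUA_c1 _ _ _

theorem QUA_shape {k : Type} [CommRing k] (N : ℕ) (hN : 3 ≤ N) (c : (Fin 20 → ℕ) → k)
    (s : Fin 20 → k) (i : Fin 20) (hc1 : ∀ β : Fin 20 → ℕ, ∑ j, β j = 1 → c β = 0)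
    (hc3 : ∀ β : Fin 20 → ℕ, 3 ≤ ∑ j, β j → c β = 0) :
    QUA_Q N c s i = C (c 0) + ∑ β ∈ Finset.piAntidiag (Finset.univ : Finset (Fin 20)) 2,
      C (c β) * ∏ j, (C (s j) + C (if j = i then 1 else 0) * X) ^ β j := by
  have h2 : QUA_Q N c s i = ∑ n ∈ ({0, 2} : Finset ℕ),
      ∑ β ∈ Finset.piAntidiag (Finset.univ : Finset (Fin 20)) n,
      C (c β) * ∏ j, (C (s j) + C (if j = i then 1 else 0) * X) ^ β j := by
    unfold QUA_Q
    symm
    refine Finset.sum_subset ?_ fun n _ hn => ?_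
    · intro n hn
      rw [Finset.mem_insert, Finset.mem_singleton] at hn
      rw [Finset.mem_range]
      omega
    · refine Finset.sum_eq_zero fun β hβ => ?_
      rw [Finset.mem_piAntidiag] at hβ
      have hs : ∑ j, β j = n := hβ.1
      rw [Finset.mem_insert, Finset.mem_singleton, not_or] at hn
      have hc : c β = 0 := by
        rcases Nat.lt_or_ge n 3 with h | h
        · exact hc1 β (by omega)
        · exact hc3 β (by omega)
      rw [hc, C_0, zero_mul]
  have h3 : ∑ β ∈ Finset.piAntidiag (Finset.univ : Finset (Fin 20)) 0,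
      C (c β) * ∏ j, (C (s j) + C (if j = i then 1 else 0) * X) ^ β j = C (c 0) := by
    rw [Finset.piAntidiag_zero, Finset.sum_singleton]
    have h4 : ∏ j, (C (s j) + C (if j = i then 1 else 0) * X) ^ ((0 : Fin 20 → ℕ) j) =
        (1 : k[X]) := Finset.prod_eq_one fun j _ => by rw [Pi.zero_apply, pow_zero]
    rw [h4, mul_one]
  rw [h2, Finset.sum_pair (by norm_num), h3]

theorem QUA_double {k : Type} [CommRing k] (N : ℕ) (hN : 3 ≤ N) (c : (Fin 20 → ℕ) → k)
    (s : Fin 20 → k) (i : Fin 20) (hc1 : ∀ β : Fin 20 → ℕ, ∑ j, β j = 1 → c β = 0)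
    (hc3 : ∀ β : Fin 20 → ℕ, 3 ≤ ∑ j, β j → c β = 0) (H : Fin 20 → Fin 20 → k)
    (hH : ∀ j l, H j l = if j = l then 2 * c (Pi.single j 2) else
      c (Pi.single j 1 + Pi.single l 1)) (d : Fin 20 → k) (hd : d = fun j => if j = i then 1 else 0) :
    C 2 * QUA_Q N c s i = C (2 * c 0) + ∑ j, ∑ l, (C (s j * H j l * s l) +
      C (H j l * (s j * d l + d j * s l)) * X + C (H j l * d j * d l) * X ^ 2) := by
  have e2 : (C 2 : k[X]) = 2 := map_ofNat C 2
  rw [QUA_shape N hN c s i hc1 hc3, e2, mul_add,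
    QUA_quad (fun β => C (c β)) fun j => C (s j) + C (if j = i then 1 else 0) * X]
  have h3 : (2 : k[X]) * C (c 0) = C (2 * c 0) := by rw [C_mul, e2]
  rw [h3]
  refine congrArg (fun z => C (2 * c 0) + z) (Finset.sum_congr rfl fun j _ =>
    Finset.sum_congr rfl fun l _ => ?_)
  rw [← QUA_prodcoeff, hH]
  subst hd
  dsimp only
  by_cases hjl : j = l
  · rw [if_pos hjl, if_pos hjl, C_mul, e2]
  · rw [if_neg hjl, if_neg hjl]

theorem QUA_coeff {k : Type} [CommRing k] (N : ℕ) (hN : 3 ≤ N) (c : (Fin 20 → ℕ) → k)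
    (s : Fin 20 → k) (i : Fin 20) (hc1 : ∀ β : Fin 20 → ℕ, ∑ j, β j = 1 → c β = 0)
    (hc3 : ∀ β : Fin 20 → ℕ, 3 ≤ ∑ j, β j → c β = 0) (H : Fin 20 → Fin 20 → k)
    (hH : ∀ j l, H j l = if j = l then 2 * c (Pi.single j 2) else
      c (Pi.single j 1 + Pi.single l 1)) :
    2 * (QUA_Q N c s i).coeff 0 = 2 * c 0 + ∑ j, ∑ l, s j * H j l * s l ∧
      2 * (QUA_Q N c s i).coeff 1 = ∑ j, H j i * s j + ∑ l, H i l * s l := by
  have h := QUA_double N hN c s i hc1 hc3 H hH _ rfl
  constructor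
  · rw [← coeff_C_mul, h, QUA_sum0]
  · rw [← coeff_C_mul, h, QUA_sum1]
    have h5 : ∀ j l, H j l * (s j * (if l = i then 1 else 0) + (if j = i then 1 else 0) * s l) =
        (if l = i then H j l * s j else 0) + (if j = i then H j l * s l else 0) := by
      intro j l
      split_ifs <;> ring
    have h6 : ∑ j, ∑ l, (if l = i then H j l * s j else 0) = ∑ j, H j i * s j :=
      Finset.sum_congr rfl fun j _ => by
        rw [Finset.sum_ite_eq' Finset.univ i, if_pos (Finset.mem_univ i)]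
    have h7 : ∑ j, ∑ l, (if j = i then H j l * s l else 0) = ∑ l, H i l * s l := by
      rw [Finset.sum_comm]
      exact Finset.sum_congr rfl fun l _ => by
        rw [Finset.sum_ite_eq' Finset.univ i, if_pos (Finset.mem_univ i)]
    rw [← h6, ← h7, ← Finset.sum_add_distrib]
    refine Finset.sum_congr rfl fun j _ => ?_
    rw [← Finset.sum_add_distrib]
    exact Finset.sum_congr rfl fun l _ => h5 j l

theorem QUA_res (hRES : S_RES) {O k : Type} [CommRing O] [Field k] [Finite k] (h2 : (2 : k) ≠ 0)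
    (π : O →+* k) (hπ : Function.Surjective π) (N : ℕ) (hN : 3 ≤ N) (c : (Fin 20 → ℕ) → O)
    (hc1 : ∀ β : Fin 20 → ℕ, ∑ j, β j = 1 → π (c β) = 0)
    (hc3 : ∀ β : Fin 20 → ℕ, 3 ≤ ∑ j, β j → π (c β) = 0)
    (HO : Matrix (Fin 20) (Fin 20) O)
    (hHO : ∀ j l, HO j l = if j = l then 2 * c (Pi.single j 2) else
      c (Pi.single j 1 + Pi.single l 1))
    (hdet : ∃ a b : Fin 20, π (HO.submatrix a.succAbove b.succAbove).det ≠ 0) :
    ∃ (s : Fin 20 → O) (i : Fin 20), π ((QUA_Q N c s i).coeff 0) = 0 ∧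
      π ((QUA_Q N c s i).coeff 1) ≠ 0 := by
  have hsymm : ∀ j l, HO j l = HO l j := by
    intro j l
    rw [hHO, hHO]
    by_cases h : j = l
    · subst h
      rfl
    · rw [if_neg h, if_neg fun h' => h h'.symm, add_comm]
  obtain ⟨sb, hsb, i, hi⟩ := hRES k h2 ((2 : k)⁻¹ • HO.map π) (by
      rw [Matrix.IsSymm]
      ext j l
      simp only [Matrix.transpose_apply, Matrix.smul_apply, Matrix.map_apply]
      rw [hsymm]) (by
      obtain ⟨a, b, hab⟩ := hdet
      refine ⟨a, b, ?_⟩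
      rw [Matrix.submatrix_smul, Pi.smul_apply, Pi.smul_apply, Matrix.det_smul]
      refine mul_ne_zero (pow_ne_zero _ (inv_ne_zero h2)) ?_
      rw [RingHom.map_det] at hab
      exact hab) (π (c 0))
  simp only [Matrix.smul_apply, Matrix.map_apply, smul_eq_mul] at hsb hi
  choose s hs using fun j => hπ (sb j)
  refine ⟨s, i, ?_⟩
  have hH : ∀ j l, π (HO j l) = if j = l then 2 * π (c (Pi.single j 2)) else
      π (c (Pi.single j 1 + Pi.single l 1)) := by
    intro j l
    rw [hHO]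
    split_ifs
    · rw [map_mul, map_ofNat]
    · rfl
  obtain ⟨h3, h4⟩ := QUA_coeff N hN (fun β => π (c β)) sb i hc1 hc3 (fun j l => π (HO j l)) hH
  have h5 : ∀ n, π ((QUA_Q N c s i).coeff n) = (QUA_Q N (fun β => π (c β)) sb i).coeff n := by
    intro n
    rw [← Polynomial.coeff_map, QUA_map]
    congr 2
    funext j
    exact hs j
  rw [h5, h5]
  constructor
  · have h6 : 2 * (QUA_Q N (fun β => π (c β)) sb i).coeff 0 =
        2 * (π (c 0) + ∑ j, ∑ l, sb j * (2⁻¹ * π (HO j l)) * sb l) := by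
      rw [h3, mul_add, Finset.mul_sum]
      congr 1
      refine Finset.sum_congr rfl fun j _ => ?_
      rw [Finset.mul_sum]
      refine Finset.sum_congr rfl fun l _ => ?_
      field_simp
    rw [hsb, mul_zero] at h6
    exact (mul_eq_zero.1 h6).resolve_left h2
  · intro h6
    rw [h6, mul_zero] at h4
    apply hi
    have h7 : ∑ j, π (HO j i) * sb j = ∑ l, π (HO i l) * sb l :=
      Finset.sum_congr rfl fun j _ => by rw [hsymm]
    rw [h7, ← two_mul] at h4
    have h8 := (mul_eq_zero.1 h4.symm).resolve_left h2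
    have h9 : ∑ j, 2⁻¹ * π (HO i j) * sb j = 2⁻¹ * ∑ l, π (HO i l) * sb l := by
      rw [Finset.mul_sum]
      exact Finset.sum_congr rfl fun j _ => by ring
    rw [h9, h8, mul_zero]

/-! ### Estimates -/

theorem QUA_real (w a : ℝ) (hw0 : 0 < w) (hw1 : w < 1) (ha : 0 ≤ a) (ha1 : a ≤ 1) (n : ℕ)
    (h01 : n ≤ 1 → a ≤ w ^ 2) :
    a * w ^ n * (w ^ 2)⁻¹ ≤ 1 ∧ ((n = 1 ∨ 3 ≤ n) → a * w ^ n * (w ^ 2)⁻¹ < 1) := by
  have hw2 : 0 < w ^ 2 := by positivity
  rw [← div_eq_mul_inv, div_le_one hw2, div_lt_one hw2]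
  have hwn : w ^ n ≤ 1 := pow_le_one₀ hw0.le hw1.le
  have hwn0 : 0 < w ^ n := by positivity
  constructor
  · rcases Nat.lt_or_ge n 2 with h | h
    · have h1 := h01 (by omega)
      nlinarith
    · have h1 : w ^ n ≤ w ^ 2 := pow_le_pow_of_le_one hw0.le hw1.le h
      nlinarith
  · rintro (h | h)
    · subst h
      have h1 := h01 le_rfl
      rw [pow_one]
      nlinarith
    · have h1 : w ^ n ≤ w ^ 3 := pow_le_pow_of_le_one hw0.le hw1.le h
      have h2 : w ^ 3 < w ^ 2 := by nlinarith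
      nlinarith

theorem QUA_trunc (p : ℕ) [Fact p.Prime] (f : (Fin 20 → ℕ) → Om p) (N : ℕ) (t : Fin 20 → Om p) :
    trunc p f N t = ∑ n ∈ Finset.range N,
      ∑ β ∈ Finset.piAntidiag (Finset.univ : Finset (Fin 20)) n, f β * ∏ i, t i ^ β i :=
  QUA_index N fun β => f β * ∏ i, t i ^ β i

theorem QUA_trunc_zero (p : ℕ) [Fact p.Prime] (f : (Fin 20 → ℕ) → Om p) (w : ℝ) (hw0 : 0 < w)
    (hw1 : w < 1) (hf0 : ‖f 0‖ ≤ w ^ 2) (N : ℕ) (hN : N < 3) : ‖trunc p f N 0‖ ≤ w ^ N := by
  have h1 : ∀ n ∈ Finset.range N, ∑ β ∈ Finset.piAntidiag (Finset.univ : Finset (Fin 20)) n,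
      f β * ∏ i, (0 : Fin 20 → Om p) i ^ β i = if n = 0 then f 0 else 0 := by
    intro n _
    by_cases hn : n = 0
    · subst hn
      rw [if_pos rfl, Finset.piAntidiag_zero, Finset.sum_singleton]
      have h2 : ∏ i, (0 : Fin 20 → Om p) i ^ ((0 : Fin 20 → ℕ) i) = 1 :=
        Finset.prod_eq_one fun i _ => by rw [Pi.zero_apply, Pi.zero_apply, pow_zero]
      rw [h2, mul_one]
    · rw [if_neg hn]
      refine Finset.sum_eq_zero fun β hβ => ?_
      rw [Finset.mem_piAntidiag] at hβ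
      obtain ⟨a, ha⟩ : ∃ a, β a ≠ 0 := by
        by_contra hcon
        push Not at hcon
        have h3 : ∑ i, β i = n := hβ.1
        rw [Finset.sum_eq_zero fun i _ => hcon i] at h3
        exact hn h3.symm
      have h4 : ∏ i, (0 : Fin 20 → Om p) i ^ β i = 0 :=
        Finset.prod_eq_zero (Finset.mem_univ a) (by rw [Pi.zero_apply, zero_pow ha])
      rw [h4, mul_zero]
  rw [QUA_trunc, Finset.sum_congr rfl h1]
  rcases Nat.eq_zero_or_pos N with hN0 | hN0
  · subst hN0
    simp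
  · rw [Finset.sum_ite_eq' (Finset.range N) 0, if_pos (Finset.mem_range.2 hN0)]
    exact hf0.trans (pow_le_pow_of_le_one hw0.le hw1.le (by omega))

theorem QUA_norm_two (p : ℕ) [Fact p.Prime] (hp2 : p ≠ 2) : ‖(2 : Om p)‖ = 1 := by
  have h1 : ((2 : ℚ_[p]) : Om p) = 2 := map_ofNat (algebraMap ℚ_[p] (Om p)) 2
  rw [← h1, PadicAlgCl.norm_extends]
  have h2 : ‖((2 : ℕ) : ℚ_[p])‖ = 1 := by
    rw [Padic.norm_natCast_eq_one_iff]
    rw [Nat.coprime_primes (Fact.out) Nat.prime_two]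
    exact hp2
  exact_mod_cast h2

theorem QUA_alg {F : Type} [Field F] (P a V A : F) (hP : P ≠ 0) :
    a * (V * A) = P * (a * V * P⁻¹ * A) := by
  field_simp

theorem QUA_coe_two (p : ℕ) [Fact p.Prime] (K : Fld p) : (((2 : QUA_O p K) : K) : Om p) = 2 :=
  map_ofNat ((K.val : K →+* Om p).comp (QUA_O p K).subtype) 2

theorem p_QUA (hNEW : S_NEW) (hRES : S_RES) : S_QUA := by
  intro p _ hp2 K hK v hvK hv f hfK hf1 hf0 hfe hdet N
  have hpp : p.Prime := Fact.out
  have hpn : ‖(p : Om p)‖ = (p : ℝ)⁻¹ := by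
    have h1 : (((p : ℕ) : ℚ_[p]) : Om p) = (p : Om p) := map_natCast (algebraMap ℚ_[p] (Om p)) p
    rw [← h1, PadicAlgCl.norm_extends, Padic.norm_p]
  have hp0 : (p : Om p) ≠ 0 := by
    intro h
    rw [h, norm_zero] at hpn
    have : (0 : ℝ) < (p : ℝ)⁻¹ := by
      have := hpp.pos
      positivity
    linarith
  obtain ⟨w, hw⟩ : ∃ w, w = ‖v‖ := ⟨_, rfl⟩
  have hw2 : w ^ 2 = ‖(p : Om p)‖ := by rw [hw, ← norm_pow, hv]
  have hwp : w ^ 2 < 1 := by
    rw [hw2, hpn]
    exact inv_lt_one_of_one_lt₀ (by exact_mod_cast hpp.one_lt)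
  have hw0 : 0 < w := by
    rcases (norm_nonneg v).lt_or_eq with h | h
    · rw [hw]
      exact h
    · exfalso
      rw [← hw] at h
      rw [← h, hpn] at hw2
      have : (0 : ℝ) < (p : ℝ)⁻¹ := by
        have := hpp.pos
        positivity
      rw [← hw2] at this
      norm_num at this
  have hw1 : w < 1 := by
    by_contra h
    rw [not_lt] at h
    nlinarith
  rw [← hw2] at hf0 hfe
  rw [← hw]
  rcases Nat.lt_or_ge N 3 with hN | hN
  · exact ⟨0, fun _ => zero_mem _, by rw [norm_zero]; exact hw0.le,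
      QUA_trunc_zero p f w hw0 hw1 hf0 N hN⟩
  -- the coefficients
  obtain ⟨vK, hvK'⟩ : ∃ x : K, ((x : K) : Om p) = v := ⟨⟨v, hvK⟩, rfl⟩
  choose fK hfK' using fun β => (⟨⟨f β, hfK β⟩, rfl⟩ : ∃ x : K, ((x : K) : Om p) = f β)
  have hcn : ∀ β : Fin 20 → ℕ, ‖(((fK β * vK ^ (∑ j, β j) * ((p : K))⁻¹ : K)) : Om p)‖ =
      ‖f β‖ * w ^ (∑ j, β j) * (w ^ 2)⁻¹ := by
    intro β
    push_cast
    rw [norm_mul, norm_mul, norm_pow, norm_inv, hfK', hvK', ← hw, hw2]
  have hest : ∀ β : Fin 20 → ℕ, ‖f β‖ * w ^ (∑ j, β j) * (w ^ 2)⁻¹ ≤ 1 ∧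
      ((∑ j, β j = 1 ∨ 3 ≤ ∑ j, β j) → ‖f β‖ * w ^ (∑ j, β j) * (w ^ 2)⁻¹ < 1) := by
    intro β
    refine QUA_real w ‖f β‖ hw0 hw1 (norm_nonneg _) (hf1 β) _ fun h => ?_
    rcases Nat.eq_zero_or_pos (∑ j, β j) with h0 | h0
    · rw [QUA_zero β h0]
      exact hf0
    · obtain ⟨a, ha⟩ := QUA_one β (by omega)
      rw [ha]
      exact hfe a
  obtain ⟨c, hc⟩ : ∃ c : (Fin 20 → ℕ) → QUA_O p K, ∀ β,
      ((c β : QUA_O p K) : K) = fK β * vK ^ (∑ j, β j) * ((p : K))⁻¹ :=
    ⟨fun β => ⟨fK β * vK ^ (∑ j, β j) * ((p : K))⁻¹, by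
      show ‖_‖ ≤ 1
      rw [hcn]
      exact (hest β).1⟩, fun β => rfl⟩
  have hc2 : ∀ β : Fin 20 → ℕ, ∑ j, β j = 2 → (((c β : QUA_O p K) : K) : Om p) = f β := by
    intro β hβ
    rw [hc, hβ]
    push_cast
    rw [hfK', hvK', hv]
    field_simp
  -- the residue field
  have hmax := QUA_max p K
  letI : Field (QUA_O p K ⧸ QUA_m p K) := Ideal.Quotient.field (QUA_m p K)
  have : Finite (QUA_O p K ⧸ QUA_m p K) := QUA_fin p K hK
  have hlt : ∀ x : QUA_O p K, Ideal.Quotient.mk (QUA_m p K) x = 0 ↔ ‖((x : K) : Om p)‖ < 1 := by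
    intro x
    rw [Ideal.Quotient.eq_zero_iff_mem, QUA_mem_m]
  have h2 : (2 : QUA_O p K ⧸ QUA_m p K) ≠ 0 := by
    intro h
    have h3 : Ideal.Quotient.mk (QUA_m p K) (2 : QUA_O p K) = 0 := by
      rw [map_ofNat]
      exact h
    rw [hlt, QUA_coe_two, QUA_norm_two p hp2] at h3
    exact lt_irrefl _ h3
  obtain ⟨HO, hHO⟩ : ∃ HO : Matrix (Fin 20) (Fin 20) (QUA_O p K), ∀ j l, HO j l =
      if j = l then 2 * c (Pi.single j 2) else c (Pi.single j 1 + Pi.single l 1) :=
    ⟨Matrix.of fun j l => if j = l then 2 * c (Pi.single j 2) else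
      c (Pi.single j 1 + Pi.single l 1), fun j l => rfl⟩
  have hs2 : ∀ j : Fin 20, ∑ i, (Pi.single j 2 : Fin 20 → ℕ) i = 2 := by
    intro j
    rw [Finset.sum_pi_single', if_pos (Finset.mem_univ j)]
  have hs11 : ∀ j l : Fin 20, ∑ i, (Pi.single j 1 + Pi.single l 1 : Fin 20 → ℕ) i = 2 :=
    fun j l => QUA_e_sum (j, l)
  have hHess : (K.val : K →+* Om p).mapMatrix ((QUA_O p K).subtype.mapMatrix HO) = hess p f := by
    ext j l
    show (((HO j l : QUA_O p K) : K) : Om p) = hess p f j l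
    rw [hHO]
    show _ = if j = l then 2 * f (Pi.single j 2) else f (Pi.single j 1 + Pi.single l 1)
    by_cases hjl : j = l
    · rw [if_pos hjl, if_pos hjl]
      show (((2 : QUA_O p K) : K) : Om p) * (((c (Pi.single j 2) : QUA_O p K) : K) : Om p) = _
      rw [QUA_coe_two, hc2 _ (hs2 j)]
    · rw [if_neg hjl, if_neg hjl]
      exact hc2 _ (hs11 j l)
  obtain ⟨a, b, hab⟩ := hdet
  have hdetO : ∃ a b : Fin 20,
      Ideal.Quotient.mk (QUA_m p K) (HO.submatrix a.succAbove b.succAbove).det ≠ 0 := by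
    refine ⟨a, b, fun h => ?_⟩
    rw [hlt] at h
    have h3 : ((((HO.submatrix a.succAbove b.succAbove).det : QUA_O p K) : K) : Om p) =
        minor p f a b := by
      have h4 : (hess p f).submatrix a.succAbove b.succAbove =
          (K.val : K →+* Om p).mapMatrix ((QUA_O p K).subtype.mapMatrix
            (HO.submatrix a.succAbove b.succAbove)) := by
        rw [← hHess]
        rfl
      unfold minor
      rw [h4, ← RingHom.map_det, ← RingHom.map_det]
      rfl
    rw [h3, hab] at h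
    exact lt_irrefl _ h
  obtain ⟨s, i, hQ0, hQ1⟩ := QUA_res hRES h2 (Ideal.Quotient.mk (QUA_m p K))
    Ideal.Quotient.mk_surjective N hN c
    (fun β hβ => by rw [hlt, hc, hcn]; exact (hest β).2 (Or.inl hβ))
    (fun β hβ => by rw [hlt, hc, hcn]; exact (hest β).2 (Or.inr hβ)) HO hHO hdetO
  rw [hlt] at hQ0
  have hQ1' : ‖((((QUA_Q N c s i).coeff 1 : QUA_O p K) : K) : Om p)‖ = 1 := by
    refine le_antisymm (QUA_norm_le _) ?_
    by_contra hcon
    rw [not_le] at hcon
    exact hQ1 ((hlt _).2 hcon)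
  -- Newton
  have hcoe : ∀ n, (((QUA_Q N c s i).map (QUA_O p K).subtype).coeff n : K) =
      ((QUA_Q N c s i).coeff n : QUA_O p K) := fun n => by
    rw [Polynomial.coeff_map]
    rfl
  obtain ⟨x, hx1, hx2⟩ := hNEW p K ((QUA_Q N c s i).map (QUA_O p K).subtype)
    (fun n => by rw [hcoe]; exact QUA_norm_le _) (by rw [hcoe]; exact hQ0)
    (by rw [hcoe]; exact hQ1') (w ^ N) (by positivity)
  rw [hcoe] at hx1
  have hx3 : ‖(x : Om p)‖ ≤ 1 := hx1.trans hQ0.le
  rw [QUA_map, QUA_eval] at hx2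
  refine ⟨fun j => v * (((s j : K) : Om p) + (if j = i then 1 else 0) * (x : Om p)),
    fun j => ?_, ?_, ?_⟩
  · refine K.mul_mem hvK (K.add_mem (s j : K).2 (K.mul_mem ?_ x.2))
    split_ifs
    · exact K.one_mem
    · exact K.zero_mem
  · rw [pi_norm_le_iff_of_nonneg hw0.le]
    intro j
    rw [norm_mul, ← hw]
    refine mul_le_of_le_one_right hw0.le ?_
    refine (IsUltrametricDist.norm_add_le_max _ _).trans (max_le (QUA_norm_le (s j)) ?_)
    rw [norm_mul]
    refine mul_le_one₀ ?_ (norm_nonneg _) hx3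
    split_ifs
    · rw [norm_one]
    · rw [norm_zero]
      exact zero_le_one
  · have h3 : trunc p f N (fun j => v * (((s j : K) : Om p) +
        (if j = i then 1 else 0) * (x : Om p))) = (p : Om p) *
        ((∑ n ∈ Finset.range N, ∑ β ∈ Finset.piAntidiag (Finset.univ : Finset (Fin 20)) n,
          (QUA_O p K).subtype (c β) * ∏ j, ((QUA_O p K).subtype (s j) +
            (if j = i then 1 else 0) * x) ^ β j : K) : Om p) := by
      rw [QUA_trunc]
      push_cast
      rw [Finset.mul_sum]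
      refine Finset.sum_congr rfl fun n _ => ?_
      rw [Finset.mul_sum]
      refine Finset.sum_congr rfl fun β hβ => ?_
      have h4 : (((QUA_O p K).subtype (c β) : K) : Om p) =
          f β * v ^ (∑ j, β j) * (p : Om p)⁻¹ := by
        show (((c β : QUA_O p K) : K) : Om p) = _
        rw [hc]
        push_cast
        rw [hfK', hvK']
      rw [h4]
      have h5 : ∏ j, (v * (((s j : K) : Om p) + (if j = i then 1 else 0) * (x : Om p))) ^ β j =
          v ^ (∑ j, β j) * ∏ j, (((s j : K) : Om p) +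
            (if j = i then 1 else 0) * (x : Om p)) ^ β j := by
        rw [← Finset.prod_pow_eq_pow_sum, ← Finset.prod_mul_distrib]
        exact Finset.prod_congr rfl fun j _ => mul_pow _ _ _
      rw [h5]
      have h6 : ∀ j, ((((QUA_O p K).subtype (s j) : K) : Om p) +
          (((if j = i then 1 else 0 : K) : K) : Om p) * (x : Om p)) =
          (((s j : K) : Om p) + (if j = i then 1 else 0) * (x : Om p)) := by
        intro j
        split_ifs
        · rfl
        · rfl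
      simp only [h6]
      exact QUA_alg _ _ _ _ hp0
    rw [h3, norm_mul]
    refine (mul_le_of_le_one_left (norm_nonneg _) ?_).trans hx2
    rw [← hw2]
    exact hwp.le

end Pool.CubicTate
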