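import Pool.Agent.Work.MP_eb5f03_ct.Interface

/-! # Block RAM -/

set_option autoImplicit false

namespace Pool.CubicTate

theorem p_RAM (hR : S_RDG) (hT : S_TOW) : S_RAM := by
  intro p _ L hL x hx hv d hd y hy
  have : FiniteDimensional ℚ_[p] L := hL
  have hint : IsIntegral L y := by
    refine ⟨Polynomial.X ^ d - Polynomial.C x, Polynomial.monic_X_pow_sub_C _ hd.ne', ?_⟩
    rw [Polynomial.eval₂_sub, Polynomial.eval₂_pow, Polynomial.eval₂_X, Polynomial.eval₂_C, hy]
    exact sub_self _
  -- the field obtained by adjoining `y`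
  let E : IntermediateField L (Om p) := IntermediateField.adjoin L {y}
  have hE : FiniteDimensional L E := IntermediateField.adjoin.finiteDimensional hint
  let L' : Fld p := IntermediateField.restrictScalars ℚ_[p] E
  have hyE : y ∈ E := IntermediateField.mem_adjoin_simple_self L y
  have hLL' : L ≤ L' := by
    intro z hz
    exact E.algebraMap_mem ⟨z, hz⟩
  have hfin : FiniteDimensional ℚ_[p] E := FiniteDimensional.trans ℚ_[p] L E
  have hL' : IsFin p L' := hfin
  -- degree bound
  have hle : Module.finrank L E ≤ d := by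
    have h1 : Module.finrank L E = (minpoly L y).natDegree := IntermediateField.adjoin.finrank hint
    rw [h1]
    have h2 : (Polynomial.X ^ d - Polynomial.C x : Polynomial L).natDegree = d :=
      Polynomial.natDegree_X_pow_sub_C
    rw [← h2]
    apply Polynomial.natDegree_le_of_dvd
    · apply minpoly.dvd
      rw [map_sub, map_pow, Polynomial.aeval_X, Polynomial.aeval_C, hy]
      exact sub_self _
    · exact (Polynomial.monic_X_pow_sub_C x hd.ne').ne_zero
  have hpos : 0 < Module.finrank L E := Module.finrank_pos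
  -- norm of `y`
  let yE : E := ⟨y, hyE⟩
  have hyE0 : yE ≠ 0 := by
    intro h0
    have : y = 0 := congrArg Subtype.val h0
    rw [this, zero_pow hd.ne'] at hy
    exact hx (Subtype.ext hy.symm)
  have hpow : yE ^ d = algebraMap L E x := Subtype.ext hy
  let z : L := Algebra.norm L yE
  have hz0 : z ≠ 0 := by
    show Algebra.norm L yE ≠ 0
    rwa [Ne, Algebra.norm_eq_zero_iff]
  have hzpow : z ^ d = x ^ Module.finrank L E := by
    show (Algebra.norm L yE) ^ d = _
    rw [← map_pow, hpow, Algebra.norm_algebraMap]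
  obtain ⟨rpos, -, rdvd⟩ := hR p L hL
  have hval : (d : ℤ) * (Algebra.norm ℚ_[p] z).valuation =
      (Module.finrank L E : ℤ) * (resDeg p L : ℤ) := by
    have h1 := congrArg (fun w => (Algebra.norm ℚ_[p] w).valuation) hzpow
    simp only [map_pow, Padic.valuation_pow] at h1
    rw [hv] at h1
    exact h1
  obtain ⟨c, hc⟩ := rdvd z hz0
  have hrp : (0 : ℤ) < (resDeg p L : ℤ) := by exact_mod_cast rpos
  have hdc : (d : ℤ) * c = (Module.finrank L E : ℤ) := by
    rw [hc] at hval
    have h2 : ((d : ℤ) * c) * (resDeg p L : ℤ) =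
        (Module.finrank L E : ℤ) * (resDeg p L : ℤ) := by
      rw [← hval]; ring
    exact mul_right_cancel₀ hrp.ne' h2
  have hde : d = Module.finrank L E := by
    apply le_antisymm _ hle
    apply Nat.le_of_dvd hpos
    have : (d : ℤ) ∣ (Module.finrank L E : ℤ) := ⟨c, hdc.symm⟩
    exact_mod_cast this
  have hc1 : c = 1 := by
    rw [← hde] at hdc
    have hd0 : (d : ℤ) ≠ 0 := by exact_mod_cast hd.ne'
    exact mul_left_cancel₀ hd0 (by rw [hdc, mul_one])
  have hnz : (Algebra.norm ℚ_[p] z).valuation = (resDeg p L : ℤ) := by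
    rw [hc, hc1, mul_one]
  have hny : Algebra.norm ℚ_[p] z = Algebra.norm ℚ_[p] yE := Algebra.norm_norm
  refine ⟨L', hL', hLL', hyE, ?_, ?_⟩
  · show Module.finrank ℚ_[p] E = d * Module.finrank ℚ_[p] L
    rw [hde, mul_comm]
    exact (Module.finrank_mul_finrank ℚ_[p] L E).symm
  · apply Nat.dvd_antisymm
    · have h3 := (hR p L' hL').2.2 (yE : L') hyE0
      have h4 : (Algebra.norm ℚ_[p] (yE : L')).valuation = (resDeg p L : ℤ) := by
        rw [← hnz, hny]
      have h5 : (resDeg p L' : ℤ) ∣ (resDeg p L : ℤ) :=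
        Eq.mp (congrArg (fun v : ℤ => (resDeg p L' : ℤ) ∣ v) h4) h3
      exact_mod_cast h5
    · exact (hT p L L' hL hL' hLL').1

end Pool.CubicTate
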