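import Pool.Agent.Work.MP_eb5f03_ct.Interface

/-!
# Block RDG
-/

set_option autoImplicit false

namespace Pool.CubicTate

theorem p_RDG : S_RDG := by
  intro p _ L hL
  have : FiniteDimensional ℚ_[p] L := hL
  have hn0 : ∀ x : L, x ≠ 0 → Algebra.norm ℚ_[p] x ≠ 0 := fun x hx =>
    (Algebra.norm_ne_zero_iff).2 hx
  have hmul : ∀ x y : L, x ≠ 0 → y ≠ 0 → (Algebra.norm ℚ_[p] (x * y)).valuation =
      (Algebra.norm ℚ_[p] x).valuation + (Algebra.norm ℚ_[p] y).valuation := by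
    intro x y hx hy
    rw [map_mul]
    exact Padic.valuation_mul (hn0 x hx) (hn0 y hy)
  have hpow : ∀ (x : L) (n : ℕ), (Algebra.norm ℚ_[p] (x ^ n)).valuation =
      n * (Algebra.norm ℚ_[p] x).valuation := by
    intro x n
    rw [map_pow]
    exact Padic.valuation_pow _ _
  have hinv : ∀ z : L, z ≠ 0 → (Algebra.norm ℚ_[p] z⁻¹).valuation =
      -(Algebra.norm ℚ_[p] z).valuation := by
    intro z hz
    have h1 := hmul z z⁻¹ hz (inv_ne_zero hz)
    rw [mul_inv_cancel₀ hz, map_one, Padic.valuation_one] at h1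
    linarith
  have hzpow : ∀ (x : L) (k : ℤ), x ≠ 0 → (Algebra.norm ℚ_[p] (x ^ k)).valuation =
      k * (Algebra.norm ℚ_[p] x).valuation := by
    intro x k hx
    cases k with
    | ofNat n =>
      rw [Int.ofNat_eq_natCast, zpow_natCast]
      exact hpow x n
    | negSucc n =>
      rw [zpow_negSucc, hinv _ (pow_ne_zero _ hx), hpow, Int.negSucc_eq]
      push_cast
      ring
  set S : Set ℕ := {d : ℕ | 0 < d ∧ ∃ x : L, x ≠ 0 ∧
    (Algebra.norm ℚ_[p] x).valuation = (d : ℤ)} with hS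
  have hne : S.Nonempty := by
    refine ⟨Module.finrank ℚ_[p] L, Module.finrank_pos, ((p : ℕ) : L), ?_, ?_⟩
    · have hp : (p : ℕ) ≠ 0 := (Fact.out : p.Prime).ne_zero
      exact_mod_cast hp
    · have h1 : ((p : ℕ) : L) = algebraMap ℚ_[p] L (p : ℚ_[p]) := by simp
      rw [h1, Algebra.norm_algebraMap, Padic.valuation_pow, Padic.valuation_p, mul_one]
  have hmem : sInf S ∈ S := Nat.sInf_mem hne
  have hr : resDeg p L = sInf S := rfl
  rw [← hr] at hmem
  obtain ⟨hd, x, hx, hvx⟩ := hmem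
  refine ⟨hd, ⟨x, hx, hvx⟩, ?_⟩
  intro y hy
  by_contra hcon
  set m : ℤ := (Algebra.norm ℚ_[p] y).valuation with hm
  set d : ℤ := (resDeg p L : ℤ) with hdd
  have hdpos : 0 < d := by rw [hdd]; exact_mod_cast hd
  have hrem0 : m % d ≠ 0 := fun h => hcon (Int.dvd_of_emod_eq_zero h)
  have hremnn : 0 ≤ m % d := Int.emod_nonneg _ hdpos.ne'
  have hremlt : m % d < d := Int.emod_lt_of_pos _ hdpos
  have hz : x ^ (-(m / d)) ≠ 0 := zpow_ne_zero _ hx
  have hval : (Algebra.norm ℚ_[p] (y * x ^ (-(m / d)))).valuation = m % d := by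
    rw [hmul _ _ hy hz, hzpow _ _ hx, hvx, ← hm]
    have h := Int.emod_add_mul_ediv m d
    linarith
  have hin : (m % d).toNat ∈ S := by
    refine ⟨by omega, y * x ^ (-(m / d)), mul_ne_zero hy hz, ?_⟩
    rw [hval, Int.toNat_of_nonneg hremnn]
  have hle : resDeg p L ≤ (m % d).toNat := Nat.sInf_le hin
  have : d ≤ m % d := by
    rw [hdd]
    calc ((resDeg p L : ℕ) : ℤ) ≤ ((m % d).toNat : ℤ) := by exact_mod_cast hle
      _ = m % d := Int.toNat_of_nonneg hremnn
  omega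

end Pool.CubicTate
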