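import Pool.Agent.Work.MP_eb5f03_ct.Interface

set_option autoImplicit false

namespace Pool.CubicTate

open Matrix

theorem RES_eq {k : Type} [Field k] (M : Matrix (Fin 20) (Fin 20) k) (s : Fin 20 → k) :
    ∑ i, ∑ j, s i * M i j * s j = s ⬝ᵥ (M *ᵥ s) := by
  simp only [dotProduct, mulVec, Finset.mul_sum]
  exact Finset.sum_congr rfl fun i _ => Finset.sum_congr rfl fun j _ => by ring

theorem RES_zero (k : Type) [Field k] [Finite k] (M : Matrix (Fin 20) (Fin 20) k) (i₀ : Fin 20) :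
    ∃ s : Fin 20 → k, s ≠ 0 ∧ s i₀ = 0 ∧ s ⬝ᵥ (M *ᵥ s) = 0 := by
  classical
  have := Fintype.ofFinite k
  obtain ⟨p, hp⟩ := CharP.exists k
  have hprime : p.Prime := by
    rcases CharP.char_is_prime_or_zero k p with h | h
    · exact h
    · subst h
      have : CharZero k := CharP.charP_to_charZero k
      exact absurd ‹Finite k› (not_finite_iff_infinite.2 (CharZero.infinite k))
  obtain ⟨f, hf⟩ : ∃ f : MvPolynomial (Fin 20) k, f = ∑ i, ∑ j,
    MvPolynomial.C (M i j) * (MvPolynomial.X i * MvPolynomial.X j) := ⟨_, rfl⟩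
  have hdeg : f.totalDegree ≤ 2 := by
    rw [hf]
    refine MvPolynomial.totalDegree_finsetSum_le fun i _ => ?_
    refine MvPolynomial.totalDegree_finsetSum_le fun j _ => ?_
    refine (MvPolynomial.totalDegree_mul _ _).trans ?_
    rw [MvPolynomial.totalDegree_C, zero_add]
    refine (MvPolynomial.totalDegree_mul _ _).trans ?_
    rw [MvPolynomial.totalDegree_X, MvPolynomial.totalDegree_X]
  have hev : ∀ s : Fin 20 → k, MvPolynomial.eval s f = s ⬝ᵥ (M *ᵥ s) := by
    intro s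
    rw [hf, ← RES_eq]
    simp only [map_sum, map_mul, MvPolynomial.eval_C, MvPolynomial.eval_X]
    exact Finset.sum_congr rfl fun i _ => Finset.sum_congr rfl fun j _ => by ring
  have hdX : (MvPolynomial.X i₀ : MvPolynomial (Fin 20) k).totalDegree = 1 :=
    MvPolynomial.totalDegree_X _
  have hcw := char_dvd_card_solutions_of_add_lt p (f₁ := f)
    (f₂ := (MvPolynomial.X i₀ : MvPolynomial (Fin 20) k)) (by
      rw [Fintype.card_fin, hdX]; omega)
  by_contra hcon
  push Not at hcon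
  have hone : Fintype.card {x : Fin 20 → k // MvPolynomial.eval x f = 0 ∧
      MvPolynomial.eval x (MvPolynomial.X i₀ : MvPolynomial (Fin 20) k) = 0} = 1 := by
    rw [Fintype.card_eq_one_iff]
    refine ⟨⟨0, by rw [hev]; simp⟩, ?_⟩
    rintro ⟨y, hy, hy'⟩
    by_contra hne
    have hy0 : y ≠ 0 := fun h => hne (Subtype.ext h)
    rw [hev] at hy
    rw [MvPolynomial.eval_X] at hy'
    exact hcon y hy0 hy' hy
  rw [hone] at hcw
  exact hprime.one_lt.ne' (Nat.dvd_one.1 hcw)

theorem RES_ker {k : Type} [Field k] (M : Matrix (Fin 20) (Fin 20) k) (i j : Fin 20)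
    (h2 : (M.submatrix j.succAbove i.succAbove).det ≠ 0) (s : Fin 20 → k) (hs : s i = 0)
    (hM : M *ᵥ s = 0) : s = 0 := by
  have h3 : (M.submatrix j.succAbove i.succAbove) *ᵥ (fun l => s (i.succAbove l)) = 0 := by
    funext l
    have h4 := congrFun hM (j.succAbove l)
    simp only [mulVec, dotProduct, Pi.zero_apply, submatrix_apply] at h4 ⊢
    rw [Fin.sum_univ_succAbove _ i, hs, mul_zero, zero_add] at h4
    exact h4
  have h5 := Matrix.eq_zero_of_mulVec_eq_zero h2 h3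
  funext l
  rcases Fin.eq_self_or_eq_succAbove i l with h6 | ⟨l', h6⟩
  · rw [h6, hs]; rfl
  · rw [h6]
    exact congrFun h5 l'

theorem p_RES : S_RES := by
  intro k _ _ h2 M hM hadj β
  classical
  obtain ⟨j₀, i₀, hadj⟩ := hadj
  obtain ⟨s₀, hs₀, hs₁, hq⟩ := RES_zero k M i₀
  obtain ⟨i, hi⟩ : ∃ i, (M *ᵥ s₀) i ≠ 0 := by
    by_contra h
    push Not at h
    exact hs₀ (RES_ker M i₀ j₀ hadj s₀ hs₁ (funext h))
  by_cases hβ : β = 0
  · refine ⟨s₀, ?_, i, hi⟩
    rw [RES_eq, hβ, hq, add_zero]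
  have hsym : s₀ ⬝ᵥ (M *ᵥ Pi.single i 1) = (M *ᵥ s₀) i := by
    rw [dotProduct_mulVec, dotProduct_single, mul_one, ← mulVec_transpose, hM.eq]
  obtain ⟨lam, hlam⟩ : ∃ lam, lam = (-β - M i i) / (2 * (M *ᵥ s₀) i) := ⟨_, rfl⟩
  have hq2 : (Pi.single i 1 + lam • s₀) ⬝ᵥ (M *ᵥ (Pi.single i 1 + lam • s₀)) =
      M i i + 2 * lam * (M *ᵥ s₀) i := by
    rw [mulVec_add, mulVec_smul, add_dotProduct, dotProduct_add, dotProduct_add, smul_dotProduct,
      smul_dotProduct, dotProduct_smul, dotProduct_smul, hsym, hq, single_dotProduct,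
      single_dotProduct]
    simp
    ring
  have hval : β + (Pi.single i 1 + lam • s₀) ⬝ᵥ (M *ᵥ (Pi.single i 1 + lam • s₀)) = 0 := by
    rw [hq2, hlam]
    field_simp
    ring
  refine ⟨Pi.single i 1 + lam • s₀, ?_, ?_⟩
  · rw [RES_eq]
    exact hval
  · by_contra h
    push Not at h
    have h0 : M *ᵥ (Pi.single i 1 + lam • s₀) = 0 := funext h
    rw [h0, dotProduct_zero, add_zero] at hval
    exact hβ hval

end Pool.CubicTate
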