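import Pool.Agent.Work.MP_eb5f03_ct.Interface

/-! # Block TOW -/

set_option autoImplicit false

namespace Pool.CubicTate

theorem p_TOW (h : S_RDG) : S_TOW := by
  intro p _ K L hK hL hKL
  have : FiniteDimensional ℚ_[p] K := hK
  have : FiniteDimensional ℚ_[p] L := hL
  let : Algebra K L := (IntermediateField.inclusion hKL).toRingHom.toAlgebra
  have : IsScalarTower ℚ_[p] K L := IsScalarTower.of_algebraMap_eq (fun x => rfl)
  have : FiniteDimensional K L := FiniteDimensional.right ℚ_[p] K L
  constructor
  · obtain ⟨x, hx, hv⟩ := (h p L hL).2.1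
    have h1 := (h p K hK).2.2 (Algebra.norm K x) (by rwa [Ne, Algebra.norm_eq_zero_iff])
    rw [Algebra.norm_norm, hv] at h1
    exact_mod_cast h1
  · exact ⟨Module.finrank K L, (Module.finrank_mul_finrank ℚ_[p] K L).symm⟩

end Pool.CubicTate
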