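import Pool.Agent.Work.MP_eb5f03_ct.Interface

set_option autoImplicit false

/-!
# Block TRI (typed by helper21): the Galois group acts trivially on the lattice
-/

namespace Pool.CubicTate

theorem TRI_zsmul {N : Type} [AddCommGroup N] (B : N → N → ℤ)
    (hB : ∀ x y z, B (x + y) z = B x z + B y z) (m : ℤ) (x z : N) : B (m • x) z = m * B x z := by
  have h1 := map_zsmul (AddMonoidHom.mk' (fun x => B x z) fun a b => hB a b z) m x
  rw [smul_eq_mul] at h1
  exact h1

theorem p_TRI : S_TRI := by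
  intro p _ S K A _ h psi C J Q hpsi g x

  obtain ⟨j, k', hj⟩ := Q.act_c g x
  rw [Function.iterate_fixed (hpsi _ (Q.c_mem x))] at hj
  obtain ⟨y, hy⟩ : ∃ y, y = Q.act g x - x := ⟨_, rfl⟩
  have hyx : y + x = Q.act g x := by rw [hy, sub_add_cancel]
  obtain ⟨k, hk⟩ := Q.c_add y x
  rw [hyx, hj] at hk
  have hc : Cong h (Q.c y) 0 := by
    refine ⟨k' - k, ?_⟩
    have h1 : Q.c x + k' • h = Q.c x + (Q.c y + k • h) := by
      rw [hk]
      abel
    have h2 := add_left_cancel h1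
    rw [sub_smul, h2]
    abel
  obtain ⟨m, n, hmn⟩ := (Q.c_ker y).1 hc
  have hB1 : Q.B y Q.l1 = 0 := by
    have h1 := Q.act_B g x Q.l1
    rw [Q.act_l1, ← hyx, Q.B_add] at h1
    omega
  have hB2 : Q.B y Q.l2 = 0 := by
    have h1 := Q.act_B g x Q.l2
    rw [Q.act_l2, ← hyx, Q.B_add] at h1
    omega
  have h21 : Q.B Q.l2 Q.l1 = -1 := by rw [Q.B_symm]; exact Q.B12
  rw [hmn, Q.B_add, TRI_zsmul Q.B Q.B_add, TRI_zsmul Q.B Q.B_add] at hB1 hB2
  rw [Q.B11, h21] at hB1
  rw [Q.B12, Q.B22] at hB2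
  have hm : m = 0 := by omega
  have hn : n = 0 := by omega
  rw [← hyx, hmn, hm, hn, zero_smul, zero_smul, zero_add, zero_add]

end Pool.CubicTate
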