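import Pool.Agent.Work.MP_eb5f03_ct.Interface

/-! # Block UNR (helper71) -/

set_option autoImplicit false

namespace Pool.CubicTate

open Polynomial

/-- `ℤ_p` in the algebraic closure. -/
noncomputable def UNR_i (p : ℕ) [Fact p.Prime] : ℤ_[p] →+* Om p :=
  (algebraMap ℚ_[p] (Om p)).comp (algebraMap ℤ_[p] ℚ_[p])

theorem UNR_norm_i {p : ℕ} [Fact p.Prime] (a : ℤ_[p]) : ‖UNR_i p a‖ = ‖a‖ := by
  change ‖algebraMap ℚ_[p] (Om p) (algebraMap ℤ_[p] ℚ_[p] a)‖ = ‖a‖
  rw [norm_algebraMap']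
  rfl

theorem UNR_le {p : ℕ} [Fact p.Prime] (P : ℤ_[p][X]) (θ : Om p) (hθ : ‖θ‖ ≤ 1) :
    ‖P.eval₂ (UNR_i p) θ‖ ≤ 1 := by
  induction P using Polynomial.induction_on' with
  | add a b ha hb =>
    rw [eval₂_add]
    exact le_trans (IsUltrametricDist.norm_add_le_max _ _) (max_le ha hb)
  | monomial n a =>
    rw [eval₂_monomial, norm_mul, norm_pow, UNR_norm_i]
    exact mul_le_one₀ (PadicInt.norm_le_one a) (by positivity) (pow_le_one₀ (norm_nonneg _) hθ)

/-- A root of a monic polynomial over `ℤ_p` has norm at most one. -/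
theorem UNR_root {p : ℕ} [Fact p.Prime] (g : ℤ_[p][X]) (hg : g.Monic) (θ : Om p)
    (h0 : g.eval₂ (UNR_i p) θ = 0) : ‖θ‖ ≤ 1 := by
  by_contra hlt
  push Not at hlt
  have hθ0 : θ ≠ 0 := by
    intro h
    rw [h, norm_zero] at hlt
    linarith
  have h1 : g.eval₂ (UNR_i p) θ = θ ^ g.natDegree +
      ∑ k ∈ Finset.range g.natDegree, UNR_i p (g.coeff k) * θ ^ k := by
    rw [eval₂_eq_sum_range, Finset.sum_range_succ, hg.coeff_natDegree, map_one, one_mul, add_comm]
  rw [h0] at h1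
  have h2 : ‖∑ k ∈ Finset.range g.natDegree, UNR_i p (g.coeff k) * θ ^ k‖ < ‖θ‖ ^ g.natDegree := by
    have h3 : ∀ s : Finset ℕ, s ⊆ Finset.range g.natDegree →
        ‖∑ k ∈ s, UNR_i p (g.coeff k) * θ ^ k‖ < ‖θ‖ ^ g.natDegree := by
      intro s
      induction s using Finset.induction_on with
      | empty =>
        intro _
        rw [Finset.sum_empty, norm_zero]
        positivity
      | insert a s ha ih =>
        intro hs
        rw [Finset.sum_insert ha]
        refine lt_of_le_of_lt (IsUltrametricDist.norm_add_le_max _ _) (max_lt ?_ ?_)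
        · have ha' : a < g.natDegree := Finset.mem_range.mp (hs (Finset.mem_insert_self a s))
          rw [norm_mul, norm_pow, UNR_norm_i]
          calc ‖g.coeff a‖ * ‖θ‖ ^ a ≤ 1 * ‖θ‖ ^ a :=
                mul_le_mul_of_nonneg_right (PadicInt.norm_le_one _) (by positivity)
            _ = ‖θ‖ ^ a := one_mul _
            _ < ‖θ‖ ^ g.natDegree := pow_lt_pow_right₀ hlt ha'
        · exact ih (fun x hx => hs (Finset.mem_insert_of_mem hx))
    exact h3 _ (Finset.Subset.refl _)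
  have h4 : θ ^ g.natDegree = -∑ k ∈ Finset.range g.natDegree, UNR_i p (g.coeff k) * θ ^ k :=
    eq_neg_of_add_eq_zero_left h1.symm
  have h5 : ‖θ ^ g.natDegree‖ = ‖∑ k ∈ Finset.range g.natDegree, UNR_i p (g.coeff k) * θ ^ k‖ := by
    rw [h4, norm_neg]
  rw [norm_pow] at h5
  linarith

theorem UNR_dvd {p : ℕ} [Fact p.Prime] (Q : ℤ_[p][X]) (hQ : Q.map PadicInt.toZMod = 0) :
    ∃ W : ℤ_[p][X], Q = C (p : ℤ_[p]) * W := by
  have h1 : C (p : ℤ_[p]) ∣ Q := by
    rw [Polynomial.C_dvd_iff_dvd_coeff]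
    intro k
    have h2 : PadicInt.toZMod (Q.coeff k) = 0 := by
      rw [← Polynomial.coeff_map, hQ, Polynomial.coeff_zero]
    have h3 : Q.coeff k ∈ RingHom.ker (PadicInt.toZMod (p := p)) := h2
    rw [PadicInt.ker_toZMod, PadicInt.maximalIdeal_eq_span_p, Ideal.mem_span_singleton] at h3
    exact h3
  exact h1

/-- If the reductions of `P` and `g` are coprime, then `P` has norm one at the roots of `g`. -/
theorem UNR_one {p : ℕ} [Fact p.Prime] (P g : ℤ_[p][X])
    (hc : IsCoprime (P.map PadicInt.toZMod) (g.map (PadicInt.toZMod (p := p)))) (θ : Om p)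
    (hθ : ‖θ‖ ≤ 1) (h0 : g.eval₂ (UNR_i p) θ = 0) : ‖P.eval₂ (UNR_i p) θ‖ = 1 := by
  obtain ⟨U₀, V₀, hUV⟩ := hc
  have hsurj : Function.Surjective (PadicInt.toZMod (p := p)) := ZMod.ringHom_surjective _
  obtain ⟨U, rfl⟩ := Polynomial.map_surjective _ hsurj U₀
  obtain ⟨V, rfl⟩ := Polynomial.map_surjective _ hsurj V₀
  obtain ⟨W, hW⟩ := UNR_dvd (U * P + V * g - 1) (by
    rw [Polynomial.map_sub, Polynomial.map_add, Polynomial.map_mul, Polynomial.map_mul, hUV,
      Polynomial.map_one, sub_self])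
  have h1 : U.eval₂ (UNR_i p) θ * P.eval₂ (UNR_i p) θ =
      1 + UNR_i p (p : ℤ_[p]) * W.eval₂ (UNR_i p) θ := by
    have h2 := congrArg (fun R : ℤ_[p][X] => R.eval₂ (UNR_i p) θ) hW
    simp only [eval₂_sub, eval₂_add, eval₂_mul, eval₂_one, eval₂_C, h0, mul_zero, add_zero] at h2
    rw [← h2]
    ring
  have h3 : ‖UNR_i p (p : ℤ_[p]) * W.eval₂ (UNR_i p) θ‖ < 1 := by
    rw [norm_mul, UNR_norm_i]
    calc ‖(p : ℤ_[p])‖ * ‖W.eval₂ (UNR_i p) θ‖ ≤ ‖(p : ℤ_[p])‖ * 1 :=
          mul_le_mul_of_nonneg_left (UNR_le W θ hθ) (norm_nonneg _)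
      _ < 1 := by
          rw [mul_one]
          rw [PadicInt.norm_p]
          exact inv_lt_one_of_one_lt₀ (by exact_mod_cast (Fact.out : p.Prime).one_lt)
  have h4 : ‖(1 : Om p) + UNR_i p (p : ℤ_[p]) * W.eval₂ (UNR_i p) θ‖ = 1 := by
    have h5 := IsUltrametricDist.norm_add_eq_max_of_norm_ne_norm
      (x := (1 : Om p)) (y := UNR_i p (p : ℤ_[p]) * W.eval₂ (UNR_i p) θ) (by
        rw [norm_one]
        exact (ne_of_gt h3))
    rw [h5, norm_one, max_eq_left h3.le]
  rw [← h1, norm_mul] at h4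
  have h6 := UNR_le U θ hθ
  have h7 := UNR_le P θ hθ
  refine le_antisymm h7 ?_
  have h8 : ‖U.eval₂ (UNR_i p) θ‖ * ‖P.eval₂ (UNR_i p) θ‖ ≤ 1 * ‖P.eval₂ (UNR_i p) θ‖ :=
    mul_le_mul_of_nonneg_right h6 (norm_nonneg _)
  linarith

/-- Scaling a polynomial over `ℚ_p`. -/
theorem UNR_scale {p : ℕ} [Fact p.Prime] (R : ℚ_[p][X]) (hR : R ≠ 0) :
    ∃ (c : ℚ_[p]) (P : ℤ_[p][X]), c ≠ 0 ∧ R = C c * P.map (algebraMap ℤ_[p] ℚ_[p]) ∧
      P.map (PadicInt.toZMod (p := p)) ≠ 0 ∧ P.degree = R.degree := by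
  obtain ⟨k, hk, hmax⟩ := Finset.exists_max_image R.support (fun j => ‖R.coeff j‖)
    (Polynomial.support_nonempty.mpr hR)
  have hc0 : R.coeff k ≠ 0 := Polynomial.mem_support_iff.mp hk
  have hcn : 0 < ‖R.coeff k‖ := norm_pos_iff.mpr hc0
  have hle : ∀ j, ‖R.coeff j‖ ≤ ‖R.coeff k‖ := by
    intro j
    by_cases hj : j ∈ R.support
    · exact hmax j hj
    · rw [Polynomial.notMem_support_iff.mp hj, norm_zero]
      exact norm_nonneg _
  have hlift : C (R.coeff k)⁻¹ * R ∈ Polynomial.lifts (algebraMap ℤ_[p] ℚ_[p]) := by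
    rw [Polynomial.lifts_iff_coeff_lifts]
    intro j
    rw [Polynomial.coeff_C_mul]
    refine ⟨⟨(R.coeff k)⁻¹ * R.coeff j, ?_⟩, rfl⟩
    rw [norm_mul, norm_inv, inv_mul_eq_div, div_le_one hcn]
    exact hle j
  obtain ⟨P, hP1, hP2⟩ := Polynomial.exists_degree_eq_of_mem_lifts hlift
  refine ⟨R.coeff k, P, hc0, ?_, ?_, ?_⟩
  · rw [hP1, ← mul_assoc, ← C_mul, mul_inv_cancel₀ hc0, C_1, one_mul]
  · intro h0
    have h1 : P.coeff k = 1 := by
      have h2 : (P.map (algebraMap ℤ_[p] ℚ_[p])).coeff k = 1 := by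
        rw [hP1, Polynomial.coeff_C_mul, inv_mul_cancel₀ hc0]
      rw [Polynomial.coeff_map] at h2
      exact (FaithfulSMul.algebraMap_injective ℤ_[p] ℚ_[p]) (by rw [h2, map_one])
    have h3 : (P.map (PadicInt.toZMod (p := p))).coeff k = 0 := by rw [h0, Polynomial.coeff_zero]
    rw [Polynomial.coeff_map, h1, map_one] at h3
    exact one_ne_zero h3
  · rw [hP2, Polynomial.degree_C_mul (inv_ne_zero hc0)]

theorem UNR_irr (p : ℕ) [Fact p.Prime] (n : ℕ) (hn : 0 < n) :
    ∃ g₀ : (ZMod p)[X], g₀.Monic ∧ Irreducible g₀ ∧ g₀.natDegree = n := by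
  obtain ⟨α, hα⟩ := Field.exists_primitive_element (ZMod p) (GaloisField p n)
  have hint : IsIntegral (ZMod p) α := IsIntegral.of_finite (ZMod p) α
  refine ⟨minpoly (ZMod p) α, minpoly.monic hint, minpoly.irreducible hint, ?_⟩
  rw [← IntermediateField.adjoin.finrank hint, hα, IntermediateField.finrank_top',
    GaloisField.finrank p hn.ne']

theorem p_UNR (hRDG : S_RDG) : S_UNR := by
  intro p _ n hn
  obtain ⟨g₀, hg₀m, hg₀i, hg₀n⟩ := UNR_irr p n hn
  have hsurj : Function.Surjective (PadicInt.toZMod (p := p)) := ZMod.ringHom_surjective _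
  have hlift : g₀ ∈ Polynomial.lifts (PadicInt.toZMod (p := p)) := by
    rw [Polynomial.mem_lifts]
    exact Polynomial.map_surjective _ hsurj g₀
  obtain ⟨g, hg1, hg2, hgm⟩ := Polynomial.lifts_and_natDegree_eq_and_monic hlift hg₀m
  have hgn : g.natDegree = n := by rw [hg2, hg₀n]
  have hgi : Irreducible g :=
    Polynomial.Monic.irreducible_of_irreducible_map (PadicInt.toZMod (p := p)) g hgm
      (by rw [hg1]; exact hg₀i)
  have hgQ : Irreducible (g.map (algebraMap ℤ_[p] ℚ_[p])) :=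
    (Polynomial.Monic.irreducible_iff_irreducible_map_fraction_map hgm).mp hgi
  have hgQm : (g.map (algebraMap ℤ_[p] ℚ_[p])).Monic := hgm.map _
  have hgQd : (g.map (algebraMap ℤ_[p] ℚ_[p])).natDegree = n := by
    rw [hgm.natDegree_map, hgn]
  obtain ⟨θ, hθ⟩ := IsAlgClosed.exists_aeval_eq_zero (Om p) (g.map (algebraMap ℤ_[p] ℚ_[p])) (by
    rw [Polynomial.degree_eq_natDegree hgQm.ne_zero, hgQd]
    exact_mod_cast hn.ne')
  have hmin : minpoly ℚ_[p] θ = g.map (algebraMap ℤ_[p] ℚ_[p]) :=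
    (minpoly.eq_of_irreducible_of_monic hgQ hθ hgQm).symm
  have hint : IsIntegral ℚ_[p] θ := Algebra.IsIntegral.isIntegral θ
  let L : Fld p := IntermediateField.adjoin ℚ_[p] {θ}
  have hLfin : FiniteDimensional ℚ_[p] L := IntermediateField.adjoin.finiteDimensional hint
  have hLdeg : Module.finrank ℚ_[p] L = n := by
    rw [IntermediateField.adjoin.finrank hint, hmin, hgQd]
  -- polynomials in integral coefficients at conjugates
  have hval : ∀ P : ℤ_[p][X], P.map (PadicInt.toZMod (p := p)) ≠ 0 → P.degree < g.degree →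
      ∀ θ' : Om p, g.eval₂ (UNR_i p) θ' = 0 → ‖P.eval₂ (UNR_i p) θ'‖ = 1 := by
    intro P hP hPd θ' hθ'
    refine UNR_one P g ?_ θ' (UNR_root g hgm θ' hθ') hθ'
    refine IsCoprime.symm ?_
    rw [hg1]
    refine (Irreducible.coprime_iff_not_dvd hg₀i).mpr ?_
    intro hd
    have h1 : g₀.degree ≤ (P.map (PadicInt.toZMod (p := p))).degree :=
      Polynomial.degree_le_of_dvd hd hP
    have h2 : (P.map (PadicInt.toZMod (p := p))).degree ≤ P.degree := Polynomial.degree_map_le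
    have h3 : g₀.degree = g.degree := by
      rw [Polynomial.degree_eq_natDegree hg₀m.ne_zero, Polynomial.degree_eq_natDegree hgm.ne_zero,
        hg₀n, hgn]
    rw [h3] at h1
    exact absurd (lt_of_le_of_lt (le_trans h1 h2) hPd) (lt_irrefl _)
  have hnorm : ∀ x : L, x ≠ 0 → ∃ m : ℤ, (Algebra.norm ℚ_[p] x).valuation = n * m := by
    intro x hx
    let pb := IntermediateField.adjoin.powerBasis hint
    obtain ⟨R, hRd, hxR⟩ := pb.exists_eq_aeval x
    have hR0 : R ≠ 0 := by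
      rintro rfl
      apply hx
      rw [hxR, map_zero]
    obtain ⟨c, P, hc, hRP, hP0, hPd⟩ := UNR_scale R hR0
    have hPdeg : P.degree < g.degree := by
      rw [hPd]
      have h1 : pb.dim = n := by
        rw [IntermediateField.adjoin.powerBasis_dim, hmin, hgQd]
      rw [h1] at hRd
      rw [Polynomial.degree_eq_natDegree hR0, Polynomial.degree_eq_natDegree hgm.ne_zero, hgn]
      exact_mod_cast hRd
    have hy : ∀ σ : L →ₐ[ℚ_[p]] Om p,
        σ (aeval pb.gen (P.map (algebraMap ℤ_[p] ℚ_[p]))) = P.eval₂ (UNR_i p) (σ pb.gen) := by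
      intro σ
      rw [← Polynomial.aeval_algHom_apply, aeval_def, eval₂_map]
      rfl
    have hroot : ∀ σ : L →ₐ[ℚ_[p]] Om p, g.eval₂ (UNR_i p) (σ pb.gen) = 0 := by
      intro σ
      have h1 : aeval pb.gen (g.map (algebraMap ℤ_[p] ℚ_[p])) = 0 := by
        have h2 : aeval θ (g.map (algebraMap ℤ_[p] ℚ_[p])) = 0 := hθ
        have h3 : ((aeval pb.gen (g.map (algebraMap ℤ_[p] ℚ_[p])) : L) : Om p) = 0 := by
          rw [← h2]
          have h4 := Polynomial.aeval_algHom_apply (IntermediateField.val L) pb.gen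
            (g.map (algebraMap ℤ_[p] ℚ_[p]))
          have h5 : (IntermediateField.val L) pb.gen = θ := by
            rw [IntermediateField.adjoin.powerBasis_gen]
            rfl
          rw [h5] at h4
          exact h4.symm
        exact_mod_cast h3
      have h6 : aeval (σ pb.gen) (g.map (algebraMap ℤ_[p] ℚ_[p])) = 0 := by
        rw [Polynomial.aeval_algHom_apply, h1, map_zero]
      rw [aeval_def, eval₂_map] at h6
      exact h6
    have hxy : x = algebraMap ℚ_[p] L c * aeval pb.gen (P.map (algebraMap ℤ_[p] ℚ_[p])) := by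
      rw [hxR, hRP, map_mul, aeval_C]
    have hy1 : ‖Algebra.norm ℚ_[p] (aeval pb.gen (P.map (algebraMap ℤ_[p] ℚ_[p])))‖ = 1 := by
      have h1 := Algebra.norm_eq_prod_embeddings ℚ_[p] (Om p)
        (aeval pb.gen (P.map (algebraMap ℤ_[p] ℚ_[p])))
      have h2 := congrArg norm h1
      rw [norm_algebraMap'] at h2
      rw [h2, norm_prod]
      refine Finset.prod_eq_one fun σ _ => ?_
      rw [hy σ]
      exact hval P hP0 hPdeg _ (hroot σ)
    have hy0 : Algebra.norm ℚ_[p] (aeval pb.gen (P.map (algebraMap ℤ_[p] ℚ_[p]))) ≠ 0 := by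
      intro h
      rw [h, norm_zero] at hy1
      exact zero_ne_one hy1
    have hyv : (Algebra.norm ℚ_[p] (aeval pb.gen (P.map (algebraMap ℤ_[p] ℚ_[p])))).valuation
        = 0 := by
      have h1 := Padic.norm_eq_zpow_neg_valuation hy0
      rw [hy1] at h1
      have hp1 : (1 : ℝ) < p := by exact_mod_cast (Fact.out : p.Prime).one_lt
      have h2 := (zpow_eq_one_iff_right₀ (by linarith) hp1.ne').mp h1.symm
      linarith
    refine ⟨c.valuation, ?_⟩
    rw [hxy, map_mul, Algebra.norm_algebraMap, hLdeg,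
      Padic.valuation_mul (pow_ne_zero _ hc) hy0, Padic.valuation_pow, hyv, add_zero]
  obtain ⟨hr1, ⟨x, hx0, hxv⟩, hr3⟩ := hRDG p L hLfin
  refine ⟨L, hLfin, hLdeg, ?_⟩
  have hp0 : (p : ℚ_[p]) ≠ 0 := by
    exact_mod_cast (Fact.out : p.Prime).ne_zero
  have hd1 : (resDeg p L : ℤ) ∣ (n : ℤ) := by
    have h1 := hr3 (algebraMap ℚ_[p] L (p : ℚ_[p])) (by
      intro h
      exact hp0 ((map_eq_zero_iff _ (algebraMap ℚ_[p] L).injective).mp h))
    rw [Algebra.norm_algebraMap, hLdeg, Padic.valuation_pow, Padic.valuation_p, mul_one] at h1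
    exact h1
  have hd2 : (n : ℤ) ∣ (resDeg p L : ℤ) := by
    obtain ⟨m, hm⟩ := hnorm x hx0
    rw [← hxv, hm]
    exact dvd_mul_right _ _
  exact Nat.dvd_antisymm (by exact_mod_cast hd1) (by exact_mod_cast hd2)

end Pool.CubicTate
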