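import Pool.Agent.Work.MP_eb5f03_ct.Interface

/-! # Block WIT (helper71) -/

set_option autoImplicit false

namespace Pool.CubicTate

/-- `L` and `L` seen over `K`, as extensions of `ℚ_p`. -/
noncomputable def WIT_e {p : ℕ} [Fact p.Prime] {K L : Fld p} (h : K ≤ L) :
    (↥(IntermediateField.extendScalars h)) ≃ₐ[ℚ_[p]] (↥L) where
  toFun z := ⟨z.1, z.2⟩
  invFun z := ⟨z.1, z.2⟩
  left_inv _ := rfl
  right_inv _ := rfl
  map_mul' _ _ := rfl
  map_add' _ _ := rfl
  commutes' _ := rfl

theorem p_WIT (hRDG : S_RDG) : S_WIT := by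
  intro p _ S K hK M g hg
  have hKf : FiniteDimensional ℚ_[p] K := hK
  obtain ⟨-, ⟨x, hx0, hxv⟩, -⟩ := hRDG p K hK
  obtain ⟨k, hk⟩ := S.wittenberg K hK M (Units.mk0 x hx0)
  refine ⟨k, ?_⟩
  have hn0 : ∀ y : (↥K)ˣ, Algebra.norm ℚ_[p] (y : K) ≠ 0 := fun y =>
    Algebra.norm_ne_zero_iff.mpr y.ne_zero
  -- the homomorphism
  let v : (↥K)ˣ →* Multiplicative ℤ :=
    { toFun := fun y => Multiplicative.ofAdd (Algebra.norm ℚ_[p] (y : K)).valuation
      map_one' := by
        rw [Units.val_one, map_one, Padic.valuation_one]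
        rfl
      map_mul' := by
        intro a b
        rw [Units.val_mul, map_mul, Padic.valuation_mul (hn0 a) (hn0 b)]
        rfl }
  have hv : ∀ y : (↥K)ˣ, Multiplicative.toAdd (v y) = (Algebra.norm ℚ_[p] (y : K)).valuation :=
    fun _ => rfl
  have hmem : ∀ y ∈ Subgroup.closure (norms p K (S.pt M)), g ∣ Multiplicative.toAdd (v y) := by
    intro y hy
    refine Subgroup.closure_induction (p := fun y _ => g ∣ Multiplicative.toAdd (v y)) ?_ ?_ ?_ ?_ hy
    · rintro y ⟨L, hKL, hL, hP, z, hz⟩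
      have hLf : FiniteDimensional ℚ_[p] L := hL
      obtain ⟨-, -, hL3⟩ := hRDG p L hL
      have hEf : FiniteDimensional ℚ_[p] (IntermediateField.extendScalars hKL) :=
        (WIT_e hKL).symm.toLinearEquiv.finiteDimensional
      have hEK : Module.Finite K (IntermediateField.extendScalars hKL) :=
        Module.Finite.of_restrictScalars_finite ℚ_[p] K _
      have hz0 : z ≠ 0 := by
        intro h0
        rw [h0, Algebra.norm_zero] at hz
        exact y.ne_zero hz
      rw [hv, hz, Algebra.norm_norm, ← Algebra.norm_eq_of_algEquiv (WIT_e hKL) z]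
      refine dvd_trans (hg L hL hKL hP) (hL3 _ ?_)
      intro h0
      exact hz0 ((map_eq_zero_iff (WIT_e hKL) (WIT_e hKL).injective).mp h0)
    · rw [map_one]
      exact dvd_zero g
    · intro a b _ _ ha hb
      rw [map_mul, toAdd_mul]
      exact dvd_add ha hb
    · intro a _ ha
      rw [map_inv, toAdd_inv]
      exact (dvd_neg).mpr ha
  have h1 := hmem _ hk
  rw [map_zpow, toAdd_zpow, hv, Units.val_mk0, hxv, smul_eq_mul] at h1
  exact h1

end Pool.CubicTate
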