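import Mathlib

/-!
# Codimension two cycles on cubic fourfolds over finite fields: definitions and published facts

`F` is the field with `p^r` elements, `p` odd, and `X` a smooth cubic hypersurface in the projective
space of dimension five over `F`.  The structure `CubicFourfold` lists the groups attached to `X` and to
its deformations over rings of integers of finite extensions of `ℚ_p`, and the published theorems on
them which the proof uses, each with its source.  Nothing in it speaks of the surjectivity of
`CH²(X) → CH²(X̄)^G` or of the vanishing of unramified cohomology.  Everything else in the proof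
(residue degrees, the lifting of invariant classes one at a time, the triviality of the Galois action
on the stability conditions, parity, norms) is proved in Lean.
-/

set_option autoImplicit false

namespace Pool.CubicTate

section Fields

variable (p : ℕ) [Fact p.Prime]

/-- An algebraic closure of `ℚ_p`, with the norm which extends the `p`-adic norm (`‖p‖ = 1/p`). -/
abbrev Om := PadicAlgCl p

/-- The fields between `ℚ_p` and its algebraic closure. -/
abbrev Fld := IntermediateField ℚ_[p] (PadicAlgCl p)

/-- The residue degree of a finite extension `L` of `ℚ_p`: the smallest positive integer of the form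
`v_p(N_{L/ℚ_p}(x))`, `x ∈ L`.  (The valuations of the norms from `L` are the multiples of the degree
of the residue field of `L` over the field with `p` elements.) -/
noncomputable def resDeg (L : Fld p) : ℕ :=
  sInf {d : ℕ | 0 < d ∧ ∃ x : L, x ≠ 0 ∧ (Algebra.norm ℚ_[p] x).valuation = (d : ℤ)}

/-- `L` is a finite extension of `ℚ_p`. -/
def IsFin (L : Fld p) : Prop := FiniteDimensional ℚ_[p] L

/-- The degree of `L` over `ℚ_p`. -/
noncomputable def deg (L : Fld p) : ℕ := Module.finrank ℚ_[p] L

/-- The group of the automorphisms of the algebraic closure which fix `K`. -/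
def Gal (K : Fld p) : Type := Om p ≃ₐ[K] Om p

/-- The elements of `K^*` which are norms from some finite extension `L` of `K` with the property
`P`. -/
def norms (K : Fld p) (P : Fld p → Prop) : Set (↥K)ˣ :=
  {y | ∃ (L : Fld p) (h : K ≤ L), IsFin p L ∧ P L ∧
    ∃ z : IntermediateField.extendScalars h, (y : K) = Algebra.norm K z}

/-- The value at `t` of the sum of the terms of degree `< N` of the power series `∑ f(α) t^α` in
twenty variables. -/
noncomputable def trunc (f : (Fin 20 → ℕ) → Om p) (N : ℕ) (t : Fin 20 → Om p) : Om p :=
  ∑ α ∈ (Finset.univ : Finset (Fin 20 → Fin N)).filter (fun α => ∑ i, (α i : ℕ) < N),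
    f (fun i => (α i : ℕ)) * ∏ i, t i ^ (α i : ℕ)

/-- `f(t) = 0`, for a power series `f` with coefficients of norm `≤ 1` and a point `t` whose
coordinates have norm `< 1` (`‖t‖` is the maximum of their norms): the sum of the terms of degree
`< N` has norm at most `‖t‖^N`, for all `N`. -/
def Vanishes (f : (Fin 20 → ℕ) → Om p) (t : Fin 20 → Om p) : Prop :=
  ∀ N : ℕ, ‖trunc p f N t‖ ≤ ‖t‖ ^ N

/-- Twice the symmetric matrix of the quadratic part of the power series `f`. -/
noncomputable def hess (f : (Fin 20 → ℕ) → Om p) : Matrix (Fin 20) (Fin 20) (Om p) :=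
  Matrix.of fun i j => if i = j then 2 * f (Pi.single i 2) else f (Pi.single i 1 + Pi.single j 1)

/-- The determinant of the matrix `hess f` without its `i`-th row and `j`-th column. -/
noncomputable def minor (f : (Fin 20 → ℕ) → Om p) (i j : Fin 20) : Om p :=
  ((hess p f).submatrix i.succAbove j.succAbove).det

/-- Proper schemes over the finite extensions `K` of `ℚ_p`: `chi` is the Euler characteristic of the
structure sheaf, `pt M L` says that `M` has a point over the extension `L` of `K`. -/
structure ProperSchemes where
  V : Fld p → Type
  chi : ∀ {K : Fld p}, V K → ℤ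
  pt : ∀ {K : Fld p}, V K → Fld p → Prop
  /-- O. Wittenberg, Sur une conjecture de Kato et Kuzumaki concernant les hypersurfaces de Fano,
  Duke Math. J. 164 (2015): `p`-adic fields satisfy strongly the property `C_1^1`, that is, for `M`
  proper over `K` the quotient of `K^*` by the subgroup generated by the norms from the finite
  extensions over which `M` has a point is killed by the Euler characteristic of any coherent sheaf
  on `M`, here of the structure sheaf; only the part prime to `p` of this is stated (compare Esnault,
  Levine, Wittenberg, Index of varieties over Henselian fields and Euler characteristic of coherent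
  sheaves, 2015). -/
  wittenberg : ∀ K : Fld p, IsFin p K → ∀ (M : V K) (x : (↥K)ˣ),
    ∃ k : ℕ, x ^ ((p : ℤ) ^ k * chi M) ∈ Subgroup.closure (norms p K (pt M))

end Fields

/-- `v` is primitive: `v = k w` only for `k = ±1`. -/
def Primitive {N : Type} [AddCommGroup N] (v : N) : Prop :=
  ∀ (k : ℤ) (w : N), v = k • w → k = 1 ∨ k = -1

section Cubics

variable {p : ℕ} [Fact p.Prime]

/-- `a` and `b` differ by a multiple of `h`. -/
def Cong {A : Type} [AddCommGroup A] (h a b : A) : Prop := ∃ k : ℤ, a = b + k • h

/-- The Kuznetsov component of a smooth cubic fourfold `X` over a finite extension `K` of `ℚ_p`,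
which has good reduction and contains a line over `K` which lies in no plane of `X`.  `A` is the
Néron-Severi group of the variety of lines of the geometric special fibre; `CH²` modulo torsion of the
geometric special fibre is embedded in it by the incidence correspondence (see `CubicFourfold`).  `h` is
the square of the hyperplane class, `C` the image of `CH²` of the geometric generic fibre in `A`, `J L`
the image of `CH²(X_L)` in `A` and `psi` the action on `A` of the Frobenius automorphism of the residue
field of `K`. -/
structure Kuznetsov (S : ProperSchemes p) (K : Fld p) {A : Type} [AddCommGroup A] (h : A)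
    (psi : A → A) (C : AddSubgroup A) (J : Fld p → AddSubgroup A) where
  /-- the numerical Grothendieck group of the Kuznetsov component over the algebraic closure, with
  the form `-χ(v, w)`: Kuznetsov 2010; Addington, Thomas 2014 (an even lattice, `l1` and `l2` are
  the projections of the structure sheaves of a line twisted by `1` and `2`) -/
  N : Type
  [grp : AddCommGroup N]
  B : N → N → ℤ
  B_add : ∀ x y z, B (x + y) z = B x z + B y z
  B_symm : ∀ x y, B x y = B y x
  B_even : ∀ x, Even (B x x)
  l1 : N
  l2 : N
  B11 : B l1 l1 = 2
  B22 : B l2 l2 = 2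
  B12 : B l1 l2 = -1
  /-- minus the second Chern class, which is additive modulo the square of the hyperplane class,
  composed with the (injective) specialisation `CH²(X_{K̄}) → A` -/
  c : N → A
  c_add : ∀ x y, Cong h (c (x + y)) (c x + c y)
  c_mem : ∀ x, c x ∈ C
  c_onto : ∀ a ∈ C, ∃ x, Cong h a (c x)
  /-- Addington, Thomas 2014, Proposition 2.3 -/
  c_ker : ∀ x, Cong h (c x) 0 ↔ ∃ m n : ℤ, x = m • l1 + n • l2
  /-- the action of the Galois group of `K` on `N`; on Chow groups it is given, through
  specialisation, by powers of the Frobenius automorphism -/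
  act : Gal p K → N → N
  act_B : ∀ g x y, B (act g x) (act g y) = B x y
  act_l1 : ∀ g, act g l1 = l1
  act_l2 : ∀ g, act g l2 = l2
  act_c : ∀ g x, ∃ j : ℕ, Cong h (c (act g x)) (psi^[j] (c x))
  /-- the distinguished connected component of the space of stability conditions on the Kuznetsov
  component over the algebraic closure of `K`: Bridgeland 2007; Bayer, Lahoz, Macri, Nuer, Perry,
  Stellari, Stability conditions in families (2021) -/
  St : Type
  [top : TopologicalSpace St]
  [t2 : T2Space St]
  [conn : PreconnectedSpace St]
  /-- the central charge: a local homeomorphism to its image (Bridgeland 2007, Theorem 1.2) -/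
  Z : St → N → ℂ
  Z_local : ∀ s, ∃ U ∈ nhds s, Set.InjOn Z U
  /-- the action of the Galois group of `K` -/
  gal : Gal p K → St → St
  gal_cont : ∀ g, Continuous (gal g)
  Z_gal : ∀ g s x, Z (gal g s) (act g x) = Z s x
  /-- Bayer, Lahoz, Macri, Stellari, Stability conditions on Kuznetsov components (2023), Theorem 1.2,
  with the support property for the whole lattice `N` (Bayer, Lahoz, Macri, Nuer, Perry, Stellari
  2021): the stability condition defined by a line over `K` which is not in a plane of `X` -/
  s0 : St
  s0_gal : ∀ g, gal g s0 = s0
  /-- `Gen v s`: the stability condition `s` is generic with respect to `v` (it is on no wall) -/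
  Gen : N → St → Prop
  gen : ∀ v, v ≠ 0 → ∃ s, Gen v s
  /-- Bayer, Lahoz, Macri, Nuer, Perry, Stellari 2021, Theorem 29.2: for `v` primitive with
  `(v, v) ≥ -2` and `s` generic the moduli space of `s`-stable objects of class `v` is a smooth
  projective hyperkaehler manifold (a point if `(v, v) = -2`), a deformation of the Hilbert scheme of
  `n` points on a K3 surface, `2 n = (v, v) + 2`, so that the Euler characteristic of its structure
  sheaf is `n + 1`.  If `v` and `s` are invariant under the Galois group of `K`, it is defined over
  `K`.  If it has a point over `K'`, the obstruction to an object over `K'` is in the Brauer group of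
  `K'` (Lieblich, Moduli of complexes on a proper morphism, 2006), hence it has an order `d` and
  vanishes over each `L` whose degree over `K'` is divisible by `d` (local class field theory); the
  second Chern class of an object over `L` is in `CH²(X_L)`. -/
  moduli : ∀ (v : N) (s : St), Primitive v → (∀ g, act g v = v) → -2 ≤ B v v → Gen v s →
    (∀ g, gal g s = s) → ∃ M : S.V K, 2 * S.chi M = B v v + 4 ∧
      ∀ K' : Fld p, IsFin p K' → K ≤ K' → S.pt M K' → ∃ d : ℕ, 0 < d ∧
        ∀ L : Fld p, IsFin p L → K' ≤ L → d * deg p K' ∣ deg p L →
          ∃ a ∈ J L, Cong h (c v) a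

/-- The points `t` over `K` of the universal deformation of `X`, `K` a finite extension of `ℚ_p`
whose residue field is the extension of degree `m` of the field with `p^r` elements. -/
def IsLift (r : ℕ) (K : Fld p) (t : Fin 20 → Om p) (m : ℕ) : Prop :=
  IsFin p K ∧ 0 < m ∧ resDeg p K = r * m ∧ (∀ i, t i ∈ K) ∧ ‖t‖ < 1

/-- A smooth cubic fourfold `X` over the field `F` with `p^r` elements, `p` odd.  `A` is the
Néron-Severi group of the variety `Ȳ` of lines of `X̄`.  The group `CH²(X̄)` modulo torsion embeds into
`A` by the incidence correspondence: modulo torsion it is a subgroup of `H⁴(X̄, ℤ_l(2))` (Bloch,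
Srinivas 1983), which is isomorphic to `H²(Ȳ, ℤ_l(1))` for all `l ≠ p` (Beauville, Donagi 1985); below,
classes of cycles on `X` are identified with their images in `A`.  `H3` is the sum of the groups
`H³_nr(F(X)/F, ℚ_l/ℤ_l(2))`, `l ≠ p`, and `H2` the group `H³_nr(F(X)/F, ℤ/2)`. -/
structure CubicFourfold (S : ProperSchemes p) (r : ℕ) (A H3 H2 : Type) [AddCommGroup A]
    [AddCommGroup H3] [AddCommGroup H2] where
  /-- the Frobenius automorphism of `X̄` over `F` -/
  phi : A ≃+ A
  /-- the square of the hyperplane class of `X`, that is the Plücker class of `Ȳ`; it is primitive -/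
  h : A
  phi_h : phi h = h
  fg : Module.Finite ℤ A
  tf : ∀ (n : ℤ) (a : A), n ≠ 0 → n • a = 0 → a = 0
  h_prim : ∀ (n m : ℤ) (a : A), n ≠ 0 → n • a = m • h → ∃ k : ℤ, a = k • h
  /-- `im m` is the image of `CH²` of the base change of `X` to the extension of degree `m` -/
  im : ℕ → AddSubgroup A
  h_im : h ∈ im 1
  im_fixed : ∀ m, 0 < m → ∀ a ∈ im m, phi^[m] a = a
  /-- direct images of cycles -/
  im_norm : ∀ m, 0 < m → ∀ a ∈ im m, ∑ i ∈ Finset.range m, phi^[i] a ∈ im 1
  fin : ∀ a, ∃ m, 0 < m ∧ phi^[m] a = a
  H3_tors : ∀ x : H3, ∃ n : ℕ, ¬ p ∣ n ∧ n • x = 0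
  /-- Merkurjev, Suslin 1982 -/
  ms : H2 →+ H3
  ms_inj : Function.Injective ms
  /-- Colliot-Thelene, Kahn, Cycles de codimension 2 et H³ non ramifie pour les varietes sur les corps
  finis (2013), Theorem 2.2: as `H3` is killed by an integer (decomposition of the diagonal), it is the
  sum of the torsion subgroups of the cokernels of `CH²(X) ⊗ ℤ_l → H⁴(X̄, ℤ_l(2))^G = H²(Ȳ, ℤ_l(1))^G`,
  and `A ⊗ ℤ_l` is saturated in `H²(Ȳ, ℤ_l(1))` -/
  ctk : H3 →+ A ⧸ im 1
  ctk_inj : Function.Injective ctk
  ctk_fixed : ∀ x, ∃ a, phi a = a ∧ ctk x = QuotientAddGroup.mk a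
  /-- The universal deformation of `X` is the formal spectrum of the ring of power series in twenty
  variables over the Witt vectors of `F`.  Over those of the algebraic closure of `F` the closed
  subscheme where the line bundle `a` on `Ȳ` extends to the variety of lines of the deformation is given
  by one equation `f a`, as `H¹(Ȳ, O) = 0` and `H²(Ȳ, O)` is one-dimensional (Altman, Kleiman 1977;
  Deligne, Relevement des surfaces K3 en caracteristique nulle, 1981; Charles, The Tate conjecture for
  K3 surfaces over finite fields, 2013). -/
  f : A → (Fin 20 → ℕ) → Om p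
  f_le : ∀ a α, ‖f a α‖ ≤ 1
  f_zero : ∀ a, ‖f a 0‖ < 1
  /-- the coefficients are in the maximal unramified extension -/
  f_unram : ∀ a α, ‖f a α‖ < 1 → ‖f a α‖ ≤ ‖(p : Om p)‖
  f_mem : ∀ a m, 0 < m → phi^[m] a = a → ∀ K : Fld p, IsFin p K → resDeg p K = r * m →
    ∀ α, f a α ∈ K
  /-- The de Rham class of `a` lies in `F²H⁴` of `X̄` (identified with `F¹H²` of `Ȳ`).  First case: its
  class in `H²(X̄, Ω²)` is not a multiple of the class of `h`, and `f a` has a linear coefficient which is
  a unit, by the infinitesimal Torelli theorem (`H¹(X̄, T)` is the orthogonal complement of `h` in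
  `H²(X̄, Ω²)`).  Second case: it is a multiple, but the de Rham class of `a` is not a multiple of the
  class of `h`, and the quadratic part of `f a` has rank at least `19` modulo `p` by Griffiths
  transversality, as the cup product on the orthogonal complement of `h` has no radical except, for
  `p = 3`, the multiples of `h` (Deligne 1981; Ogus, Supersingular K3 crystals, 1979).  Third case: the
  de Rham class of `a` is a multiple of the class of `h`; then `a ∈ p A + ℤ h`, since `A/p` embeds into
  de Rham cohomology (Ogus 1979; Illusie 1979). -/
  cases : ∀ a, (∃ i, ‖f a (Pi.single i 1)‖ = 1) ∨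
    ((∀ i, ‖f a (Pi.single i 1)‖ < 1) ∧ ∃ i j, ‖minor p (f a) i j‖ = 1) ∨
    ∃ (b : A) (m : ℤ), a = (p : ℤ) • b + m • h
  /-- the image of `CH²` of the geometric generic fibre of the deformation `t` under specialisation -/
  C : (Fin 20 → Om p) → AddSubgroup A
  /-- Voisin, Some aspects of the Hodge conjecture, 2007, Theorem 18 (integral Hodge conjecture for
  cubic fourfolds), and the isomorphism of Beauville and Donagi 1985 between `H⁴` of the cubic fourfold
  and `H²` of its variety of lines: a class `a` lifts if and only if the line bundle extends -/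
  C_mem : ∀ (K : Fld p) (t : Fin 20 → Om p) (m : ℕ), IsLift r K t m →
    ∀ a, a ∈ C t ↔ Vanishes p (f a) t
  C_h : ∀ t, h ∈ C t
  /-- the local Torelli theorem (Voisin 1986; Beauville, Donagi 1985), the implicit function theorem
  over `K` and the injectivity of `NS ⊗ K → H^{1,1}`: if the line bundle of `b` extends to all
  deformations over `K`, near `u`, to which the line bundle of `a` extends, then `b` is a rational
  combination of `a` and `h` -/
  torelli : ∀ (a b : A) (K : Fld p) (u : Fin 20 → Om p) (m : ℕ) (ρ : ℝ), IsLift r K u m →
    phi^[m] a = a → Vanishes p (f a) u → 0 < ρ →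
    (∀ t : Fin 20 → Om p, IsLift r K t m → (∀ i, ‖t i - u i‖ < ρ) → Vanishes p (f a) t →
      Vanishes p (f b) t) →
    ∃ n x y : ℤ, n ≠ 0 ∧ n • b = x • a + y • h
  /-- `J t L` is the image of `CH²(X_L)` in `A`, `X` the deformation `t`; Fulton, Intersection
  theory, 20.3 (specialisation) -/
  J : (Fin 20 → Om p) → Fld p → AddSubgroup A
  J_h : ∀ t L, h ∈ J t L
  J_spec : ∀ (K : Fld p) (t : Fin 20 → Om p) (m : ℕ), IsLift r K t m → ∀ (L : Fld p),
    IsFin p L → K ≤ L → ∀ n, 0 < n → resDeg p L = r * n → J t L ≤ im n
  /-- `X` contains a line over the extension of degree `m` which is in no plane of `X̄` -/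
  Line : ℕ → Prop
  /-- Lang, Weil 1954, and Altman, Kleiman 1977 (the variety of lines is geometrically irreducible) -/
  lang_weil : ∃ m₀, ∀ m, m₀ ≤ m → Line m
  ku : ∀ (K : Fld p) (t : Fin 20 → Om p) (m : ℕ), IsLift r K t m → Line m →
    Nonempty (Kuznetsov S K h (phi^[m]) (C t) (J t))

end Cubics

attribute [instance] Kuznetsov.grp Kuznetsov.top Kuznetsov.t2 Kuznetsov.conn

end Pool.CubicTate
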