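import Pool.Agent.Work.MP_eb5f03_ct.Assembly
import Pool.Agent.Work.MP_eb5f03_ct.B_RDG
import Pool.Agent.Work.MP_eb5f03_ct.B_TOW
import Pool.Agent.Work.MP_eb5f03_ct.B_RAM
import Pool.Agent.Work.MP_eb5f03_ct.B_UNR
import Pool.Agent.Work.MP_eb5f03_ct.B_WIT
import Pool.Agent.Work.MP_eb5f03_ct.B_TRI
import Pool.Agent.Work.MP_eb5f03_ct.B_OPN
import Pool.Agent.Work.MP_eb5f03_ct.B_PAR
import Pool.Agent.Work.MP_eb5f03_ct.B_CYC
import Pool.Agent.Work.MP_eb5f03_ct.B_DIV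
import Pool.Agent.Work.MP_eb5f03_ct.B_RES
import Pool.Agent.Work.MP_eb5f03_ct.B_NEW
import Pool.Agent.Work.MP_eb5f03_ct.B_LIN
import Pool.Agent.Work.MP_eb5f03_ct.B_QUA
import Pool.Agent.Work.MP_eb5f03_ct.B_EST
import Pool.Agent.Work.MP_eb5f03_ct.B_CLO
import Pool.Agent.Work.MP_eb5f03_ct.B_LIM
import Pool.Agent.Work.MP_eb5f03_ct.B_BAI
import Pool.Agent.Work.MP_eb5f03_ct.B_LFT
import Pool.Agent.Work.MP_eb5f03_ct.B_MOD
import Pool.Agent.Work.MP_eb5f03_ct.B_FIN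

set_option autoImplicit false

namespace Pool.CubicTate

/-- The theorem. -/
theorem main : S_FIN :=
  assembly p_RDG p_TOW p_RAM p_UNR p_WIT p_TRI p_OPN p_PAR p_CYC p_DIV p_RES p_NEW p_LIN p_QUA
    p_EST p_CLO p_LIM p_BAI p_LFT p_MOD p_FIN

end Pool.CubicTate
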